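import Mathlib

/-!
# Summation by parts for Dirichlet polynomials
-/

set_option autoImplicit false

namespace Pool.Agent.Helper78.RC

open Finset

/-- the difference of consecutive values of `k^(-s)` -/
theorem cpow_diff {s : ℂ} (hs : 0 < s.re) {k : ℕ} (hk : 1 ≤ k) :
    ‖(k : ℂ) ^ (-s) - ((k + 1 : ℕ) : ℂ) ^ (-s)‖ ≤
      ‖s‖ / s.re * ((k : ℝ) ^ (-s.re) - ((k + 1 : ℕ) : ℝ) ^ (-s.re)) := by
  have hk0 : (0 : ℝ) < k := by exact_mod_cast (by omega : 0 < k)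
  have hk1 : (k : ℝ) ≤ (k + 1 : ℕ) := by exact_mod_cast (by omega : k ≤ k + 1)
  have hs0 : s ≠ 0 := by
    intro h
    rw [h] at hs
    simp at hs
  have h0 : (0 : ℝ) ∉ Set.uIcc (k : ℝ) ((k + 1 : ℕ) : ℝ) := by
    rw [Set.uIcc_of_le hk1]
    intro h
    exact absurd h.1 (by linarith)
  have h1 : ∫ x in (k : ℝ)..((k + 1 : ℕ) : ℝ), (x : ℂ) ^ (-s - 1) =
      ((((k + 1 : ℕ) : ℝ) : ℂ) ^ (-s - 1 + 1) - ((k : ℝ) : ℂ) ^ (-s - 1 + 1)) / (-s - 1 + 1) := by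
    apply integral_cpow
    right
    refine ⟨?_, h0⟩
    intro h
    have h2 : s = 0 := by linear_combination -h
    exact hs0 h2
  have h2 : ∫ x in (k : ℝ)..((k + 1 : ℕ) : ℝ), x ^ (-s.re - 1) =
      (((k + 1 : ℕ) : ℝ) ^ (-s.re - 1 + 1) - (k : ℝ) ^ (-s.re - 1 + 1)) / (-s.re - 1 + 1) := by
    apply integral_rpow
    right
    refine ⟨?_, h0⟩
    intro h
    linarith
  have e1 : -s - 1 + 1 = -s := by ring
  have e2 : -s.re - 1 + 1 = -s.re := by ring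
  rw [e1] at h1
  rw [e2] at h2
  have h3 : ‖∫ x in (k : ℝ)..((k + 1 : ℕ) : ℝ), (x : ℂ) ^ (-s - 1)‖ ≤
      ∫ x in (k : ℝ)..((k + 1 : ℕ) : ℝ), x ^ (-s.re - 1) := by
    refine (intervalIntegral.norm_integral_le_integral_norm hk1).trans (le_of_eq ?_)
    refine intervalIntegral.integral_congr fun x hx => ?_
    rw [Set.uIcc_of_le hk1] at hx
    have hx0 : 0 < x := lt_of_lt_of_le hk0 hx.1
    change ‖(x : ℂ) ^ (-s - 1)‖ = x ^ (-s.re - 1)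
    rw [Complex.norm_cpow_eq_rpow_re_of_pos hx0]
    congr 1
  rw [h1, h2] at h3
  have hs1 : 0 < ‖s‖ := norm_pos_iff.mpr hs0
  rw [norm_div, norm_neg, div_le_iff₀ hs1] at h3
  rw [norm_sub_rev]
  have e3 : (((k + 1 : ℕ) : ℝ) : ℂ) = ((k + 1 : ℕ) : ℂ) := by push_cast; ring
  have e4 : ((k : ℝ) : ℂ) = (k : ℂ) := by push_cast; ring
  rw [e3, e4] at h3
  refine h3.trans (le_of_eq ?_)
  field_simp
  ring

/-- summation by parts -/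
theorem abel_eq (u f : ℕ → ℂ) (y : ℕ) (x : ℕ) (h : y ≤ x) :
    ∑ k ∈ Ioc y x, u k * f k = (∑ k ∈ Ioc 0 x, u k) * f (x + 1) - (∑ k ∈ Ioc 0 y, u k) * f (y + 1) +
      ∑ k ∈ Ioc y x, (∑ i ∈ Ioc 0 k, u i) * (f k - f (k + 1)) := by
  induction x, h using Nat.le_induction with
  | base => simp
  | succ x hx ih =>
    have h1 : ∑ k ∈ Ioc 0 (x + 1), u k = ∑ k ∈ Ioc 0 x, u k + u (x + 1) :=
      Finset.sum_Ioc_succ_top (by omega) _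
    have h2 : ∑ k ∈ Ioc y (x + 1), (∑ i ∈ Ioc 0 k, u i) * (f k - f (k + 1)) =
        ∑ k ∈ Ioc y x, (∑ i ∈ Ioc 0 k, u i) * (f k - f (k + 1)) +
          (∑ i ∈ Ioc 0 (x + 1), u i) * (f (x + 1) - f (x + 1 + 1)) :=
      Finset.sum_Ioc_succ_top (by omega) _
    rw [Finset.sum_Ioc_succ_top (by omega), h2, h1, ih]
    ring

theorem tele (g : ℕ → ℝ) (y : ℕ) (x : ℕ) (h : y ≤ x) :
    ∑ k ∈ Ioc y x, (g k - g (k + 1)) = g (y + 1) - g (x + 1) := by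
  induction x, h using Nat.le_induction with
  | base => simp
  | succ x hx ih =>
    rw [Finset.sum_Ioc_succ_top (by omega), ih]
    ring

/-- **The bound by summation by parts.** -/
theorem abel_le {u : ℕ → ℂ} {A : ℝ} {x : ℕ} (hA : 0 ≤ A) (h : ∀ t ≤ x, ‖∑ k ∈ Ioc 0 t, u k‖ ≤ A)
    {s : ℂ} (hs : 0 < s.re) {y : ℕ} (hy : y ≤ x) :
    ‖∑ k ∈ Ioc y x, u k * (k : ℂ) ^ (-s)‖ ≤ A * (2 + ‖s‖ / s.re) * ((y + 1 : ℕ) : ℝ) ^ (-s.re) := by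
  have hn : ∀ k : ℕ, 1 ≤ k → ‖(k : ℂ) ^ (-s)‖ = (k : ℝ) ^ (-s.re) := by
    intro k hk
    rw [Complex.norm_natCast_cpow_of_pos (by omega), Complex.neg_re]
  have hmono : ((x + 1 : ℕ) : ℝ) ^ (-s.re) ≤ ((y + 1 : ℕ) : ℝ) ^ (-s.re) := by
    apply Real.rpow_le_rpow_of_nonpos
    · exact_mod_cast (by omega : 0 < y + 1)
    · exact_mod_cast (by omega : y + 1 ≤ x + 1)
    · linarith
  have hc : 0 ≤ ‖s‖ / s.re := by positivity
  rw [abel_eq u (fun k => (k : ℂ) ^ (-s)) y x hy]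
  have h1 : ‖(∑ k ∈ Ioc 0 x, u k) * ((x + 1 : ℕ) : ℂ) ^ (-s)‖ ≤ A * ((y + 1 : ℕ) : ℝ) ^ (-s.re) := by
    rw [norm_mul, hn _ (by omega)]
    exact mul_le_mul (h x le_rfl) hmono (by positivity) hA
  have h2 : ‖(∑ k ∈ Ioc 0 y, u k) * ((y + 1 : ℕ) : ℂ) ^ (-s)‖ ≤ A * ((y + 1 : ℕ) : ℝ) ^ (-s.re) := by
    rw [norm_mul, hn _ (by omega)]
    exact mul_le_mul_of_nonneg_right (h y hy) (by positivity)
  have h3 : ‖∑ k ∈ Ioc y x, (∑ i ∈ Ioc 0 k, u i) * ((k : ℂ) ^ (-s) - ((k + 1 : ℕ) : ℂ) ^ (-s))‖ ≤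
      A * (‖s‖ / s.re) * ((y + 1 : ℕ) : ℝ) ^ (-s.re) := by
    refine (norm_sum_le _ _).trans ?_
    have h4 : ∀ k ∈ Ioc y x, ‖(∑ i ∈ Ioc 0 k, u i) * ((k : ℂ) ^ (-s) - ((k + 1 : ℕ) : ℂ) ^ (-s))‖ ≤
        A * (‖s‖ / s.re) * ((k : ℝ) ^ (-s.re) - ((k + 1 : ℕ) : ℝ) ^ (-s.re)) := by
      intro k hk
      rw [mem_Ioc] at hk
      rw [norm_mul, mul_assoc]
      exact mul_le_mul (h k hk.2) (cpow_diff hs (by omega)) (norm_nonneg _) hA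
    refine (Finset.sum_le_sum h4).trans ?_
    rw [← Finset.mul_sum, tele (fun k => (k : ℝ) ^ (-s.re)) y x hy]
    refine mul_le_mul_of_nonneg_left ?_ (by positivity)
    have : (0 : ℝ) ≤ ((x + 1 : ℕ) : ℝ) ^ (-s.re) := by positivity
    linarith
  refine (norm_add_le _ _).trans ?_
  refine (add_le_add (norm_sub_le _ _) le_rfl).trans ?_
  have h5 := add_le_add (add_le_add h1 h2) h3
  refine h5.trans (le_of_eq ?_)
  ring

end Pool.Agent.Helper78.RC
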