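import Pool.Agent.Helper78.RC.Zero

/-!
# The characteristic functions of the local logarithms on the boundary
-/

set_option autoImplicit false
set_option linter.all false

namespace Pool.Agent.Helper78.RC

open Finset NumberField IsDedekindDomain Module Filter Topology
open Pool.Agent.H921R2.TatePole (nm two_le_nm nm_summable)
open Pool.Agent.Helper89.MM (fintypeV redJ Fam card_v TT norm_TT)

attribute [local instance] fintypeV

theorem norm_sq_sum {ι : Type*} (s : Finset ι) (θ : ι → ℝ) :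
    ‖∑ a ∈ s, Complex.exp ((θ a : ℂ) * Complex.I)‖ ^ 2 = ∑ a ∈ s, ∑ a' ∈ s, Real.cos (θ a - θ a') := by
  rw [Complex.sq_norm, Complex.normSq_apply, Complex.re_sum, Complex.im_sum]
  simp only [Complex.exp_ofReal_mul_I_re, Complex.exp_ofReal_mul_I_im]
  rw [Finset.sum_mul_sum, Finset.sum_mul_sum, ← Finset.sum_add_distrib]
  refine Finset.sum_congr rfl fun a _ => ?_
  rw [← Finset.sum_add_distrib]
  refine Finset.sum_congr rfl fun a' _ => ?_
  rw [Real.cos_sub]

theorem sum_sq_sub {ι : Type*} (s : Finset ι) (f : ι → ℝ) :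
    ∑ a ∈ s, ∑ a' ∈ s, (f a - f a') ^ 2 = 2 * (s.card * ∑ a ∈ s, f a ^ 2 - (∑ a ∈ s, f a) ^ 2) := by
  have h1 : ∀ a ∈ s, ∑ a' ∈ s, (f a - f a') ^ 2 =
      s.card * f a ^ 2 - 2 * f a * ∑ a' ∈ s, f a' + ∑ a' ∈ s, f a' ^ 2 := by
    intro a _
    have h2 : ∀ a' ∈ s, (f a - f a') ^ 2 = f a ^ 2 - 2 * f a * f a' + f a' ^ 2 := fun a' _ => by ring
    rw [Finset.sum_congr rfl h2, Finset.sum_add_distrib, Finset.sum_sub_distrib, Finset.sum_const,
      nsmul_eq_mul, ← Finset.mul_sum]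
  rw [Finset.sum_congr rfl h1, Finset.sum_add_distrib, Finset.sum_sub_distrib, ← Finset.mul_sum,
    Finset.sum_const, nsmul_eq_mul]
  have h3 : ∑ a ∈ s, 2 * f a * ∑ a' ∈ s, f a' = 2 * (∑ a ∈ s, f a) ^ 2 := by
    rw [← Finset.sum_mul, ← Finset.mul_sum]
    ring
  rw [h3]
  ring

section
variable {K : Type} [Field K] [NumberField K] {J : Type} [Fintype J] [DecidableEq J] (F : Fam K J)

theorem re_TT (v : HeightOneSpectrum (𝓞 K)) (s : ℂ) :
    (TT v s).re = (nm v : ℝ) ^ (-s.re) * Real.cos (s.im * Real.log (nm v)) := by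
  have hq : (0 : ℝ) < nm v := nm_pos' v
  have h1 : TT v s = (((nm v : ℝ) ^ (-s.re) : ℝ) : ℂ) *
      Complex.exp (((-(s.im * Real.log (nm v)) : ℝ) : ℂ) * Complex.I) := by
    unfold TT
    have h2 : ((nm v : ℕ) : ℂ) = ((nm v : ℝ) : ℂ) := by push_cast; rfl
    rw [h2, Complex.cpow_def_of_ne_zero (by exact_mod_cast hq.ne'), Real.rpow_def_of_pos hq,
      Complex.ofReal_exp, ← Complex.exp_add, ← Complex.ofReal_log hq.le]
    congr 1
    conv_lhs => rw [← Complex.re_add_im s]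
    push_cast
    ring
  rw [h1, Complex.re_ofReal_mul, Complex.exp_ofReal_mul_I_re, Real.cos_neg]

/-- the second moment of the trace -/
theorem tr_mom2 : ∀ᶠ v : HeightOneSpectrum (𝓞 K) in cofinite,
    ((nm v : ℝ) - 46) * Fintype.card (J → 𝓞 K ⧸ v.asIdeal) ≤ ∑ a, tr F v a ^ 2 := by
  classical
  filter_upwards [F.mom2, F.bad] with v h1 h2
  have hn := nm_pos' v
  have hcard : ((Fintype.card (J → 𝓞 K ⧸ v.asIdeal) : ℕ) : ℝ) = (nm v : ℝ) ^ Fintype.card J := by
    rw [Fintype.card_fun, card_v]; push_cast; rfl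
  have hcp : (0 : ℝ) < (nm v : ℝ) ^ Fintype.card J := by positivity
  have e1 : ∑ a, tr F v a ^ 2 = ∑ a, F.t v a ^ 2 - ∑ a, (if F.good v a then 0 else F.t v a ^ 2) := by
    rw [← Finset.sum_sub_distrib]
    refine Finset.sum_congr rfl fun a _ => ?_
    unfold tr
    split_ifs <;> ring
  have e2 : ∑ a, (if F.good v a then 0 else F.t v a ^ 2) ≤
      4 * nm v * (4 / nm v * (nm v : ℝ) ^ Fintype.card J) := by
    have e3 : ∀ a : J → 𝓞 K ⧸ v.asIdeal, (if F.good v a then 0 else F.t v a ^ 2) ≤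
        (4 * nm v) * (if ¬ F.good v a then 1 else 0) := by
      intro a
      by_cases hg : F.good v a
      · simp [hg]
      · simp only [hg, not_false_eq_true, if_true, if_false, mul_one]
        have h3 := F.weil v a
        have h4 : |F.t v a| ^ 2 ≤ (2 * Real.sqrt (nm v)) ^ 2 := pow_le_pow_left₀ (abs_nonneg _) h3 2
        rw [sq_abs, mul_pow, Real.sq_sqrt hn.le] at h4
        linarith
    refine (Finset.sum_le_sum fun a _ => e3 a).trans ?_
    rw [← Finset.mul_sum, Finset.sum_boole]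
    refine mul_le_mul_of_nonneg_left ?_ (by positivity)
    rw [Nat.card_eq_fintype_card, Fintype.card_subtype] at h2
    exact h2
  have e4 : 4 * (nm v : ℝ) * (4 / nm v * (nm v : ℝ) ^ Fintype.card J) = 16 * (nm v : ℝ) ^ Fintype.card J := by
    field_simp
    norm_num
  rw [finsum_eq_sum_of_fintype] at h1
  have h3 := (abs_le.mp h1).1
  have h4 : ((nm v : ℝ) - 30) * (nm v : ℝ) ^ Fintype.card J ≤ ∑ a, F.t v a ^ 2 := by
    rw [← le_div_iff₀ hcp]
    linarith
  rw [hcard, e1]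
  rw [e4] at e2
  linarith

/-- the real part of the logarithm of the local factor -/
noncomputable def YY (v : HeightOneSpectrum (𝓞 K)) (a : J → 𝓞 K ⧸ v.asIdeal) (s : ℂ) : ℝ :=
  (ell F v a s).re

/-- twice the variance -/
noncomputable def DD (v : HeightOneSpectrum (𝓞 K)) (s : ℂ) : ℝ :=
  (∑ a, ∑ a', (YY F v a s - YY F v a' s) ^ 2) / (Fintype.card (J → 𝓞 K ⧸ v.asIdeal) : ℝ) ^ 2

/-- the characteristic function -/
noncomputable def phi (u : ℝ) (v : HeightOneSpectrum (𝓞 K)) (s : ℂ) : ℂ :=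
  (∑ a, Complex.exp (((u * YY F v a s : ℝ) : ℂ) * Complex.I)) / Fintype.card (J → 𝓞 K ⧸ v.asIdeal)

theorem card_pos' (v : HeightOneSpectrum (𝓞 K)) : (0 : ℝ) < Fintype.card (J → 𝓞 K ⧸ v.asIdeal) := by
  exact_mod_cast Fintype.card_pos

theorem phi_le (u : ℝ) (v : HeightOneSpectrum (𝓞 K)) (s : ℂ) : ‖phi F u v s‖ ≤ 1 := by
  have hq := card_pos' (J := J) v
  unfold phi
  rw [norm_div, Complex.norm_natCast, div_le_one hq]
  refine (norm_sum_le _ _).trans ?_
  simp only [Complex.norm_exp_ofReal_mul_I]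
  rw [Finset.sum_const, card_univ, nsmul_eq_mul, mul_one]

theorem phi_cont (u : ℝ) (v : HeightOneSpectrum (𝓞 K)) {s : ℂ} (hs : 1 / 2 < s.re) :
    ContinuousAt (phi F u v) s := by
  unfold phi
  refine ContinuousAt.div_const ?_ _
  refine tendsto_finsetSum _ fun a _ => ?_
  have h1 : ContinuousAt (fun s => YY F v a s) s :=
    Complex.continuous_re.continuousAt.comp (diff_ell F v a hs).continuousAt
  exact (((Complex.continuous_ofReal.continuousAt.comp (h1.const_mul u)).mul continuousAt_const).cexp)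

theorem phi_sq (u : ℝ) (v : HeightOneSpectrum (𝓞 K)) (s : ℂ) : ‖phi F u v s‖ ^ 2 =
    (∑ a, ∑ a', Real.cos (u * (YY F v a s - YY F v a' s))) /
      (Fintype.card (J → 𝓞 K ⧸ v.asIdeal) : ℝ) ^ 2 := by
  unfold phi
  rw [norm_div, div_pow, norm_sq_sum, Complex.norm_natCast]
  congr 1
  refine Finset.sum_congr rfl fun a _ => Finset.sum_congr rfl fun a' _ => ?_
  congr 1
  ring

/-- the upper bound for the characteristic function -/
theorem phi_sq_le {u : ℝ} {v : HeightOneSpectrum (𝓞 K)} {s : ℂ}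
    (h : ∀ a, |u * YY F v a s| ≤ 1) : ‖phi F u v s‖ ^ 2 ≤ 1 - 2 / Real.pi ^ 2 * u ^ 2 * DD F v s := by
  have hq := card_pos' (J := J) v
  rw [phi_sq, div_le_iff₀ (by positivity)]
  unfold DD
  have h1 : ∀ a a' : J → 𝓞 K ⧸ v.asIdeal, Real.cos (u * (YY F v a s - YY F v a' s)) ≤
      1 - 2 / Real.pi ^ 2 * u ^ 2 * (YY F v a s - YY F v a' s) ^ 2 := by
    intro a a'
    have h2 : |u * (YY F v a s - YY F v a' s)| ≤ Real.pi := by
      have e : u * (YY F v a s - YY F v a' s) = u * YY F v a s - u * YY F v a' s := by ring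
      rw [e]
      refine (abs_sub _ _).trans ?_
      have := Real.two_le_pi
      linarith [h a, h a']
    refine (Real.cos_le_one_sub_mul_cos_sq h2).trans (le_of_eq ?_)
    ring
  refine (Finset.sum_le_sum fun a _ => Finset.sum_le_sum fun a' _ => h1 a a').trans (le_of_eq ?_)
  simp only [Finset.sum_sub_distrib, Finset.sum_const, card_univ, nsmul_eq_mul, mul_one,
    ← Finset.mul_sum]
  field_simp

theorem YY_le {v : HeightOneSpectrum (𝓞 K)} (a : J → 𝓞 K ⧸ v.asIdeal) {s : ℂ} (hs : 1 ≤ s.re) :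
    |YY F v a s| ≤ 4 * (nm v : ℝ) ^ (1 / 2 - s.re) :=
  (Complex.abs_re_le_norm _).trans (ell_le F v a hs)

/-- the lower bound for the variance -/
theorem DD_ge (t : ℝ) : ∃ C : ℝ, ∀ᶠ v : HeightOneSpectrum (𝓞 K) in cofinite,
    Real.cos (t * Real.log (nm v)) ^ 2 / (nm v : ℝ) - C * (nm v : ℝ) ^ (-(2 : ℝ)) ≤
      DD F v (1 + (t : ℂ) * Complex.I) := by
  obtain ⟨Cm, hCm, hm⟩ := mt_bdd F
  refine ⟨46 + Cm ^ 2 + 16, ?_⟩
  filter_upwards [tr_mom2 F] with v h1
  set z0 : ℂ := 1 + (t : ℂ) * Complex.I with hz0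
  have hre : z0.re = 1 := by simp [hz0]
  have him : z0.im = t := by simp [hz0]
  have hn := nm_pos' v
  have hn1 := one_le_nm' v
  set q : ℝ := (nm v : ℝ) with hq
  set N : ℝ := (Fintype.card (J → 𝓞 K ⧸ v.asIdeal) : ℝ) with hN
  have hN0 : 0 < N := card_pos' v
  set κ : ℝ := Real.cos (t * Real.log q) / q with hκ
  have hκ2 : κ ^ 2 ≤ q ^ (-(2 : ℝ)) := by
    rw [hκ, div_pow, Real.rpow_neg hn.le, Real.rpow_two, div_eq_mul_inv]
    exact mul_le_of_le_one_left (by positivity) (Real.cos_sq_le_one _)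
  have hT : (TT v z0).re = κ := by
    rw [re_TT, hre, him, hκ, Real.rpow_neg_one, div_eq_mul_inv, mul_comm]
  -- the second-order terms
  set e : (J → 𝓞 K ⧸ v.asIdeal) → ℝ := fun a => YY F v a z0 - tr F v a * κ with he
  have he1 : ∀ a, |e a| ≤ 2 * q⁻¹ := by
    intro a
    have h2 := ell_near F v a (s := z0) (by rw [hre])
    have h3 : e a = (ell F v a z0 - tr F v a * TT v z0).re := by
      rw [he]
      simp only
      unfold YY
      rw [Complex.sub_re, Complex.re_ofReal_mul, hT]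
    rw [h3]
    refine (Complex.abs_re_le_norm _).trans (h2.trans (le_of_eq ?_))
    rw [hre, show (1 : ℝ) - 2 * 1 = -1 by norm_num, Real.rpow_neg_one]
  have h2 : ∀ a a' : J → 𝓞 K ⧸ v.asIdeal, κ ^ 2 / 2 * (tr F v a - tr F v a') ^ 2 - 16 * q ^ (-(2 : ℝ)) ≤
      (YY F v a z0 - YY F v a' z0) ^ 2 := by
    intro a a'
    have e1 : YY F v a z0 - YY F v a' z0 = κ * (tr F v a - tr F v a') + (e a - e a') := by
      rw [he]
      ring
    have e2 : (e a - e a') ^ 2 ≤ 16 * q ^ (-(2 : ℝ)) := by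
      have k1 : |e a - e a'| ≤ 4 * q⁻¹ := by
        refine (abs_sub _ _).trans ?_
        linarith [he1 a, he1 a']
      have k2 : |e a - e a'| ^ 2 ≤ (4 * q⁻¹) ^ 2 := pow_le_pow_left₀ (abs_nonneg _) k1 2
      rw [sq_abs] at k2
      refine k2.trans (le_of_eq ?_)
      rw [Real.rpow_neg hn.le, Real.rpow_two]
      ring
    rw [e1]
    nlinarith [sq_nonneg (κ * (tr F v a - tr F v a') + 2 * (e a - e a'))]
  have h3 : ∑ a, ∑ a', (κ ^ 2 / 2 * (tr F v a - tr F v a') ^ 2 - 16 * q ^ (-(2 : ℝ))) ≤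
      ∑ a, ∑ a', (YY F v a z0 - YY F v a' z0) ^ 2 :=
    Finset.sum_le_sum fun a _ => Finset.sum_le_sum fun a' _ => h2 a a'
  have h4 : ∑ a, ∑ a', (κ ^ 2 / 2 * (tr F v a - tr F v a') ^ 2 - 16 * q ^ (-(2 : ℝ))) =
      κ ^ 2 * (N * ∑ a, tr F v a ^ 2 - (∑ a, tr F v a) ^ 2) - 16 * q ^ (-(2 : ℝ)) * N ^ 2 := by
    simp only [Finset.sum_sub_distrib, Finset.sum_const, card_univ, nsmul_eq_mul, ← Finset.mul_sum]
    rw [sum_sq_sub, card_univ]
    ring
  have h5 : ∑ a, tr F v a = mt F v * N := by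
    unfold mt
    rw [div_mul_cancel₀ _ hN0.ne']
  have h6 : (mt F v) ^ 2 ≤ Cm ^ 2 := by
    rw [← sq_abs]
    exact pow_le_pow_left₀ (abs_nonneg _) (hm v) 2
  unfold DD
  rw [le_div_iff₀ (by positivity)]
  refine le_trans ?_ h3
  rw [h4, h5]
  have h7 : (q - 46 - Cm ^ 2) * N ^ 2 ≤ N * ∑ a, tr F v a ^ 2 - (mt F v * N) ^ 2 := by
    have k1 : N * ((q - 46) * N) ≤ N * ∑ a, tr F v a ^ 2 := mul_le_mul_of_nonneg_left h1 hN0.le
    have k2 : (mt F v * N) ^ 2 ≤ Cm ^ 2 * N ^ 2 := by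
      rw [mul_pow]
      exact mul_le_mul_of_nonneg_right h6 (by positivity)
    nlinarith
  have h8 : κ ^ 2 * ((q - 46 - Cm ^ 2) * N ^ 2) ≤ κ ^ 2 * (N * ∑ a, tr F v a ^ 2 - (mt F v * N) ^ 2) :=
    mul_le_mul_of_nonneg_left h7 (sq_nonneg _)
  have h9 : κ ^ 2 * q = Real.cos (t * Real.log q) ^ 2 / q := by
    rw [hκ]
    field_simp
  have h10 : κ ^ 2 * (46 + Cm ^ 2) ≤ (46 + Cm ^ 2) * q ^ (-(2 : ℝ)) := by
    rw [mul_comm]
    exact mul_le_mul_of_nonneg_left hκ2 (by positivity)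
  have h11 : (Real.cos (t * Real.log q) ^ 2 / q - (46 + Cm ^ 2 + 16) * q ^ (-(2 : ℝ))) * N ^ 2 ≤
      κ ^ 2 * ((q - 46 - Cm ^ 2) * N ^ 2) - 16 * q ^ (-(2 : ℝ)) * N ^ 2 := by
    rw [← h9]
    have k : 0 ≤ N ^ 2 := by positivity
    nlinarith
  linarith

/-- **The product of the characteristic functions diverges to zero.** -/
theorem prod_small {t u ε : ℝ} (ht : t ≠ 0) (hu : u ≠ 0) (hε : 0 < ε) :
    ∃ S : Finset (HeightOneSpectrum (𝓞 K)), ∏ v ∈ S, ‖phi F u v (1 + (t : ℂ) * Complex.I)‖ < ε := by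
  classical
  by_contra hcon
  push Not at hcon
  apply not_summable_cos K ht
  obtain ⟨C, hC⟩ := DD_ge F t
  set z0 : ℂ := 1 + (t : ℂ) * Complex.I with hz0
  have hre : z0.re = 1 := by simp [hz0]
  have hsmall : ∀ᶠ v : HeightOneSpectrum (𝓞 K) in cofinite, ∀ a : J → 𝓞 K ⧸ v.asIdeal,
      |u * YY F v a z0| ≤ 1 := by
    filter_upwards [Pool.Agent.Helper89.MM.nm_rpow_small K (x := 1 / 2) (by norm_num)
      (show 0 < 1 / (4 * |u|) by positivity)] with v hv a
    have h1 := YY_le F a (s := z0) (by rw [hre])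
    rw [hre, show (1 / 2 - 1 : ℝ) = -(1 / 2) by norm_num] at h1
    rw [abs_mul]
    have hu0 : 0 < |u| := abs_pos.mpr hu
    calc |u| * |YY F v a z0| ≤ |u| * (4 * (nm v : ℝ) ^ (-(1 / 2) : ℝ)) := by gcongr
      _ ≤ |u| * (4 * (1 / (4 * |u|))) := by gcongr
      _ = 1 := by field_simp
  set a' : HeightOneSpectrum (𝓞 K) → ℝ := fun v =>
    if ∀ a : J → 𝓞 K ⧸ v.asIdeal, |u * YY F v a z0| ≤ 1 then 2 / Real.pi ^ 2 * u ^ 2 * DD F v z0 else 0
    with ha'
  have hDD0 : ∀ v, 0 ≤ DD F v z0 := fun v => by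
    unfold DD
    positivity
  have ha0 : ∀ v, 0 ≤ a' v := by
    intro v
    rw [ha']
    simp only
    split_ifs
    · have := hDD0 v
      positivity
    · exact le_rfl
  have ha1 : ∀ v, ‖phi F u v z0‖ ^ 2 ≤ Real.exp (-a' v) := by
    intro v
    rw [ha']
    simp only
    split_ifs with h
    · refine (phi_sq_le F h).trans ?_
      have := Real.add_one_le_exp (-(2 / Real.pi ^ 2 * u ^ 2 * DD F v z0))
      linarith
    · rw [neg_zero, Real.exp_zero]
      exact pow_le_one₀ (norm_nonneg _) (phi_le F u v z0)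
  have hsum : Summable a' := by
    refine summable_of_sum_le ha0 (c := 2 * Real.log (1 / ε)) fun S => ?_
    have h1 : ε ^ 2 ≤ Real.exp (-∑ v ∈ S, a' v) := by
      calc ε ^ 2 ≤ (∏ v ∈ S, ‖phi F u v z0‖) ^ 2 := pow_le_pow_left₀ hε.le (hcon S) 2
        _ = ∏ v ∈ S, ‖phi F u v z0‖ ^ 2 := (Finset.prod_pow _ _ _).symm
        _ ≤ ∏ v ∈ S, Real.exp (-a' v) := Finset.prod_le_prod (fun _ _ => by positivity) fun v _ => ha1 v
        _ = _ := by rw [← Real.exp_sum, Finset.sum_neg_distrib]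
    have h2 := Real.log_le_log (by positivity) h1
    rw [Real.log_exp, Real.log_pow] at h2
    rw [one_div, Real.log_inv]
    push_cast at h2
    linarith
  have hπ := Real.pi_pos
  have hg : Summable fun v : HeightOneSpectrum (𝓞 K) =>
      (2 / Real.pi ^ 2 * u ^ 2)⁻¹ * a' v + C * (nm v : ℝ) ^ (-(2 : ℝ)) :=
    (hsum.mul_left _).add ((nm_summable (by norm_num)).mul_left C)
  refine Summable.of_norm_bounded_eventually hg ?_
  filter_upwards [hC, hsmall] with v h1 h2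
  rw [Real.norm_eq_abs, abs_of_nonneg (by positivity)]
  have h3 : a' v = 2 / Real.pi ^ 2 * u ^ 2 * DD F v z0 := if_pos h2
  rw [h3, ← mul_assoc, inv_mul_cancel₀ (by positivity), one_mul]
  linarith

end

end Pool.Agent.Helper78.RC
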