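import Pool.Agent.Helper78.RC.Conv
import Pool.Agent.Helper78.RC.Var

/-!
# The natural boundary
-/

set_option autoImplicit false
set_option linter.all false

namespace Pool.Agent.Helper78.RC

open Finset NumberField IsDedekindDomain Module Filter Topology MeasureTheory
open Pool.Agent.N430.BP (Tx mem_Tx mkP)
open Pool.Agent.H921R2.TatePole (nm two_le_nm nm_summable)
open Pool.Agent.Helper89.MM (fintypeV redJ Fam card_v TT norm_TT)
open Pool.Agent.Helper89.EllipticFamilies (factor LSeries param mean primesUpTo Models)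
open Pool.Agent.Helper78.EllipticLimit

attribute [local instance] fintypeV

section
variable {K : Type} [Field K] [NumberField K] {J : Type} [Fintype J] [DecidableEq J] (F : Fam K J)

theorem X_dep (x : ℕ) (s : ℂ) : Dep (Tx K x) (fun b : Residues K J => X F b x s) := by
  intro b b' h
  simp only
  unfold X
  refine Finset.sum_congr rfl fun v hv => ?_
  rw [h v hv]

theorem X_meas (x : ℕ) (s : ℂ) : Measurable fun b : Residues K J => X F b x s := (X_dep F x s).measurable

theorem Lam_meas {s : ℂ} (hs : 1 < s.re) :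
    AEMeasurable (fun b : Residues K J => Lam F b s) (residueMeasure K J) := by
  refine aemeasurable_of_tendsto_metrizable_ae' (f := fun x b => X F b x s)
    (fun x => (X_meas F x s).aemeasurable) ?_
  filter_upwards [good_ae F] with b hb
  exact hb.tendsto hs

/-- the exponential of the real part of the logarithm -/
noncomputable def ex (u : ℝ) (z : ℂ) : ℂ := Complex.exp (((u * z.re : ℝ) : ℂ) * Complex.I)

theorem ex_cont (u : ℝ) : Continuous (ex u) := by
  unfold ex
  fun_prop

theorem ex_norm (u : ℝ) (z : ℂ) : ‖ex u z‖ = 1 := Complex.norm_exp_ofReal_mul_I _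

theorem int_X (u : ℝ) (x : ℕ) (s : ℂ) :
    ∫ b, ex u (X F b x s) ∂(residueMeasure K J) = ∏ v ∈ Tx K x, phi F u v s := by
  have h1 : ∀ b : Residues K J, ex u (X F b x s) =
      ∏ v ∈ Tx K x, Complex.exp (((u * YY F v (b v) s : ℝ) : ℂ) * Complex.I) := by
    intro b
    unfold ex X YY
    rw [← Complex.exp_sum, ← Finset.sum_mul, Complex.re_sum, Finset.mul_sum]
    push_cast
    rfl
  simp only [h1]
  exact int_prod (Tx K x) (fun v a => Complex.exp (((u * YY F v a s : ℝ) : ℂ) * Complex.I))

/-- the characteristic function of the logarithm -/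
noncomputable def chr (u : ℝ) (s : ℂ) : ℂ := ∫ b, ex u (Lam F b s) ∂(residueMeasure K J)

theorem chr_le {s : ℂ} (hs : 1 < s.re) (u : ℝ) (S : Finset (HeightOneSpectrum (𝓞 K))) :
    ‖chr F u s‖ ≤ ∏ v ∈ S, ‖phi F u v s‖ := by
  classical
  have h1 : Tendsto (fun x : ℕ => ∫ b, ex u (X F b x s) ∂(residueMeasure K J)) atTop
      (𝓝 (chr F u s)) := by
    unfold chr
    refine tendsto_integral_of_dominated_convergence (fun _ => 1)
      (fun x => ((ex_cont u).measurable.comp (X_meas F x s)).aestronglyMeasurable) (integrable_const _)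
      (fun x => Eventually.of_forall fun b => (ex_norm u _).le) ?_
    filter_upwards [good_ae F] with b hb
    exact ((ex_cont u).tendsto _).comp (hb.tendsto hs)
  refine le_of_tendsto h1.norm ?_
  have hTx : Tendsto (Tx K) atTop atTop := by
    refine tendsto_atTop_finset_of_monotone (fun a b hab => Tx_mono hab) fun v => ⟨nm v, ?_⟩
    rw [mem_Tx]
  filter_upwards [hTx.eventually_ge_atTop S] with x hx
  rw [int_X, norm_prod, ← Finset.prod_sdiff hx]
  refine mul_le_of_le_one_left (Finset.prod_nonneg fun _ _ => norm_nonneg _) ?_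
  exact Finset.prod_le_one (fun _ _ => norm_nonneg _) fun v _ => phi_le F u v s

/-- the points near the boundary -/
noncomputable def sk (t : ℝ) (k : ℕ) : ℂ := 1 + (t : ℂ) * Complex.I + ((Real.exp (-(k : ℝ)) : ℝ) : ℂ)

theorem sk_re (t : ℝ) (k : ℕ) : (sk t k).re = 1 + Real.exp (-(k : ℝ)) := by
  unfold sk
  rw [Complex.add_re, Complex.ofReal_re]
  simp

theorem sk_gt (t : ℝ) (k : ℕ) : 1 < (sk t k).re := by
  rw [sk_re]
  linarith [Real.exp_pos (-(k : ℝ))]

theorem exp_neg_nat : Tendsto (fun k : ℕ => Real.exp (-(k : ℝ))) atTop (𝓝 0) :=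
  Real.tendsto_exp_atBot.comp (tendsto_neg_atTop_atBot.comp tendsto_natCast_atTop_atTop)

theorem sk_tendsto (t : ℝ) : Tendsto (sk t) atTop (𝓝 (1 + (t : ℂ) * Complex.I)) := by
  have h1 : Tendsto (fun k : ℕ => ((Real.exp (-(k : ℝ)) : ℝ) : ℂ)) atTop (𝓝 ((0 : ℝ) : ℂ)) :=
    (Complex.continuous_ofReal.tendsto 0).comp exp_neg_nat
  have h2 := h1.const_add (1 + (t : ℂ) * Complex.I)
  rw [Complex.ofReal_zero, add_zero] at h2
  exact h2

/-- **The characteristic functions tend to zero at the boundary.** -/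
theorem chr_tendsto {t u : ℝ} (ht : t ≠ 0) (hu : u ≠ 0) :
    Tendsto (fun k : ℕ => chr F u (sk t k)) atTop (𝓝 0) := by
  rw [tendsto_zero_iff_norm_tendsto_zero, Metric.tendsto_nhds]
  intro ε hε
  obtain ⟨S, hS⟩ := prod_small F ht hu hε
  have h1 : Tendsto (fun k : ℕ => ∏ v ∈ S, ‖phi F u v (sk t k)‖) atTop
      (𝓝 (∏ v ∈ S, ‖phi F u v (1 + (t : ℂ) * Complex.I)‖)) := by
    refine tendsto_finsetProd _ fun v _ => ?_
    exact ((phi_cont F u v (by simp; norm_num)).tendsto.comp (sk_tendsto t)).norm
  filter_upwards [h1.eventually (gt_mem_nhds hS)] with k hk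
  rw [Real.dist_0_eq_abs, abs_of_nonneg (norm_nonneg _)]
  exact lt_of_le_of_lt (chr_le F (sk_gt t k) u S) hk

theorem chr_zero (s : ℂ) : ‖chr F 0 s‖ ≤ 1 := by
  unfold chr
  have h1 := norm_integral_le_of_norm_le_const (μ := residueMeasure K J)
    (f := fun b => ex 0 (Lam F b s)) (C := 1) (Eventually.of_forall fun b => (ex_norm 0 _).le)
  rw [probReal_univ, mul_one] at h1
  exact h1

/-- **The logarithm is not of the form `-n k + O(1)` on a set of positive measure.** -/
theorem null_real {t : ℝ} (ht : t ≠ 0) (n : ℤ) (M k0 : ℕ) :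
    (residueMeasure K J).real {b | ∀ k : ℕ, k0 ≤ k → |(Lam F b (sk t k)).re + n * k| ≤ M} = 0 := by
  set μ := residueMeasure K J with hμ
  set E : Set (Residues K J) := {b | ∀ k : ℕ, k0 ≤ k → |(Lam F b (sk t k)).re + n * k| ≤ M} with hE
  have key : ∀ L : ℕ, 0 < L → (L : ℝ) ^ 2 / 4 * μ.real E ≤ L := by
    intro L hL
    have hL0 : (0 : ℝ) < L := by exact_mod_cast hL
    set u : ℝ := 1 / (L * (M + 1)) with hu
    have hu0 : 0 < u := by positivity
    -- the square
    set θ : ℕ → Residues K J → ℝ := fun k b => u * ((Lam F b (sk t k)).re + n * k) with hθ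
    set f : ℕ → Residues K J → ℝ := fun k b =>
      ‖∑ j ∈ range L, Complex.exp (((j * θ k b : ℝ) : ℂ) * Complex.I)‖ ^ 2 with hf
    have hW : ∀ k, AEMeasurable (θ k) μ := by
      intro k
      rw [hθ]
      have h1 := Complex.measurable_re.comp_aemeasurable (Lam_meas F (sk_gt t k))
      exact (h1.add_const _).const_mul u
    have hcos : ∀ (k : ℕ) (j j' : ℕ), Integrable (fun b => Real.cos (j * θ k b - j' * θ k b)) μ := by
      intro k j j'
      refine Integrable.of_bound (C := 1) ?_ (Eventually.of_forall fun b => ?_)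
      · exact (Real.measurable_cos.comp_aemeasurable
          (((hW k).const_mul _).sub ((hW k).const_mul _))).aestronglyMeasurable
      · rw [Real.norm_eq_abs]
        exact Real.abs_cos_le_one _
    have hfeq : ∀ k b, f k b = ∑ j ∈ range L, ∑ j' ∈ range L, Real.cos (j * θ k b - j' * θ k b) := by
      intro k b
      rw [hf]
      simp only
      rw [norm_sq_sum]
    have hfint : ∀ k, Integrable (f k) μ := by
      intro k
      have h1 : f k = fun b => ∑ j ∈ range L, ∑ j' ∈ range L, Real.cos (j * θ k b - j' * θ k b) :=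
        funext fun b => hfeq k b
      rw [h1]
      exact integrable_finset_sum _ fun j _ => integrable_finset_sum _ fun j' _ => hcos k j j'
    have hup : ∀ k, ∫ b, f k b ∂μ ≤ ∑ j ∈ range L, ∑ j' ∈ range L,
        ‖chr F (((j : ℝ) - j') * u) (sk t k)‖ := by
      intro k
      simp only [hfeq]
      rw [integral_finset_sum _ fun j _ => integrable_finset_sum _ fun j' _ => hcos k j j']
      refine Finset.sum_le_sum fun j _ => ?_
      rw [integral_finset_sum _ fun j' _ => hcos k j j']
      refine Finset.sum_le_sum fun j' _ => ?_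
      set w : ℝ := ((j : ℝ) - j') * u with hw
      have h1 : ∀ b, Real.cos (j * θ k b - j' * θ k b) =
          (Complex.exp (((w * (n * k) : ℝ) : ℂ) * Complex.I) * ex w (Lam F b (sk t k))).re := by
        intro b
        unfold ex
        rw [← Complex.exp_add, ← add_mul, ← Complex.ofReal_add, Complex.exp_ofReal_mul_I_re]
        congr 1
        rw [hθ, hw]
        ring
      simp only [h1]
      have hint : Integrable (fun b => Complex.exp (((w * (n * k) : ℝ) : ℂ) * Complex.I) *
          ex w (Lam F b (sk t k))) μ := by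
        refine Integrable.of_bound (C := 1) ?_ (Eventually.of_forall fun b => ?_)
        · exact (((ex_cont w).measurable.comp_aemeasurable (Lam_meas F (sk_gt t k))).const_mul _
            ).aestronglyMeasurable
        · rw [norm_mul, Complex.norm_exp_ofReal_mul_I, ex_norm, one_mul]
      have h2 : ∫ b, (Complex.exp (((w * (n * k) : ℝ) : ℂ) * Complex.I) *
          ex w (Lam F b (sk t k))).re ∂μ =
          (∫ b, Complex.exp (((w * (n * k) : ℝ) : ℂ) * Complex.I) * ex w (Lam F b (sk t k)) ∂μ).re :=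
        integral_re hint
      rw [h2, integral_const_mul]
      refine (Complex.re_le_norm _).trans (le_of_eq ?_)
      rw [norm_mul, Complex.norm_exp_ofReal_mul_I, one_mul]
      rfl
    have hlow : ∀ k, k0 ≤ k → (L : ℝ) ^ 2 / 4 * μ.real E ≤ ∫ b, f k b ∂μ := by
      intro k hk
      refine le_trans ?_ (mul_meas_ge_le_integral_of_nonneg (Eventually.of_forall fun b => by
        rw [hf]; positivity) (hfint k) ((L : ℝ) ^ 2 / 4))
      refine mul_le_mul_of_nonneg_left ?_ (by positivity)
      refine measureReal_mono (fun b hb => ?_) (measure_ne_top _ _)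
      have hb' := hb k hk
      rw [Set.mem_setOf_eq, hf]
      simp only
      have h1 : (L : ℝ) / 2 ≤ ‖∑ j ∈ range L, Complex.exp (((j * θ k b : ℝ) : ℂ) * Complex.I)‖ := by
        refine le_trans ?_ (Complex.re_le_norm _)
        rw [Complex.re_sum]
        have h2 : ∀ j ∈ range L, (1 / 2 : ℝ) ≤
            (Complex.exp (((j * θ k b : ℝ) : ℂ) * Complex.I)).re := by
          intro j hj
          rw [mem_range] at hj
          rw [Complex.exp_ofReal_mul_I_re]
          have h3 : |(j : ℝ) * θ k b| ≤ 1 := by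
            rw [hθ]
            simp only
            rw [abs_mul, abs_mul, abs_of_nonneg (Nat.cast_nonneg j), abs_of_pos hu0]
            have hjL : (j : ℝ) ≤ L := by exact_mod_cast hj.le
            calc (j : ℝ) * (u * |(Lam F b (sk t k)).re + n * k|) ≤ L * (u * M) := by gcongr
              _ = M / (M + 1) := by
                rw [hu]
                field_simp
              _ ≤ 1 := by
                rw [div_le_one (by positivity)]
                linarith
          have h4 := Real.one_sub_sq_div_two_le_cos (x := (j : ℝ) * θ k b)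
          have h5 : ((j : ℝ) * θ k b) ^ 2 ≤ 1 := by
            rw [← sq_abs]
            exact pow_le_one₀ (abs_nonneg _) h3
          linarith
        refine le_trans ?_ (Finset.sum_le_sum h2)
        rw [Finset.sum_const, card_range, nsmul_eq_mul]
        linarith
      calc (L : ℝ) ^ 2 / 4 = (L / 2 : ℝ) ^ 2 := by ring
        _ ≤ _ := pow_le_pow_left₀ (by positivity) h1 2
    have hlim : Tendsto (fun k : ℕ => ∑ j ∈ range L, ∑ j' ∈ range L,
        (if j = j' then (1 : ℝ) else ‖chr F (((j : ℝ) - j') * u) (sk t k)‖)) atTop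
        (𝓝 (∑ j ∈ range L, ∑ j' ∈ range L, (if j = j' then (1 : ℝ) else 0))) := by
      refine tendsto_finsetSum _ fun j _ => tendsto_finsetSum _ fun j' _ => ?_
      by_cases hj : j = j'
      · simp only [hj, if_true]
        exact tendsto_const_nhds
      · simp only [hj, if_false]
        have h1 : ((j : ℝ) - j') * u ≠ 0 := by
          refine mul_ne_zero ?_ hu0.ne'
          rw [sub_ne_zero]
          exact_mod_cast hj
        have h2 := (chr_tendsto F ht h1).norm
        rwa [norm_zero] at h2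
    have hsum : ∑ j ∈ range L, ∑ j' ∈ range L, (if j = j' then (1 : ℝ) else 0) = L := by
      have h1 : ∀ j ∈ range L, ∑ j' ∈ range L, (if j = j' then (1 : ℝ) else 0) = 1 := by
        intro j hj
        rw [Finset.sum_ite_eq, if_pos hj]
      rw [Finset.sum_congr rfl h1, Finset.sum_const, card_range, nsmul_eq_mul, mul_one]
    rw [hsum] at hlim
    refine ge_of_tendsto hlim ?_
    filter_upwards [eventually_ge_atTop k0] with k hk
    refine (hlow k hk).trans ((hup k).trans ?_)
    refine Finset.sum_le_sum fun j _ => Finset.sum_le_sum fun j' _ => ?_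
    split_ifs with hj
    · rw [hj, sub_self, zero_mul]
      exact chr_zero F _
    · exact le_rfl
  have h1 : ∀ L : ℕ, μ.real E ≤ 4 / ((L : ℝ) + 1) := by
    intro L
    have h2 := key (L + 1) (by omega)
    push_cast at h2
    rw [le_div_iff₀ (by positivity)]
    have h3 : (0 : ℝ) < (L : ℝ) + 1 := by positivity
    have h4 : ((L : ℝ) + 1) * (((L : ℝ) + 1) / 4 * μ.real E) ≤ ((L : ℝ) + 1) * 1 := by nlinarith
    have h5 := le_of_mul_le_mul_left h4 h3
    linarith
  have h2 : Tendsto (fun L : ℕ => 4 / ((L : ℝ) + 1)) atTop (𝓝 0) := by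
    exact (tendsto_const_div_atTop_nhds_zero_nat 4).comp (tendsto_add_atTop_nat 1) |>.congr fun m => by
      simp
  exact le_antisymm (ge_of_tendsto' h2 h1) measureReal_nonneg

variable {F}

theorem rat_near (t : ℝ) {r : ℝ} (hr : 0 < r) : ∃ q : ℚ, q ≠ 0 ∧ |(q : ℝ) - t| < r := by
  rcases le_or_gt 0 t with h | h
  · obtain ⟨q, hq1, hq2⟩ := exists_rat_btwn (show t < t + r by linarith)
    refine ⟨q, ?_, ?_⟩
    · intro h0
      rw [h0, Rat.cast_zero] at hq1
      linarith
    · rw [abs_lt]
      constructor <;> linarith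
  · obtain ⟨q, hq1, hq2⟩ := exists_rat_btwn (show t < min 0 (t + r) from lt_min h (by linarith))
    refine ⟨q, ?_, ?_⟩
    · intro h0
      rw [h0, Rat.cast_zero] at hq2
      exact absurd (lt_of_lt_of_le hq2 (min_le_left _ _)) (lt_irrefl _)
    · rw [abs_lt]
      constructor
      · linarith
      · linarith [lt_of_lt_of_le hq2 (min_le_right 0 (t + r))]

/-- **The natural boundary.** -/
theorem boundary {c : (J → 𝓞 K) → WeierstrassCurve (𝓞 K)} (hM : Models c F) :
    ∀ᵐ b ∂(residueMeasure K J), ∀ t r : ℝ, 0 < r → ¬ ∃ g : ℂ → ℂ,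
      MeromorphicOn g (Metric.ball (1 + (t : ℂ) * Complex.I) r) ∧
      ∀ s ∈ Metric.ball (1 + (t : ℂ) * Complex.I) r, 1 < s.re → g s = randomLSeries c b s := by
  have h1 : ∀ᵐ b ∂(residueMeasure K J), ∀ (q : ℚ) (n : ℤ) (M k0 : ℕ), q ≠ 0 →
      ¬ ∀ k : ℕ, k0 ≤ k → |(Lam F b (sk q k)).re + n * k| ≤ M := by
    rw [ae_all_iff]; intro q
    rw [ae_all_iff]; intro n
    rw [ae_all_iff]; intro M
    rw [ae_all_iff]; intro k0
    by_cases hq : q = 0
    · exact Eventually.of_forall fun b h => absurd hq h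
    have h2 := null_real F (t := (q : ℝ)) (by exact_mod_cast hq) n M k0
    rw [measureReal_eq_zero_iff] at h2
    have h3 : ∀ᵐ b ∂(residueMeasure K J), ¬ ∀ k : ℕ, k0 ≤ k → |(Lam F b (sk q k)).re + n * k| ≤ M := by
      rw [ae_iff]
      refine measure_mono_null (fun b hb => ?_) h2
      exact not_not.mp hb
    filter_upwards [h3] with b hb _
    exact hb
  filter_upwards [h1, good_ae F] with b hb hgood t r hr ⟨g, hg, hgeq⟩
  obtain ⟨q, hq0, hq⟩ := rat_near t hr
  set z0 : ℂ := 1 + ((q : ℝ) : ℂ) * Complex.I with hz0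
  have hball : z0 ∈ Metric.ball (1 + (t : ℂ) * Complex.I) r := by
    rw [Metric.mem_ball, dist_eq_norm, hz0]
    have e : 1 + ((q : ℝ) : ℂ) * Complex.I - (1 + (t : ℂ) * Complex.I) = (((q : ℝ) - t : ℝ) : ℂ) * Complex.I := by
      push_cast
      ring
    rw [e, norm_mul, Complex.norm_I, mul_one, Complex.norm_real]
    exact hq
  have hmer := hg z0 hball
  -- the sequence
  have hsk := sk_tendsto (q : ℝ)
  have hsk' : Tendsto (sk (q : ℝ)) atTop (𝓝[≠] z0) := by
    rw [tendsto_nhdsWithin_iff]
    refine ⟨hsk, Eventually.of_forall fun k h0 => ?_⟩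
    have h2 := sk_gt (q : ℝ) k
    rw [h0, hz0] at h2
    simp at h2
  have hin : ∀ᶠ k : ℕ in atTop, sk (q : ℝ) k ∈ Metric.ball (1 + (t : ℂ) * Complex.I) r :=
    hsk.eventually (Metric.isOpen_ball.mem_nhds hball)
  have hval : ∀ᶠ k : ℕ in atTop, g (sk (q : ℝ) k) = Complex.exp (Lam F b (sk (q : ℝ) k)) := by
    filter_upwards [hin] with k hk
    rw [hgeq _ hk (sk_gt _ _), hgood.limit hM (sk_gt _ _)]
  by_cases htop : meromorphicOrderAt g z0 = ⊤
  · rw [meromorphicOrderAt_eq_top_iff] at htop
    obtain ⟨k, hk1, hk2⟩ := ((hsk'.eventually htop).and hval).exists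
    rw [hk1] at hk2
    exact Complex.exp_ne_zero _ hk2.symm
  · obtain ⟨m, hm⟩ := WithTop.ne_top_iff_exists.mp htop
    rw [eq_comm, meromorphicOrderAt_eq_int_iff hmer] at hm
    obtain ⟨h, hh, hh0, heq⟩ := hm
    have hlog : Tendsto (fun k : ℕ => Real.log ‖h (sk (q : ℝ) k)‖) atTop (𝓝 (Real.log ‖h z0‖)) := by
      refine Tendsto.log ?_ (norm_ne_zero_iff.mpr hh0)
      exact (hh.continuousAt.tendsto.comp hsk).norm
    obtain ⟨M, hMn⟩ := exists_nat_gt |Real.log ‖h z0‖|
    have hev : ∀ᶠ k : ℕ in atTop, |(Lam F b (sk (q : ℝ) k)).re + m * k| ≤ M := by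
      filter_upwards [hsk'.eventually heq, hval, hlog.abs.eventually (gt_mem_nhds hMn),
        (hh.continuousAt.tendsto.comp hsk).eventually_ne hh0] with k hk1 hk2 hk3 hk4
      rw [hk1, smul_eq_mul] at hk2
      have h2 : sk (q : ℝ) k - z0 = ((Real.exp (-(k : ℝ)) : ℝ) : ℂ) := by
        unfold sk
        rw [hz0]
        ring
      have h3 : Real.log ‖(sk (q : ℝ) k - z0) ^ m * h (sk (q : ℝ) k)‖ =
          Real.log ‖Complex.exp (Lam F b (sk (q : ℝ) k))‖ := by rw [hk2]
      have hk4' : h (sk (q : ℝ) k) ≠ 0 := hk4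
      rw [Complex.norm_exp, Real.log_exp, norm_mul, norm_zpow, h2, Complex.norm_real, Real.norm_eq_abs,
        abs_of_pos (Real.exp_pos _), Real.log_mul (zpow_ne_zero _ (Real.exp_pos _).ne')
        (norm_ne_zero_iff.mpr hk4'), Real.log_zpow, Real.log_exp] at h3
      rw [← h3]
      have e : (m : ℝ) * -(k : ℝ) + Real.log ‖h (sk (q : ℝ) k)‖ + m * k = Real.log ‖h (sk (q : ℝ) k)‖ := by
        ring
      rw [e]
      exact hk3.le
    obtain ⟨k0, hk0⟩ := eventually_atTop.mp hev
    exact hb q m M k0 hq0 hk0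

end

end Pool.Agent.Helper78.RC
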