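import Pool.Agent.Helper78.RC.Model

/-!
# Convergence of the random Euler product
-/

set_option autoImplicit false
set_option linter.all false

namespace Pool.Agent.Helper78.RC

open Finset NumberField IsDedekindDomain Module Filter Topology MeasureTheory
open Pool.Agent.N430.BP (Tx mem_Tx mkP)
open Pool.Agent.H921R2.TatePole (below deg nm nm_eq two_le_nm nm_summable below_le_nm)
open Pool.Agent.Helper89.MM (fintypeV redJ Fam card_v TT norm_TT pt red_surj mean_tendsto)
open Pool.Agent.Helper89.CP (rd dm LF.ibox mem_ibox card_ibox dm_eq coe_Tx)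
open Pool.Agent.Helper89.EllipticFamilies (factor LSeries param mean primesUpTo Models)
open Pool.Agent.Helper78.EllipticLimit

attribute [local instance] fintypeV

/-- continuity of the exponential -/
theorem exp_sub {a b : ℂ} {D : ℝ} (h : ‖a - b‖ ≤ D) :
    ‖Complex.exp a - Complex.exp b‖ ≤ D * Real.exp (‖b‖ + D) := by
  have h1 := Complex.norm_exp_sub_sum_le_norm_mul_exp (a - b) 1
  simp only [Finset.range_one, Finset.sum_singleton, pow_zero, Nat.factorial_zero, Nat.cast_one, div_one,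
    pow_one] at h1
  have h2 : Complex.exp a - Complex.exp b = Complex.exp b * (Complex.exp (a - b) - 1) := by
    rw [mul_sub, ← Complex.exp_add, mul_one]
    congr 2
    ring
  have h3 : ‖Complex.exp b‖ ≤ Real.exp ‖b‖ := by
    rw [Complex.norm_exp]
    exact Real.exp_le_exp.mpr (Complex.re_le_norm b)
  rw [h2, norm_mul, Real.exp_add]
  have hD : 0 ≤ D := (norm_nonneg _).trans h
  calc ‖Complex.exp b‖ * ‖Complex.exp (a - b) - 1‖ ≤ Real.exp ‖b‖ * (‖a - b‖ * Real.exp ‖a - b‖) := by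
        gcongr
    _ ≤ Real.exp ‖b‖ * (D * Real.exp D) := by gcongr
    _ = _ := by ring

section
variable {K : Type} [Field K] [NumberField K] {J : Type} [Fintype J] [DecidableEq J] (F : Fam K J)

theorem X_one (b : Res K J) (s : ℂ) : X F b 1 s = 0 := by
  unfold X
  refine Finset.sum_eq_zero fun v hv => ?_
  rw [mem_Tx] at hv
  have := two_le_nm v
  omega

/-- bounded sums of centred traces -/
def Good (b : Res K J) : Prop := ∀ n : ℕ, ∃ A : ℝ, 1 ≤ A ∧ ∀ t : ℕ, |SS F (1 / (n + 1)) b t| ≤ A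

/-- the limit of the logarithms -/
noncomputable def Lam (b : Res K J) (s : ℂ) : ℂ := limUnder atTop fun x : ℕ => X F b x s

variable {F}

theorem Good.X_le {b : Res K J} (hb : Good F b) {σ : ℝ} (hσ : 1 < σ) : ∃ (δ C : ℝ), 0 < δ ∧ 0 < C ∧
    ∀ x y : ℕ, 1 ≤ y → y ≤ x → ∀ s : ℂ, σ ≤ s.re →
      ‖X F b x s - X F b y s‖ ≤ C * (1 + ‖s‖) * (y : ℝ) ^ (-δ) := by
  obtain ⟨n, hn⟩ := exists_nat_one_div_lt (show (0 : ℝ) < σ - 1 by linarith)
  obtain ⟨A, hA, h⟩ := hb n
  have hn0 : (0 : ℝ) < 1 / (n + 1) := by positivity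
  set δ : ℝ := σ - 1 - 1 / (n + 1) with hδ
  obtain ⟨C, hC, hX⟩ := Pool.Agent.Helper78.RC.X_le F (σ := σ) (δ := δ) (by linarith) (by linarith)
  have he : σ - 1 - δ = 1 / (n + 1) := by rw [hδ]; ring
  rw [he] at hX
  exact ⟨δ, C * A, by linarith, by positivity, fun x y hy hyx s hs =>
    hX b A x hA (fun t _ => h t) y hy hyx s hs⟩

theorem tendsto_rpow_neg_nat {δ : ℝ} (hδ : 0 < δ) : Tendsto (fun y : ℕ => (y : ℝ) ^ (-δ)) atTop (𝓝 0) :=
  (tendsto_rpow_neg_atTop hδ).comp tendsto_natCast_atTop_atTop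

theorem Good.tendsto {b : Res K J} (hb : Good F b) {s : ℂ} (hs : 1 < s.re) :
    Tendsto (fun x : ℕ => X F b x s) atTop (𝓝 (Lam F b s)) := by
  obtain ⟨δ, C, hδ, hC, h⟩ := hb.X_le hs
  have hc : CauchySeq fun x : ℕ => X F b x s := by
    rw [Metric.cauchySeq_iff']
    intro ε hε
    have h1 := (tendsto_rpow_neg_nat hδ).const_mul (C * (1 + ‖s‖))
    rw [mul_zero] at h1
    obtain ⟨y, hy1, hy2⟩ := ((h1.eventually (gt_mem_nhds hε)).and (eventually_ge_atTop 1)).exists
    refine ⟨y, fun x hx => ?_⟩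
    rw [dist_eq_norm]
    exact lt_of_le_of_lt (h x y hy2 hx s le_rfl) hy1
  exact hc.tendsto_limUnder

theorem Good.Lam_le {b : Res K J} (hb : Good F b) {σ : ℝ} (hσ : 1 < σ) : ∃ (δ C : ℝ), 0 < δ ∧ 0 < C ∧
    ∀ y : ℕ, 1 ≤ y → ∀ s : ℂ, σ ≤ s.re →
      ‖Lam F b s - X F b y s‖ ≤ C * (1 + ‖s‖) * (y : ℝ) ^ (-δ) := by
  obtain ⟨δ, C, hδ, hC, h⟩ := hb.X_le hσ
  refine ⟨δ, C, hδ, hC, fun y hy s hs => ?_⟩
  have h1 := ((hb.tendsto (s := s) (by linarith)).sub_const (X F b y s)).norm
  refine le_of_tendsto h1 ?_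
  filter_upwards [eventually_ge_atTop y] with x hx
  exact h x y hy hx s hs

/-- uniform convergence of the products -/
theorem Good.unif {b : Res K J} (hb : Good F b) {σ R : ℝ} (hσ : 1 < σ) {ε : ℝ} (hε : 0 < ε) :
    ∀ᶠ y : ℕ in atTop, ∀ s : ℂ, σ ≤ s.re → ‖s‖ ≤ R →
      ‖Complex.exp (Lam F b s) - PP F b y s‖ ≤ ε := by
  obtain ⟨δ, C, hδ, hC, h⟩ := hb.Lam_le hσ
  set R' := max R 0 with hR'
  have hR0 : 0 ≤ R' := le_max_right _ _
  set M := C * (1 + R') with hM
  have hM0 : 0 < M := by positivity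
  have h1 := (tendsto_rpow_neg_nat hδ).const_mul (M * Real.exp (2 * M + M))
  rw [mul_zero] at h1
  filter_upwards [h1.eventually (gt_mem_nhds hε), eventually_ge_atTop 1] with y hy hy1 s hs hsR
  have hsR' : ‖s‖ ≤ R' := hsR.trans (le_max_left _ _)
  have hy0 : (1 : ℝ) ≤ y := by exact_mod_cast hy1
  have hyδ : (y : ℝ) ^ (-δ) ≤ 1 := Real.rpow_le_one_of_one_le_of_nonpos hy0 (by linarith)
  have hyδ0 : 0 ≤ (y : ℝ) ^ (-δ) := by positivity
  have h2 : ‖Lam F b s - X F b y s‖ ≤ M * (y : ℝ) ^ (-δ) := by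
    refine (h y hy1 s hs).trans ?_
    rw [hM]
    gcongr
  have h3 : ‖Lam F b s‖ ≤ M := by
    have h4 := h 1 le_rfl s hs
    rw [X_one, sub_zero, Nat.cast_one, Real.one_rpow, mul_one] at h4
    refine h4.trans ?_
    rw [hM]
    gcongr
  have h5 : ‖X F b y s‖ ≤ 2 * M := by
    have h6 : X F b y s = Lam F b s - (Lam F b s - X F b y s) := by ring
    rw [h6]
    refine (norm_sub_le _ _).trans ?_
    nlinarith
  rw [PP_eq F b y (by linarith)]
  refine (exp_sub h2).trans (le_trans ?_ hy.le)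
  calc M * (y : ℝ) ^ (-δ) * Real.exp (‖X F b y s‖ + M * (y : ℝ) ^ (-δ))
      ≤ M * (y : ℝ) ^ (-δ) * Real.exp (2 * M + M) := by
        gcongr
        nlinarith
    _ = _ := by ring

theorem Good.limit {c : (J → 𝓞 K) → WeierstrassCurve (𝓞 K)} (hM : Models c F) {b : Res K J}
    (hb : Good F b) {s : ℂ} (hs : 1 < s.re) : randomLSeries c b s = Complex.exp (Lam F b s) := by
  unfold randomLSeries
  apply Tendsto.limUnder_eq
  have h1 := (Complex.continuous_exp.tendsto _).comp (hb.tendsto hs)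
  refine h1.congr fun x => ?_
  rw [Function.comp_apply, random_eq hM, PP_eq F b x (by linarith)]

theorem Good.locUnif {c : (J → 𝓞 K) → WeierstrassCurve (𝓞 K)} (hM : Models c F) {b : Res K J}
    (hb : Good F b) :
    TendstoLocallyUniformlyOn (fun (x : ℕ) s => randomProduct c b x s) (randomLSeries c b) atTop
      {s : ℂ | 1 < s.re} := by
  rw [Metric.tendstoLocallyUniformlyOn_iff]
  intro ε hε s0 hs0
  have hs0' : 1 < s0.re := hs0
  set σ := (1 + s0.re) / 2 with hσ
  have h1 := hb.unif (σ := σ) (R := ‖s0‖ + 1) (by rw [hσ]; linarith) (half_pos hε)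
  refine ⟨{s : ℂ | σ ≤ s.re} ∩ Metric.ball s0 1, ?_, ?_⟩
  · apply mem_nhdsWithin_of_mem_nhds
    refine Filter.inter_mem ?_ (Metric.ball_mem_nhds _ one_pos)
    have h2 : {s : ℂ | σ < s.re} ∈ 𝓝 s0 :=
      (isOpen_lt continuous_const Complex.continuous_re).mem_nhds (by
        change σ < s0.re
        rw [hσ]; linarith)
    refine Filter.mem_of_superset h2 fun s hs => ?_
    have hs' : σ < s.re := hs
    exact hs'.le
  · filter_upwards [h1] with y hy s hs
    have hs1 : σ ≤ s.re := hs.1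
    have hs2 := hs.2
    rw [Metric.mem_ball, dist_eq_norm] at hs2
    have h3 : ‖s‖ ≤ ‖s0‖ + 1 := by
      have : s = s0 + (s - s0) := by ring
      rw [this]
      refine (norm_add_le _ _).trans ?_
      linarith
    have h4 : 1 < s.re := by rw [hσ] at hs1; linarith
    rw [dist_eq_norm, hb.limit hM h4, random_eq hM]
    have := hy s hs1 h3
    linarith

theorem PP_diff (b : Res K J) (x : ℕ) : DifferentiableOn ℂ (fun s => PP F b x s) {s : ℂ | 1 < s.re} := by
  intro s hs
  have hs' : 1 < s.re := hs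
  unfold PP
  refine DifferentiableAt.differentiableWithinAt ?_
  apply DifferentiableAt.fun_finsetProd
  intro v _
  exact ((differentiableAt_const _).sub (F.diff_zz v (b v) s)).inv (F.one_sub_zz_ne v (b v) (by linarith))

theorem Good.diff {c : (J → 𝓞 K) → WeierstrassCurve (𝓞 K)} (hM : Models c F) {b : Res K J}
    (hb : Good F b) : DifferentiableOn ℂ (randomLSeries c b) {s : ℂ | 1 < s.re} := by
  refine (hb.locUnif hM).differentiableOn (Eventually.of_forall fun x => ?_)
    (isOpen_lt continuous_const Complex.continuous_re)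
  have h1 : (fun s => randomProduct c b x s) = fun s => PP F b x s := by
    funext s
    exact random_eq hM b x s
  rw [h1]
  exact PP_diff b x

end

section
variable {K : Type} [Field K] [NumberField K] {J : Type} [Fintype J] [DecidableEq J] (F : Fam K J)

theorem UU_dep {b b' : Res K J} {p : ℕ} (h : ∀ v : HeightOneSpectrum (𝓞 K), nm v ≤ p → b v = b' v) :
    UU F b p = UU F b' p := by
  unfold UU
  split_ifs with hp
  · refine Finset.sum_congr rfl fun v _ => ?_
    split_ifs with hd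
    · have hv : (below v.1 : ℕ) = p := by rw [v.2]; rfl
      have hn : nm v.1 = p := by rw [(nm_eq v.1).1, hd, pow_one, hv]
      rw [h v.1 hn.le]
    · rfl
  · rfl

theorem SS_dep {η : ℝ} {b b' : Res K J} {T : ℕ} (h : ∀ v ∈ Tx K T, b v = b' v) {t : ℕ} (ht : t ≤ T) :
    SS F η b t = SS F η b' t := by
  unfold SS
  refine Finset.sum_congr rfl fun k hk => ?_
  rw [mem_Ioc] at hk
  rw [UU_dep F fun v hv => h v (by rw [mem_Tx]; omega)]

theorem box_eq (H : ℕ) : Pool.Agent.Helper89.MM.box (J × Fin (finrank ℚ K)) H =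
    LF.ibox (fun _ => -(H : ℤ) - 1) (2 * H + 1) := by
  ext z
  rw [mem_ibox]
  unfold Pool.Agent.Helper89.MM.box
  rw [Fintype.mem_piFinset]
  refine forall_congr' fun i => ?_
  rw [mem_Icc]
  push_cast
  constructor
  · rintro ⟨h1, h2⟩
    constructor <;> linarith
  · rintro ⟨h1, h2⟩
    constructor <;> linarith

/-- the event that the sums up to `T` are not bounded by `A` -/
def Ev (η A : ℝ) (T : ℕ) : Set (Residues K J) := {b | ∃ t ≤ T, A < |SS F η b t|}

open Classical in
theorem Ev_dep (η A : ℝ) (T : ℕ) : Dep (Tx K T) (fun b : Residues K J => b ∈ Ev F η A T) := by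
  intro b b' h
  unfold Ev
  simp only [Set.mem_setOf_eq, eq_iff_iff]
  refine exists_congr fun t => and_congr_right fun ht => ?_
  rw [SS_dep F h ht]

theorem Ev_meas (η A : ℝ) (T : ℕ) : MeasurableSet (Ev F η A T) := by
  have h1 := (Ev_dep F η A T).measurable
  exact measurableSet_setOfPred.mpr h1

theorem Ev_le {η : ℝ} (hη : 0 < η) : ∃ C : ℝ, 0 ≤ C ∧ ∀ (A : ℝ) (T : ℕ), 1 ≤ A →
    (residueMeasure K J).real (Ev F η A T) ≤ C / A := by
  classical
  obtain ⟨k, C, hk, hC, h⟩ := exc F (B := 1) hη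
  refine ⟨C, hC, fun A T hA => ?_⟩
  set G : Residues K J → ℂ := fun b => if b ∈ Ev F η A T then 1 else 0 with hG
  have hdep : Dep (Tx K T) G := by
    intro b b' hb
    have := Ev_dep F η A T b b' hb
    simp only [eq_iff_iff] at this
    rw [hG]
    simp only [this]
  set ω := Module.finBasisOfFinrankEq ℤ (𝓞 K) (RingOfIntegers.rank K) with hω
  have h1 := box_dep ω hdep
  have h2 : ∫ b, G b ∂(residueMeasure K J) = (((residueMeasure K J).real (Ev F η A T) : ℝ) : ℂ) := by
    have h3 : G = (Ev F η A T).indicator (fun _ => (1 : ℂ)) := by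
      funext b
      rw [hG, Set.indicator_apply]
    rw [h3, integral_indicator (Ev_meas F η A T), setIntegral_const, Complex.real_smul, mul_one]
  rw [h2] at h1
  have h3 := h1.norm
  rw [Complex.norm_real, Real.norm_eq_abs, abs_of_nonneg measureReal_nonneg] at h3
  refine le_of_tendsto h3 ?_
  filter_upwards [eventually_ge_atTop (T ^ k)] with H hH
  unfold Pool.Agent.Helper89.MM.mean
  rw [norm_div, Pool.Agent.Helper89.MM.den_norm, Pool.Agent.Helper89.MM.card_box,
    div_le_iff₀ (by positivity)]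
  have h4 := h ω (fun _ => -(H : ℤ) - 1) (2 * H + 1) (by omega) A hA
  have h5 : ‖∑ z ∈ Pool.Agent.Helper89.MM.box (J × Fin (finrank ℚ K)) H, G (bz ω z)‖ ≤
      (((LF.ibox (fun _ => -(H : ℤ) - 1) (2 * H + 1)).filter fun z =>
        ∃ t : ℕ, t ^ k ≤ 2 * H + 1 ∧ A < |SS F η (bz ω z) t|).card : ℝ) := by
    rw [box_eq]
    rw [Finset.card_filter]
    push_cast
    refine (norm_sum_le _ _).trans (Finset.sum_le_sum fun z _ => ?_)
    rw [hG]
    simp only
    by_cases hz : bz ω z ∈ Ev F η A T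
    · rw [if_pos hz, norm_one, if_pos]
      obtain ⟨t, ht, hta⟩ := hz
      exact ⟨t, (Nat.pow_le_pow_left ht k).trans (by omega), hta⟩
    · rw [if_neg hz, norm_zero]
      split_ifs <;> norm_num
  refine h5.trans (h4.trans (le_of_eq ?_))
  rw [Real.rpow_neg_one]
  push_cast
  unfold dm
  ring

theorem good_ae : ∀ᵐ b ∂(residueMeasure K J), Good F b := by
  unfold Good
  rw [ae_all_iff]
  intro n
  have hn0 : (0 : ℝ) < 1 / (n + 1) := by positivity
  obtain ⟨C, hC, h⟩ := Ev_le F hn0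
  set μ := residueMeasure K J with hμ
  rw [ae_iff]
  set B : Set (Residues K J) := {b | ¬ ∃ A : ℝ, 1 ≤ A ∧ ∀ t : ℕ, |SS F (1 / (n + 1)) b t| ≤ A} with hB
  have h1 : ∀ A : ℝ, 1 ≤ A → μ B ≤ ENNReal.ofReal (C / A) := by
    intro A hA
    have h2 : B ⊆ ⋃ T : ℕ, Ev F (1 / (n + 1)) A T := by
      intro b hb
      rw [hB, Set.mem_setOf_eq] at hb
      push Not at hb
      obtain ⟨t, ht⟩ := hb A hA
      rw [Set.mem_iUnion]
      exact ⟨t, t, le_rfl, ht⟩
    have h3 : Monotone fun T : ℕ => Ev F (1 / ((n : ℝ) + 1)) A T := by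
      intro T T' hT b hb
      obtain ⟨t, ht, hta⟩ := hb
      exact ⟨t, ht.trans hT, hta⟩
    refine (measure_mono h2).trans ?_
    rw [h3.measure_iUnion]
    refine iSup_le fun T => ?_
    have h4 := h A T hA
    rw [Measure.real] at h4
    exact (ENNReal.le_ofReal_iff_toReal_le (measure_ne_top _ _) (by positivity)).mpr h4
  have h2 : Tendsto (fun m : ℕ => ENNReal.ofReal (C / (m + 1 : ℝ))) atTop (𝓝 0) := by
    rw [← ENNReal.ofReal_zero]
    refine (ENNReal.continuous_ofReal.tendsto 0).comp ?_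
    exact tendsto_const_div_atTop_nhds_zero_nat C |>.comp (tendsto_add_atTop_nat 1) |>.congr fun m => by
      simp
  have h3 : μ B ≤ 0 := ge_of_tendsto' h2 fun m => h1 (m + 1) (by linarith [Nat.cast_nonneg (α := ℝ) m])
  exact le_antisymm h3 zero_le

end

end Pool.Agent.Helper78.RC
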