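import Pool.Agent.Helper89.CP.Defs

/-!
# The random Euler product attached to a family of Weierstrass equations

The definitions used in the statement about the limit of the L-series in a family. The families, `trace`,
`factor`, `LSeries`, `param` and `mean` are defined in `Pool/Agent/Helper89/MM/Defs.lean`, and `primesUpTo`
in `Pool/Agent/Helper89/CP/Defs.lean`.
-/

set_option autoImplicit false

namespace Pool.Agent.Helper78.EllipticLimit

open NumberField IsDedekindDomain MeasureTheory Filter Topology
open Pool.Agent.Helper89.EllipticFamilies (factor param primesUpTo)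

variable {K : Type} [Field K] [NumberField K]

/-- The Euler product of the L-series of `W` over the primes of norm at most `x`. -/
noncomputable def partialProduct (W : WeierstrassCurve (𝓞 K)) (x : ℕ) (s : ℂ) : ℂ :=
  ∏ᶠ v ∈ primesUpTo K x, (factor W v s)⁻¹

/-- The members `z` of the box `U < z ≤ U + N` of the family `c` (the parameters of the member `z` have the
coordinates `z` with respect to the integral basis `ω`) for which the following fails: for ALL `1 ≤ y ≤ x`
with `x ^ k ≤ N` and ALL `s` with `Re s ≥ σ`, the product of the Euler factors over `y < N v ≤ x` is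
`exp w` with `|w| ≤ A (1 + |s|) y ^ (-δ)`. -/
def outliers {J I : Type} [Fintype I] (c : (J → 𝓞 K) → WeierstrassCurve (𝓞 K))
    (ω : Module.Basis I ℤ (𝓞 K)) (U : J × I → ℤ) (N k : ℕ) (σ δ A : ℝ) : Set (J × I → ℤ) :=
  {z | (∀ i, U i < z i ∧ z i ≤ U i + N) ∧
    ¬ ∀ x y : ℕ, 1 ≤ y → y ≤ x → x ^ k ≤ N → ∀ s : ℂ, σ ≤ s.re →
      ∃ w : ℂ, ‖w‖ ≤ A * (1 + ‖s‖) * (y : ℝ) ^ (-δ) ∧
        partialProduct (c (param ω z)) x s = partialProduct (c (param ω z)) y s * Complex.exp w}

/-- A choice of residues of the parameters modulo all prime ideals. -/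
abbrev Residues (K : Type) [Field K] [NumberField K] (J : Type) : Type :=
  ∀ v : HeightOneSpectrum (𝓞 K), J → 𝓞 K ⧸ v.asIdeal

/-- All sets of residues modulo one prime ideal are measurable. -/
instance measurableSpace (J : Type) (v : HeightOneSpectrum (𝓞 K)) :
    MeasurableSpace (J → 𝓞 K ⧸ v.asIdeal) := ⊤

/-- The probability measure for which the residues modulo the prime ideals are independent and uniformly
distributed. -/
noncomputable def residueMeasure (K : Type) [Field K] [NumberField K] (J : Type) :
    Measure (Residues K J) :=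
  Measure.infinitePi fun v : HeightOneSpectrum (𝓞 K) =>
    ProbabilityTheory.uniformOn (Set.univ : Set (J → 𝓞 K ⧸ v.asIdeal))

/-- The random Euler product over the primes of norm at most `x`: the Euler factor at `v` is that of a
member of the family with the given residues modulo `v` (it only depends on them). -/
noncomputable def randomProduct {J : Type} (c : (J → 𝓞 K) → WeierstrassCurve (𝓞 K)) (b : Residues K J)
    (x : ℕ) (s : ℂ) : ℂ :=
  ∏ᶠ v ∈ primesUpTo K x, (factor (c fun j => Quotient.out (b v j)) v s)⁻¹

/-- The random Euler product: the limit of the products over the primes of norm at most `x`. -/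
noncomputable def randomLSeries {J : Type} (c : (J → 𝓞 K) → WeierstrassCurve (𝓞 K)) (b : Residues K J)
    (s : ℂ) : ℂ :=
  limUnder atTop fun x : ℕ => randomProduct c b x s

/-- `Φ` is bounded, and uniformly continuous for the uniform distance on the set `R`. -/
def IsTest (R : Set ℂ) (Φ : (ℂ → ℂ) → ℂ) : Prop :=
  (∃ M : ℝ, ∀ f, ‖Φ f‖ ≤ M) ∧
    ∀ ε : ℝ, 0 < ε → ∃ δ : ℝ, 0 < δ ∧
      ∀ f g : ℂ → ℂ, (∀ s ∈ R, ‖f s - g s‖ ≤ δ) → ‖Φ f - Φ g‖ ≤ ε

end Pool.Agent.Helper78.EllipticLimit
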