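import Pool.Agent.Helper78.RC.Conv

/-!
# The limit theorem
-/

set_option autoImplicit false
set_option linter.all false

namespace Pool.Agent.Helper78.RC

open Finset NumberField IsDedekindDomain Module Filter Topology MeasureTheory
open Pool.Agent.N430.BP (Tx mem_Tx mkP)
open Pool.Agent.H921R2.TatePole (below deg nm nm_eq two_le_nm nm_summable below_le_nm)
open Pool.Agent.Helper89.MM (fintypeV redJ Fam card_v TT norm_TT pt red_surj mean_tendsto)
open Pool.Agent.Helper89.CP (rd dm LF.ibox mem_ibox card_ibox dm_eq coe_Tx)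
open Pool.Agent.Helper89.EllipticFamilies (factor LSeries param mean primesUpTo Models)
open Pool.Agent.Helper78.EllipticLimit

attribute [local instance] fintypeV

theorem compact_bounds {R : Set ℂ} (hR : IsCompact R) {a : ℝ} (h : ∀ s ∈ R, a < s.re) :
    ∃ σ M : ℝ, a < σ ∧ 0 ≤ M ∧ ∀ s ∈ R, σ ≤ s.re ∧ ‖s‖ ≤ M := by
  rcases R.eq_empty_or_nonempty with rfl | hne
  · exact ⟨a + 1, 0, by linarith, le_rfl, fun s hs => absurd hs (Set.notMem_empty s)⟩
  obtain ⟨s0, hs0, hmin⟩ := hR.exists_isMinOn hne Complex.continuous_re.continuousOn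
  obtain ⟨M, hM⟩ := hR.isBounded.exists_norm_le
  exact ⟨s0.re, max M 0, h s0 hs0, le_max_right _ _, fun s hs => ⟨hmin hs, (hM s hs).trans (le_max_left _ _)⟩⟩

theorem test_bound {R : Set ℂ} {Φ : (ℂ → ℂ) → ℂ} (h : IsTest R Φ) : ∃ M : ℝ, 0 ≤ M ∧ ∀ f, ‖Φ f‖ ≤ M := by
  obtain ⟨M, hM⟩ := h.1
  exact ⟨M, (norm_nonneg _).trans (hM fun _ => 0), hM⟩

section
variable {K : Type} [Field K] [NumberField K] {J : Type} [Fintype J] [DecidableEq J] {F : Fam K J}
  {c : (J → 𝓞 K) → WeierstrassCurve (𝓞 K)}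

theorem PP_dep (F : Fam K J) (Φ : (ℂ → ℂ) → ℂ) (y : ℕ) :
    Dep (Tx K y) (fun b : Residues K J => Φ fun s => PP F b y s) := by
  intro b b' h
  simp only
  congr 1
  funext s
  unfold PP
  refine Finset.prod_congr rfl fun v hv => ?_
  rw [h v hv]

/-- convergence of the expectations -/
theorem test_tendsto (hM : Models c F) {R : Set ℂ} (hR : IsCompact R) (hR1 : ∀ s ∈ R, 1 < s.re)
    {Φ : (ℂ → ℂ) → ℂ} (hΦ : IsTest R Φ) :
    Tendsto (fun y : ℕ => ∫ b, Φ (fun s => PP F b y s) ∂(residueMeasure K J)) atTop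
      (𝓝 (∫ b, Φ (randomLSeries c b) ∂(residueMeasure K J))) := by
  obtain ⟨B, hB0, hB⟩ := test_bound hΦ
  obtain ⟨σ, M, hσ, hM0, hRb⟩ := compact_bounds hR hR1
  refine tendsto_integral_of_dominated_convergence (fun _ => B)
    (fun y => (PP_dep F Φ y).measurable.aestronglyMeasurable) (integrable_const B)
    (fun y => Eventually.of_forall fun b => hB _) ?_
  filter_upwards [good_ae F] with b hb
  rw [Metric.tendsto_nhds]
  intro ε hε
  obtain ⟨δ, hδ, hΦδ⟩ := hΦ.2 (ε / 2) (half_pos hε)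
  filter_upwards [hb.unif (σ := σ) (R := M) hσ hδ] with y hy
  rw [dist_eq_norm]
  refine lt_of_le_of_lt (hΦδ _ _ fun s hs => ?_) (half_lt_self hε)
  obtain ⟨h1, h2⟩ := hRb s hs
  rw [norm_sub_rev, hb.limit hM (hR1 s hs)]
  exact hy s h1 h2

/-- the expectations make sense -/
theorem test_int (hM : Models c F) {R : Set ℂ} (hR : IsCompact R) (hR1 : ∀ s ∈ R, 1 < s.re)
    {Φ : (ℂ → ℂ) → ℂ} (hΦ : IsTest R Φ) :
    Integrable (fun b : Residues K J => Φ (randomLSeries c b)) (residueMeasure K J) := by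
  obtain ⟨B, hB0, hB⟩ := test_bound hΦ
  obtain ⟨σ, M, hσ, hM0, hRb⟩ := compact_bounds hR hR1
  refine Integrable.of_bound (C := B) ?_ (Eventually.of_forall fun b => hB _)
  refine aestronglyMeasurable_of_tendsto_ae atTop (f := fun (y : ℕ) b => Φ (fun s => PP F b y s))
    (fun y => (PP_dep F Φ y).measurable.aestronglyMeasurable) ?_
  filter_upwards [good_ae F] with b hb
  rw [Metric.tendsto_nhds]
  intro ε hε
  obtain ⟨δ, hδ, hΦδ⟩ := hΦ.2 (ε / 2) (half_pos hε)
  filter_upwards [hb.unif (σ := σ) (R := M) hσ hδ] with y hy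
  rw [dist_eq_norm]
  refine lt_of_le_of_lt (hΦδ _ _ fun s hs => ?_) (half_lt_self hε)
  obtain ⟨h1, h2⟩ := hRb s hs
  rw [norm_sub_rev, hb.limit hM (hR1 s hs)]
  exact hy s h1 h2

open Classical in
/-- **The scheme of the proof.** -/
theorem scheme (hM : Models c F) {R : Set ℂ} (hR : IsCompact R) (hR1 : ∀ s ∈ R, 1 < s.re)
    {Φ : (ℂ → ℂ) → ℂ} (hΦ : IsTest R Φ) (ω : Basis (Fin (finrank ℚ K)) ℤ (𝓞 K))
    (Ψ : ℕ → (J × Fin (finrank ℚ K) → ℤ) → ℂ → ℂ)
    (h : ∀ ε : ℝ, 0 < ε → ∀ᶠ y : ℕ in atTop, ∀ᶠ H : ℕ in atTop,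
      (((Pool.Agent.Helper89.MM.box (J × Fin (finrank ℚ K)) H).filter fun z =>
        ¬ ∀ s ∈ R, ‖Ψ H z s - PP F (bz ω z) y s‖ ≤ ε).card : ℝ) ≤ ε * (2 * H + 1) ^ dm K J) :
    Tendsto (fun H : ℕ => Pool.Agent.Helper89.MM.mean (fun z => Φ (Ψ H z)) H) atTop
      (𝓝 (∫ b, Φ (randomLSeries c b) ∂(residueMeasure K J))) := by
  obtain ⟨B, hB0, hB⟩ := test_bound hΦ
  rw [Metric.tendsto_nhds]
  intro ε hε
  obtain ⟨δ, hδ, hΦδ⟩ := hΦ.2 (ε / 5) (by positivity)
  set ε' := min δ (ε / (10 * (B + 1))) with hε'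
  have hε'0 : 0 < ε' := lt_min hδ (by positivity)
  have hε'B : 2 * B * ε' ≤ ε / 5 := by
    have h1 : ε' ≤ ε / (10 * (B + 1)) := min_le_right _ _
    rw [le_div_iff₀ (by positivity)] at h1
    nlinarith
  obtain ⟨y, hy1, hy2⟩ := ((h ε' hε'0).and
    ((Metric.tendsto_nhds.mp (test_tendsto hM hR hR1 hΦ)) (ε / 5) (by positivity))).exists
  filter_upwards [hy1, (Metric.tendsto_nhds.mp (box_dep ω (PP_dep F Φ y))) (ε / 5) (by positivity)]
    with H hH1 hH2
  rw [dist_eq_norm] at hy2 hH2 ⊢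
  set G : (J × Fin (finrank ℚ K) → ℤ) → ℂ := fun z => Φ fun s => PP F (bz ω z) y s with hG
  have hc : (0 : ℝ) < (2 * (H : ℝ) + 1) ^ dm K J := by positivity
  have key : ‖Pool.Agent.Helper89.MM.mean (fun z => Φ (Ψ H z)) H - Pool.Agent.Helper89.MM.mean G H‖ ≤
      ε / 5 + ε / 5 := by
    unfold Pool.Agent.Helper89.MM.mean
    rw [← sub_div, ← Finset.sum_sub_distrib, norm_div, Pool.Agent.Helper89.MM.den_norm,
      Pool.Agent.Helper89.MM.card_box, div_le_iff₀ (by positivity)]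
    set Bx := Pool.Agent.Helper89.MM.box (J × Fin (finrank ℚ K)) H with hBx
    have h1 : ∀ z ∈ Bx, ‖Φ (Ψ H z) - G z‖ ≤ ε / 5 +
        2 * B * (if ¬ ∀ s ∈ R, ‖Ψ H z s - PP F (bz ω z) y s‖ ≤ ε' then 1 else 0) := by
      intro z _
      by_cases hz : ∀ s ∈ R, ‖Ψ H z s - PP F (bz ω z) y s‖ ≤ ε'
      · rw [if_neg (not_not.mpr hz), mul_zero, add_zero]
        exact hΦδ _ _ fun s hs => (hz s hs).trans (min_le_left _ _)
      · rw [if_pos hz, mul_one]
        refine (norm_sub_le _ _).trans ?_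
        have k1 := hB (Ψ H z)
        have k2 := hB (fun s => PP F (bz ω z) y s)
        have : 0 ≤ ε / 5 := by positivity
        linarith
    refine (norm_sum_le _ _).trans ((Finset.sum_le_sum h1).trans ?_)
    rw [Finset.sum_add_distrib, Finset.sum_const, nsmul_eq_mul, ← Finset.mul_sum, Finset.sum_boole,
      Pool.Agent.Helper89.MM.card_box]
    have h2 : 2 * B * ((Bx.filter fun z => ¬ ∀ s ∈ R, ‖Ψ H z s - PP F (bz ω z) y s‖ ≤ ε').card : ℝ) ≤
        2 * B * (ε' * (2 * H + 1) ^ dm K J) := mul_le_mul_of_nonneg_left hH1 (by positivity)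
    have h3 : 2 * B * (ε' * (2 * (H : ℝ) + 1) ^ dm K J) ≤ ε / 5 * (2 * H + 1) ^ dm K J := by
      rw [← mul_assoc]
      exact mul_le_mul_of_nonneg_right hε'B hc.le
    have e : (2 * (H : ℝ) + 1) ^ dm K J = (2 * (H : ℝ) + 1) ^ Fintype.card (J × Fin (finrank ℚ K)) := rfl
    rw [e] at h2 h3
    linarith
  set L1 := Pool.Agent.Helper89.MM.mean (fun z => Φ (Ψ H z)) H with hL1
  set L2 := Pool.Agent.Helper89.MM.mean G H with hL2
  set I1 := ∫ b, Φ (fun s => PP F b y s) ∂(residueMeasure K J) with hI1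
  set I2 := ∫ b, Φ (randomLSeries c b) ∂(residueMeasure K J) with hI2
  have e1 : L1 - I2 = (L1 - L2) + (L2 - I1) + (I1 - I2) := by ring
  rw [e1]
  refine lt_of_le_of_lt (norm_add_le _ _) ?_
  have h4 := norm_add_le (L1 - L2) (L2 - I1)
  linarith

/-- removing a set of density zero -/
theorem mean_nsH {ι : Type*} [Fintype ι] [DecidableEq ι] {ns : (ι → ℤ) → Prop} [DecidablePred ns]
    {G : ℕ → (ι → ℤ) → ℂ} {B : ℝ} {M : ℂ} (hB : ∀ H x, ‖G H x‖ ≤ B)
    (hM : Tendsto (fun H => Pool.Agent.Helper89.MM.mean (G H) H) atTop (𝓝 M))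
    (h : Tendsto (fun H : ℕ => (((Pool.Agent.Helper89.MM.box ι H).filter fun x => ¬ ns x).card : ℝ) /
      (2 * H + 1) ^ Fintype.card ι) atTop (𝓝 0)) :
    Tendsto (fun H : ℕ => (∑ x ∈ (Pool.Agent.Helper89.MM.box ι H).filter fun x => ns x, G H x) /
      (((Pool.Agent.Helper89.MM.box ι H).filter fun x => ns x).card : ℂ)) atTop (𝓝 M) := by
  have h1 := Pool.Agent.Helper89.MM.dens_one h
  have h2 : Tendsto (fun H : ℕ => (∑ x ∈ (Pool.Agent.Helper89.MM.box ι H).filter fun x => ¬ ns x, G H x) /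
      (2 * H + 1 : ℂ) ^ Fintype.card ι) atTop (𝓝 0) := by
    rw [tendsto_zero_iff_norm_tendsto_zero]
    have h3 := h.const_mul B
    rw [mul_zero] at h3
    refine squeeze_zero (fun _ => norm_nonneg _) (fun H => ?_) h3
    rw [norm_div, Pool.Agent.Helper89.MM.den_norm, Pool.Agent.Helper89.MM.card_box, ← mul_div_assoc]
    gcongr
    calc _ ≤ ∑ _x ∈ (Pool.Agent.Helper89.MM.box ι H).filter fun x => ¬ ns x, B :=
          norm_sum_le_of_le _ fun x _ => hB H x
      _ = _ := by rw [Finset.sum_const, nsmul_eq_mul, mul_comm]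
  have h3 : Tendsto (fun H : ℕ => (∑ x ∈ (Pool.Agent.Helper89.MM.box ι H).filter fun x => ns x, G H x) /
      (2 * H + 1 : ℂ) ^ Fintype.card ι) atTop (𝓝 M) := by
    have h4 := hM.sub h2
    rw [sub_zero] at h4
    refine h4.congr fun H => ?_
    unfold Pool.Agent.Helper89.MM.mean
    rw [← sub_div]
    congr 1
    rw [sub_eq_iff_eq_add]
    exact (Finset.sum_filter_add_sum_filter_not _ _ _).symm
  have h4 : Tendsto (fun H : ℕ => (((((Pool.Agent.Helper89.MM.box ι H).filter fun x => ns x).card : ℝ) /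
      (2 * H + 1) ^ Fintype.card ι : ℝ) : ℂ)) atTop (𝓝 ((1 : ℝ) : ℂ)) :=
    (Complex.continuous_ofReal.tendsto _).comp h1
  have h5 := h3.div h4 (by simp)
  rw [Complex.ofReal_one, div_one] at h5
  refine h5.congr fun H => ?_
  have h6 : (2 * H + 1 : ℂ) ^ Fintype.card ι ≠ 0 := by
    rw [← norm_ne_zero_iff, Pool.Agent.Helper89.MM.den_norm]
    exact (Pool.Agent.Helper89.MM.card_box_pos H).ne'
  push_cast
  by_cases h7 : (((Pool.Agent.Helper89.MM.box ι H).filter fun x => ns x).card : ℂ) = 0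
  · simp only [Pi.div_apply, h7, zero_div, div_zero]
  · simp only [Pi.div_apply]
    field_simp

/-- from all members to those with nonzero discriminant -/
theorem to_mean (hM : Models c F) (ω : Basis (Fin (finrank ℚ K)) ℤ (𝓞 K)) {f : ℕ → WeierstrassCurve (𝓞 K) → ℂ}
    {B : ℝ} {L : ℂ} (hB : ∀ H W, ‖f H W‖ ≤ B)
    (h : Tendsto (fun H : ℕ => Pool.Agent.Helper89.MM.mean
      (fun z : J × Fin (finrank ℚ K) → ℤ => f H (c (param ω z))) H) atTop (𝓝 L)) :
    Tendsto (fun H : ℕ => mean ω c (f H) H) atTop (𝓝 L) := by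
  classical
  have hz := F.sing_zero (ns := fun a => (c a).Δ ≠ 0) ω
    (Pool.Agent.Helper89.EllipticFamilies.ns_ok hM)
  have h1 := mean_nsH (ns := fun x : J × Fin (finrank ℚ K) → ℤ => (c (pt ω x)).Δ ≠ 0)
    (G := fun H z => f H (c (param ω z))) (fun H z => hB H _) h hz
  refine h1.congr fun H => ?_
  exact (Pool.Agent.Helper89.EllipticFamilies.mean_eq (c := c) (ns := fun a => (c a).Δ ≠ 0)
    (fun _ => Iff.rfl) ω (f H) (fun a => f H (c a)) (fun _ => rfl) H).symm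

/-- **The limit theorem for the partial products.** -/
theorem lim_partial (hM : Models c F) {R : Set ℂ} (hR : IsCompact R) (hR1 : ∀ s ∈ R, 1 < s.re) :
    ∃ k : ℕ, 0 < k ∧ ∀ (ω : Basis (Fin (finrank ℚ K)) ℤ (𝓞 K)) (Φ : (ℂ → ℂ) → ℂ), IsTest R Φ →
      ∀ x : ℕ → ℕ, Tendsto x atTop atTop → (∀ᶠ H in atTop, x H ^ k ≤ H) →
      Tendsto (fun H : ℕ => mean ω c (fun W => Φ (partialProduct W (x H))) H) atTop
        (𝓝 (∫ b, Φ (randomLSeries c b) ∂(residueMeasure K J))) := by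
  classical
  obtain ⟨σ, M, hσ, hM0, hRb⟩ := compact_bounds hR hR1
  obtain ⟨C1, hC1, hX⟩ := X_le F (σ := σ) (δ := (σ - 1) / 2) (by linarith) (by linarith)
  obtain ⟨k, C2, hk, hC2, hexc⟩ := exc F (η := σ - 1 - (σ - 1) / 2) (B := 1) (by linarith)
  refine ⟨k, hk, fun ω Φ hΦ x hx hxk => ?_⟩
  obtain ⟨B, hB0, hB⟩ := test_bound hΦ
  refine to_mean hM ω (f := fun H W => Φ (partialProduct W (x H))) (fun H W => hB _) ?_
  refine scheme hM hR hR1 hΦ ω (fun H z => partialProduct (c (param ω z)) (x H)) fun ε hε => ?_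
  set A := max 1 (C2 / ε) with hA
  have hA1 : 1 ≤ A := le_max_left _ _
  have hA0 : 0 < A := by linarith
  have hCA : C2 * A ^ (-1 : ℝ) ≤ ε := by
    rw [Real.rpow_neg_one, ← div_eq_mul_inv, div_le_iff₀ hA0]
    have h1 : C2 / ε ≤ A := le_max_right _ _
    rw [div_le_iff₀ hε] at h1
    linarith
  set δ := (σ - 1) / 2 with hδ
  have hδ0 : 0 < δ := by rw [hδ]; linarith
  set M' := C1 * A * (1 + M) with hM'
  have hM'0 : 0 < M' := by positivity
  have h1 := (tendsto_rpow_neg_nat hδ0).const_mul (M' * Real.exp (M' + M'))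
  rw [mul_zero] at h1
  filter_upwards [h1.eventually (gt_mem_nhds hε), eventually_ge_atTop 1] with y hy hy1
  filter_upwards [hx.eventually_ge_atTop y, hxk] with H hH1 hH2
  have h2 := hexc ω (fun _ => -(H : ℤ) - 1) (2 * H + 1) (by omega) A hA1
  have hsub : ((Pool.Agent.Helper89.MM.box (J × Fin (finrank ℚ K)) H).filter fun z =>
        ¬ ∀ s ∈ R, ‖partialProduct (c (param ω z)) (x H) s - PP F (bz ω z) y s‖ ≤ ε) ⊆
      ((LF.ibox (fun _ => -(H : ℤ) - 1) (2 * H + 1)).filter fun z =>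
        ∃ t : ℕ, t ^ k ≤ 2 * H + 1 ∧ A < |SS F (σ - 1 - (σ - 1) / 2) (bz ω z) t|) := by
    intro z hz
    rw [mem_filter, box_eq] at hz
    rw [mem_filter]
    refine ⟨hz.1, ?_⟩
    by_contra hcon
    push Not at hcon
    apply hz.2
    intro s hs
    obtain ⟨hs1, hs2⟩ := hRb s hs
    have hb := hX (bz ω z) A (x H) hA1 (fun t ht => hcon t
      ((Nat.pow_le_pow_left ht k).trans (by omega)))
    have hy0 : (1 : ℝ) ≤ y := by exact_mod_cast hy1
    have hyδ : (y : ℝ) ^ (-δ) ≤ 1 := Real.rpow_le_one_of_one_le_of_nonpos hy0 (by linarith)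
    have hyδ0 : 0 ≤ (y : ℝ) ^ (-δ) := by positivity
    have h3 : ‖X F (bz ω z) (x H) s - X F (bz ω z) y s‖ ≤ M' * (y : ℝ) ^ (-δ) := by
      refine (hb y hy1 hH1 s hs1).trans ?_
      rw [hM']
      gcongr
    have h4 : ‖X F (bz ω z) y s‖ ≤ M' := by
      have h5 := hX (bz ω z) A y hA1 (fun t ht => hcon t
        ((Nat.pow_le_pow_left (ht.trans hH1) k).trans (by omega))) 1 le_rfl hy1 s hs1
      rw [X_one, sub_zero, Nat.cast_one, Real.one_rpow, mul_one] at h5
      refine h5.trans ?_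
      rw [hM']
      gcongr
    have hs3 : 1 / 2 < s.re := by linarith
    rw [partial_eq hM, PP_eq F _ _ hs3, PP_eq F _ _ hs3]
    refine (exp_sub h3).trans (le_trans ?_ hy.le)
    calc M' * (y : ℝ) ^ (-δ) * Real.exp (‖X F (bz ω z) y s‖ + M' * (y : ℝ) ^ (-δ))
        ≤ M' * (y : ℝ) ^ (-δ) * Real.exp (M' + M') := by
          gcongr
          nlinarith
      _ = _ := by ring
  refine (show _ ≤ _ from by exact_mod_cast Finset.card_le_card hsub).trans (h2.trans ?_)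
  push_cast
  exact mul_le_mul_of_nonneg_right hCA (by positivity)

/-- **The limit theorem for the L-series.** -/
theorem lim_L (hM : Models c F) {R : Set ℂ} (hR : IsCompact R) (hR1 : ∀ s ∈ R, 3 / 2 < s.re)
    (ω : Basis (Fin (finrank ℚ K)) ℤ (𝓞 K)) {Φ : (ℂ → ℂ) → ℂ} (hΦ : IsTest R Φ) :
    Tendsto (mean ω c fun W => Φ (LSeries W)) atTop
      (𝓝 (∫ b, Φ (randomLSeries c b) ∂(residueMeasure K J))) := by
  classical
  obtain ⟨σ, M, hσ, hM0, hRb⟩ := compact_bounds hR hR1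
  obtain ⟨B, hB0, hB⟩ := test_bound hΦ
  refine to_mean hM ω (f := fun H W => Φ (LSeries W)) (fun H W => hB _) ?_
  refine scheme hM hR (fun s hs => by linarith [hR1 s hs]) hΦ ω
    (fun H z => LSeries (c (param ω z))) fun ε hε => ?_
  have hsum : Summable fun v : HeightOneSpectrum (𝓞 K) => 4 * (nm v : ℝ) ^ (-(σ - 1 / 2)) :=
    (nm_summable (by linarith)).mul_left 4
  set M' := ∑' v : HeightOneSpectrum (𝓞 K), 4 * (nm v : ℝ) ^ (-(σ - 1 / 2)) with hM'
  have hM'0 : 0 ≤ M' := tsum_nonneg fun v => by positivity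
  have hle : ∀ (v : HeightOneSpectrum (𝓞 K)) (p : {p : (J → 𝓞 K) × ℂ // σ ≤ p.2.re}),
      ‖F.lgx p.1.1 v p.1.2‖ ≤ 4 * (nm v : ℝ) ^ (-(σ - 1 / 2)) := by
    intro v p
    refine (F.lgx_le p.1.1 v (by linarith [p.2])).trans ?_
    refine mul_le_mul_of_nonneg_left ?_ (by norm_num)
    exact Real.rpow_le_rpow_of_exponent_le (one_le_nm' v) (by linarith [p.2])
  have h1 := tendstoUniformly_tsum hsum hle
  have hTx : Tendsto (Tx K) atTop atTop := by
    refine tendsto_atTop_finset_of_monotone (fun a b hab => Tx_mono hab) fun v => ⟨nm v, ?_⟩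
    rw [mem_Tx]
  rw [Metric.tendstoUniformly_iff] at h1
  set ε1 := min 1 (ε / Real.exp (M' + 1 + 1)) with hε1
  have hε10 : 0 < ε1 := lt_min one_pos (by positivity)
  filter_upwards [hTx.eventually (h1 ε1 hε10)] with y hy
  refine Eventually.of_forall fun H => ?_
  have hempty : ((Pool.Agent.Helper89.MM.box (J × Fin (finrank ℚ K)) H).filter fun z =>
        ¬ ∀ s ∈ R, ‖LSeries (c (param ω z)) s - PP F (bz ω z) y s‖ ≤ ε) = ∅ := by
    rw [Finset.filter_eq_empty_iff]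
    intro z _
    rw [not_not]
    intro s hs
    obtain ⟨hs1, hs2⟩ := hRb s hs
    have h2 := hy ⟨(param ω z, s), hs1⟩
    rw [dist_eq_norm] at h2
    have h3 : ∑ v ∈ Tx K y, F.lgx (param ω z) v s = X F (bz ω z) y s := rfl
    have h4 : ∑' v, F.lgx (param ω z) v s = F.logL (param ω z) s := rfl
    simp only [h3, h4] at h2
    have hs3 : 3 / 2 < s.re := by linarith
    have h5 : LSeries (c (param ω z)) s = Complex.exp (F.logL (param ω z) s) := by
      rw [Pool.Agent.Helper89.EllipticFamilies.LSeries_eq hM, F.L_eq _ hs3]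
    have h6 : ‖F.logL (param ω z) s‖ ≤ M' := by
      rw [← h4]
      exact tsum_of_norm_bounded hsum.hasSum fun v => hle v ⟨(param ω z, s), hs1⟩
    have h7 : ‖X F (bz ω z) y s‖ ≤ M' + 1 := by
      have e : X F (bz ω z) y s = F.logL (param ω z) s - (F.logL (param ω z) s - X F (bz ω z) y s) := by ring
      rw [e]
      refine (norm_sub_le _ _).trans ?_
      have : ε1 ≤ 1 := min_le_left _ _
      linarith
    rw [h5, PP_eq F _ _ (by linarith)]
    refine (exp_sub h2.le).trans ?_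
    have h8 : ε1 ≤ 1 := min_le_left _ _
    have h9 : ε1 ≤ ε / Real.exp (M' + 1 + 1) := min_le_right _ _
    rw [le_div_iff₀ (Real.exp_pos _)] at h9
    refine le_trans ?_ h9
    gcongr
  rw [hempty, Finset.card_empty, Nat.cast_zero]
  positivity

end

end Pool.Agent.Helper78.RC
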