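import Pool.Agent.Helper89.CP.Main
import Pool.Agent.Helper78.RC.Abel

/-!
# The logarithms of the local factors to the right of the central line
-/

set_option autoImplicit false
set_option linter.all false

namespace Pool.Agent.Helper78.RC

open Finset NumberField IsDedekindDomain Module Filter
open Pool.Agent.N430.BP
open Pool.Agent.H921R2.TatePole (below deg nm nm_eq fiber_card_le two_le_nm nm_summable)
open Pool.Agent.Helper89.MM (fintypeV redJ Fam card_v TT norm_TT)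

attribute [local instance] fintypeV

theorem log_two {w1 w2 : ℂ} (h1 : ‖w1‖ < 1) (h2 : ‖w2‖ < 1) :
    Complex.log ((1 - w1) * (1 - w2)) = Complex.log (1 - w1) + Complex.log (1 - w2) := by
  have r1 := Pool.Agent.Helper89.MM.re_pos_of_norm h1
  have r2 := Pool.Agent.Helper89.MM.re_pos_of_norm h2
  have n1 : (1 - w1) ≠ 0 := by intro h; rw [h] at r1; simp at r1
  have n2 : (1 - w2) ≠ 0 := by intro h; rw [h] at r2; simp at r2
  rw [Complex.log_mul_eq_add_log_iff n1 n2]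
  have a1 := abs_lt.mp (Complex.abs_arg_lt_pi_div_two_iff.mpr (Or.inl r1))
  have a2 := abs_lt.mp (Complex.abs_arg_lt_pi_div_two_iff.mpr (Or.inl r2))
  constructor
  · linarith [a1.1, a2.1]
  · linarith [a1.2, a2.2]

theorem log_near {w : ℂ} (h : ‖w‖ ≤ 1 / 2) : ‖-Complex.log (1 - w) - w‖ ≤ ‖w‖ ^ 2 := by
  have h0 := norm_nonneg w
  have h1 := Complex.norm_log_one_add_sub_self_le (z := -w) (by rw [norm_neg]; linarith)
  rw [norm_neg] at h1
  have h2 : -Complex.log (1 - w) - w = -(Complex.log (1 + -w) - -w) := by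
    rw [← sub_eq_add_neg]
    ring
  rw [h2, norm_neg]
  refine h1.trans ?_
  have h3 : (1 - ‖w‖)⁻¹ ≤ 2 := by
    rw [inv_le_comm₀ (by linarith) (by norm_num)]
    linarith
  calc ‖w‖ ^ 2 * (1 - ‖w‖)⁻¹ / 2 ≤ ‖w‖ ^ 2 * 2 / 2 := by gcongr
    _ = ‖w‖ ^ 2 := by ring

/-- the logarithm of a factor of degree two -/
theorem log_fac {q t : ℝ} {T : ℂ} (hq : 0 < q) (ht : |t| ≤ 2 * Real.sqrt q)
    (hT : Real.sqrt q * ‖T‖ ≤ 1 / 2) :
    ‖-Complex.log (1 - ((t : ℂ) * T - q * T ^ 2)) - t * T‖ ≤ 2 * (Real.sqrt q * ‖T‖) ^ 2 := by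
  have hs0 : 0 < Real.sqrt q := Real.sqrt_pos.mpr hq
  have hs2 : Real.sqrt q ^ 2 = q := Real.sq_sqrt hq.le
  set y : ℝ := Real.sqrt (4 * q - t ^ 2) with hy
  have hy0 : 0 ≤ 4 * q - t ^ 2 := by
    have h1 : t ^ 2 ≤ (2 * Real.sqrt q) ^ 2 := sq_le_sq.mpr (by rwa [abs_of_pos (by positivity : 0 < 2 * Real.sqrt q)])
    rw [mul_pow, hs2] at h1
    linarith
  have hy2 : y ^ 2 = 4 * q - t ^ 2 := Real.sq_sqrt hy0
  have hn : ∀ y' : ℝ, y' ^ 2 = 4 * q - t ^ 2 →
      ‖((t / 2 : ℝ) : ℂ) + ((y' / 2 : ℝ) : ℂ) * Complex.I‖ = Real.sqrt q := by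
    intro y' hy'
    rw [Complex.norm_add_mul_I]
    congr 1
    rw [div_pow, div_pow, hy']
    ring
  have key : 1 - ((t : ℂ) * T - q * T ^ 2) =
      (1 - (((t / 2 : ℝ) : ℂ) + ((y / 2 : ℝ) : ℂ) * Complex.I) * T) *
        (1 - (((t / 2 : ℝ) : ℂ) + ((-y / 2 : ℝ) : ℂ) * Complex.I) * T) := by
    have h1 : (y : ℂ) ^ 2 = 4 * q - t ^ 2 := by exact_mod_cast hy2
    push_cast
    have h2 := Complex.I_sq
    linear_combination (-(T ^ 2) / 4) * h1 + ((y : ℂ) ^ 2 * T ^ 2 / 4 ) * h2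
  set w1 : ℂ := (((t / 2 : ℝ) : ℂ) + ((y / 2 : ℝ) : ℂ) * Complex.I) * T with hw1
  set w2 : ℂ := (((t / 2 : ℝ) : ℂ) + ((-y / 2 : ℝ) : ℂ) * Complex.I) * T with hw2
  have n1 : ‖w1‖ = Real.sqrt q * ‖T‖ := by
    rw [hw1, norm_mul, hn y hy2]
  have n2 : ‖w2‖ = Real.sqrt q * ‖T‖ := by
    rw [hw2, norm_mul, hn (-y) (by rw [neg_sq]; exact hy2)]
  have hsum : w1 + w2 = t * T := by
    rw [hw1, hw2]
    push_cast
    ring
  rw [key, log_two (by rw [n1]; linarith) (by rw [n2]; linarith), ← hsum]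
  have l1 := log_near (w := w1) (by rw [n1]; exact hT)
  have l2 := log_near (w := w2) (by rw [n2]; exact hT)
  have e : -(Complex.log (1 - w1) + Complex.log (1 - w2)) - (w1 + w2) =
      (-Complex.log (1 - w1) - w1) + (-Complex.log (1 - w2) - w2) := by ring
  rw [e]
  refine (norm_add_le _ _).trans ?_
  rw [n1] at l1
  rw [n2] at l2
  linarith

section
variable {K : Type} [Field K] [NumberField K] {J : Type} [Fintype J] [DecidableEq J] (F : Fam K J)

theorem nm_pos' (v : HeightOneSpectrum (𝓞 K)) : (0 : ℝ) < nm v := by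
  exact_mod_cast (by have := two_le_nm v; omega : 0 < nm v)

theorem one_le_nm' (v : HeightOneSpectrum (𝓞 K)) : (1 : ℝ) ≤ nm v := by
  exact_mod_cast (by have := two_le_nm v; omega : 1 ≤ nm v)

open Classical in
/-- the trace, `0` if the reduction is bad -/
noncomputable def tr (v : HeightOneSpectrum (𝓞 K)) (a : J → 𝓞 K ⧸ v.asIdeal) : ℝ :=
  if F.good v a then F.t v a else 0

/-- the logarithm of the local factor -/
noncomputable def ell (v : HeightOneSpectrum (𝓞 K)) (a : J → 𝓞 K ⧸ v.asIdeal) (s : ℂ) : ℂ :=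
  -Complex.log (1 - F.zz v a s)

/-- the mean of the trace -/
noncomputable def mt (v : HeightOneSpectrum (𝓞 K)) : ℝ :=
  (∑ a, tr F v a) / Fintype.card (J → 𝓞 K ⧸ v.asIdeal)

theorem tr_le (v : HeightOneSpectrum (𝓞 K)) (a : J → 𝓞 K ⧸ v.asIdeal) :
    |tr F v a| ≤ 2 * Real.sqrt (nm v) := by
  unfold tr
  split_ifs
  · exact F.weil v a
  · rw [abs_zero]; positivity

theorem mt_le_sqrt (v : HeightOneSpectrum (𝓞 K)) : |mt F v| ≤ 2 * Real.sqrt (nm v) := by
  have hq : (0 : ℝ) < Fintype.card (J → 𝓞 K ⧸ v.asIdeal) := by exact_mod_cast Fintype.card_pos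
  unfold mt
  rw [abs_div, abs_of_pos hq, div_le_iff₀ hq]
  refine (Finset.abs_sum_le_sum_abs _ _).trans ((Finset.sum_le_sum fun a _ => tr_le F v a).trans ?_)
  rw [Finset.sum_const, card_univ, nsmul_eq_mul, mul_comm]

theorem sqrt_T {v : HeightOneSpectrum (𝓞 K)} {s : ℂ} :
    Real.sqrt (nm v) * ‖TT v s‖ = (nm v : ℝ) ^ (1 / 2 - s.re) := Fam.sqrt_TT v s

theorem ell_near (v : HeightOneSpectrum (𝓞 K)) (a : J → 𝓞 K ⧸ v.asIdeal) {s : ℂ} (hs : 1 ≤ s.re) :
    ‖ell F v a s - tr F v a * TT v s‖ ≤ 2 * (nm v : ℝ) ^ (1 - 2 * s.re) := by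
  have hn := nm_pos' v
  unfold ell tr Fam.zz
  by_cases hg : F.good v a
  · rw [if_pos hg, if_pos hg]
    have h5 : (5 : ℝ) ≤ nm v := by exact_mod_cast F.five v a hg
    have hT : Real.sqrt (nm v) * ‖TT v s‖ ≤ 1 / 2 := by
      rw [sqrt_T]
      calc (nm v : ℝ) ^ (1 / 2 - s.re) ≤ (nm v : ℝ) ^ (-(1 / 2) : ℝ) :=
            Real.rpow_le_rpow_of_exponent_le (by linarith) (by linarith)
        _ ≤ (4 : ℝ) ^ (-(1 / 2) : ℝ) :=
            Real.rpow_le_rpow_of_nonpos (by norm_num) (by linarith) (by norm_num)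
        _ = 1 / 2 := by
            rw [show (4 : ℝ) = 2 ^ (2 : ℝ) by norm_num, ← Real.rpow_mul (by norm_num)]
            norm_num
    refine (log_fac hn (F.weil v a) hT).trans (le_of_eq ?_)
    rw [sqrt_T, ← Real.rpow_natCast, ← Real.rpow_mul hn.le]
    congr 2
    push_cast
    ring
  · rw [if_neg hg, if_neg hg]
    simp only [sub_zero, Complex.log_one, neg_zero, Complex.ofReal_zero, zero_mul, norm_zero]
    positivity

theorem ell_le (v : HeightOneSpectrum (𝓞 K)) (a : J → 𝓞 K ⧸ v.asIdeal) {s : ℂ} (hs : 1 ≤ s.re) :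
    ‖ell F v a s‖ ≤ 4 * (nm v : ℝ) ^ (1 / 2 - s.re) := by
  have h1 := ell_near F v a hs
  have h2 : ‖(tr F v a : ℂ) * TT v s‖ ≤ 2 * (nm v : ℝ) ^ (1 / 2 - s.re) := by
    rw [norm_mul, Complex.norm_real, Real.norm_eq_abs, ← sqrt_T, ← mul_assoc]
    exact mul_le_mul_of_nonneg_right (tr_le F v a) (norm_nonneg _)
  have h3 : (nm v : ℝ) ^ (1 - 2 * s.re) ≤ (nm v : ℝ) ^ (1 / 2 - s.re) :=
    Real.rpow_le_rpow_of_exponent_le (one_le_nm' v) (by linarith)
  have h4 : ell F v a s = (ell F v a s - tr F v a * TT v s) + tr F v a * TT v s := by ring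
  rw [h4]
  refine (norm_add_le _ _).trans ?_
  linarith

theorem exp_ell (v : HeightOneSpectrum (𝓞 K)) (a : J → 𝓞 K ⧸ v.asIdeal) {s : ℂ} (hs : 1 / 2 < s.re) :
    Complex.exp (ell F v a s) = (1 - F.zz v a s)⁻¹ := by
  unfold ell
  rw [Complex.exp_neg, Complex.exp_log (F.one_sub_zz_ne v a hs)]

theorem diff_ell (v : HeightOneSpectrum (𝓞 K)) (a : J → 𝓞 K ⧸ v.asIdeal) {s : ℂ} (hs : 1 / 2 < s.re) :
    DifferentiableAt ℂ (ell F v a) s := by
  unfold ell
  exact (((differentiableAt_const _).sub (F.diff_zz v a s)).clog (F.one_sub_zz v a hs)).neg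

/-- the mean of the trace is bounded -/
theorem mt_bdd : ∃ C : ℝ, 0 ≤ C ∧ ∀ v, |mt F v| ≤ C := by
  classical
  have hev : ∀ᶠ v : HeightOneSpectrum (𝓞 K) in cofinite, |mt F v| ≤ F.r + 9 := by
    filter_upwards [F.mom1, F.bad] with v h1 h2
    have hn := nm_pos' v
    have hn1 := one_le_nm' v
    have hcard : ((Fintype.card (J → 𝓞 K ⧸ v.asIdeal) : ℕ) : ℝ) = (nm v : ℝ) ^ Fintype.card J := by
      rw [Fintype.card_fun, card_v]; push_cast; rfl
    have hcp : (0 : ℝ) < (nm v : ℝ) ^ Fintype.card J := by positivity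
    have e1 : ∑ a, tr F v a = ∑ a, F.t v a - ∑ a, (if F.good v a then 0 else F.t v a) := by
      rw [← Finset.sum_sub_distrib]
      refine Finset.sum_congr rfl fun a _ => ?_
      unfold tr
      split_ifs <;> ring
    have e2 : |∑ a, (if F.good v a then 0 else F.t v a)| ≤
        2 * Real.sqrt (nm v) * (4 / nm v * (nm v : ℝ) ^ Fintype.card J) := by
      refine (Finset.abs_sum_le_sum_abs _ _).trans ?_
      have e3 : ∀ a : J → 𝓞 K ⧸ v.asIdeal, |if F.good v a then 0 else F.t v a| ≤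
          (2 * Real.sqrt (nm v)) * (if ¬ F.good v a then 1 else 0) := by
        intro a
        by_cases hg : F.good v a
        · simp [hg]
        · simp only [hg, not_false_eq_true, if_true, if_false, mul_one]
          exact F.weil v a
      refine (Finset.sum_le_sum fun a _ => e3 a).trans ?_
      rw [← Finset.mul_sum, Finset.sum_boole]
      refine mul_le_mul_of_nonneg_left ?_ (by positivity)
      rw [Nat.card_eq_fintype_card, Fintype.card_subtype] at h2
      exact h2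
    rw [finsum_eq_sum_of_fintype] at h1
    have e4 : |(∑ a, F.t v a) / (nm v : ℝ) ^ Fintype.card J| ≤ F.r + 1 := by
      have h3 : (2 : ℝ) / nm v ≤ 1 := by
        rw [div_le_one hn]
        exact_mod_cast two_le_nm v
      have h4 := abs_le.mp (h1.trans h3)
      rw [abs_le]
      have hr : (0 : ℝ) ≤ F.r := by positivity
      constructor <;> linarith [h4.1, h4.2]
    unfold mt
    rw [hcard, e1, sub_div]
    refine (abs_sub _ _).trans ?_
    have e5 : |(∑ a, (if F.good v a then 0 else F.t v a)) / (nm v : ℝ) ^ Fintype.card J| ≤ 8 := by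
      rw [abs_div, abs_of_pos hcp, div_le_iff₀ hcp]
      refine e2.trans ?_
      rw [← mul_assoc]
      refine mul_le_mul_of_nonneg_right ?_ hcp.le
      have hsq : Real.sqrt (nm v) ≤ nm v := by
        rw [Real.sqrt_le_left (by linarith)]
        nlinarith
      calc 2 * Real.sqrt (nm v) * (4 / nm v) ≤ 2 * (nm v : ℝ) * (4 / nm v) := by gcongr
        _ = 8 := by field_simp; norm_num
    linarith
  have hfin : {v : HeightOneSpectrum (𝓞 K) | ¬ |mt F v| ≤ F.r + 9}.Finite := hev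
  refine ⟨F.r + 9 + ∑ v ∈ hfin.toFinset, |mt F v|, by positivity, fun v => ?_⟩
  by_cases hv : |mt F v| ≤ F.r + 9
  · have : (0 : ℝ) ≤ ∑ v ∈ hfin.toFinset, |mt F v| := by positivity
    linarith
  · have h1 : |mt F v| ≤ ∑ v ∈ hfin.toFinset, |mt F v| :=
      Finset.single_le_sum (f := fun v => |mt F v|) (fun _ _ => abs_nonneg _) (hfin.mem_toFinset.mpr hv)
    have hr : (0 : ℝ) ≤ F.r := by positivity
    linarith

end

end Pool.Agent.Helper78.RC
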