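import Pool.Agent.Helper78.RC.PartA

/-!
# The random model
-/

set_option autoImplicit false
set_option linter.all false

namespace Pool.Agent.Helper78.RC

open Finset NumberField IsDedekindDomain Module Filter Topology MeasureTheory
open Pool.Agent.H921R2.TatePole (below deg nm nm_eq two_le_nm nm_summable below_le_nm)
open Pool.Agent.Helper89.MM (fintypeV redJ Fam card_v TT norm_TT pt red_surj mean_tendsto)
open Pool.Agent.Helper89.CP (rd)
open Pool.Agent.Helper78.EllipticLimit

attribute [local instance] fintypeV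

section
variable {K : Type} [Field K] [NumberField K] {J : Type} [Fintype J] [DecidableEq J]

instance finite_res (v : HeightOneSpectrum (𝓞 K)) : Finite (J → 𝓞 K ⧸ v.asIdeal) := by
  have := Fintype.finite (fintypeV v)
  infer_instance

instance disc_res (v : HeightOneSpectrum (𝓞 K)) : DiscreteMeasurableSpace (J → 𝓞 K ⧸ v.asIdeal) :=
  ⟨fun _ => trivial⟩

instance prob_mu : IsProbabilityMeasure (residueMeasure K J) := by
  unfold residueMeasure
  infer_instance

/-- extension of residues modulo finitely many primes -/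
noncomputable def ext (S : Finset (HeightOneSpectrum (𝓞 K))) (a : ∀ v : S, J → 𝓞 K ⧸ (v : HeightOneSpectrum (𝓞 K)).asIdeal) :
    Residues K J := by
  classical
  exact fun v => if h : v ∈ S then a ⟨v, h⟩ else 0

theorem ext_apply (S : Finset (HeightOneSpectrum (𝓞 K))) (b : Residues K J) {v : HeightOneSpectrum (𝓞 K)}
    (hv : v ∈ S) : ext S (S.restrict b) v = b v := by
  unfold ext
  rw [dif_pos hv]
  rfl

/-- the function depends only on the residues modulo the elements of `S` -/
def Dep {E : Type*} (S : Finset (HeightOneSpectrum (𝓞 K))) (G : Residues K J → E) : Prop :=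
  ∀ b b' : Residues K J, (∀ v ∈ S, b v = b' v) → G b = G b'

theorem Dep.eq {E : Type*} {S : Finset (HeightOneSpectrum (𝓞 K))} {G : Residues K J → E} (hG : Dep S G)
    (b : Residues K J) : G b = G (ext S (S.restrict b)) :=
  hG _ _ fun v hv => (ext_apply S b hv).symm

theorem Dep.measurable {E : Type*} [MeasurableSpace E] {S : Finset (HeightOneSpectrum (𝓞 K))}
    {G : Residues K J → E} (hG : Dep S G) : Measurable G := by
  have h1 : G = (fun a => G (ext S a)) ∘ S.restrict := by
    funext b
    exact hG.eq b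
  rw [h1]
  exact (measurable_of_countable _).comp (Finset.measurable_restrict S)

open Classical in
theorem int_fin (S : Finset (HeightOneSpectrum (𝓞 K)))
    (f : (∀ v : S, J → 𝓞 K ⧸ (v : HeightOneSpectrum (𝓞 K)).asIdeal) → ℂ) :
    ∫ b, f (S.restrict b) ∂(residueMeasure K J) =
      (∑ a, f a) / Fintype.card (∀ v : S, J → 𝓞 K ⧸ (v : HeightOneSpectrum (𝓞 K)).asIdeal) := by
  unfold residueMeasure
  rw [integral_restrict_infinitePi (X := fun v : HeightOneSpectrum (𝓞 K) => J → 𝓞 K ⧸ v.asIdeal)
    (μ := fun v => ProbabilityTheory.uniformOn (Set.univ : Set (J → 𝓞 K ⧸ v.asIdeal))) (s := S) (f := f)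
    (measurable_of_countable f).aestronglyMeasurable]
  rw [MeasureTheory.integral_fintype (Integrable.of_finite), Finset.sum_div]
  refine Finset.sum_congr rfl fun a _ => ?_
  have h1 : (Measure.pi fun i : S => ProbabilityTheory.uniformOn
      (Set.univ : Set (J → 𝓞 K ⧸ (i : HeightOneSpectrum (𝓞 K)).asIdeal))).real {a} =
      (Fintype.card (∀ v : S, J → 𝓞 K ⧸ (v : HeightOneSpectrum (𝓞 K)).asIdeal) : ℝ)⁻¹ := by
    rw [Measure.real, Measure.pi_singleton, Fintype.card_pi, ENNReal.toReal_prod]
    push_cast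
    rw [← Finset.prod_inv_distrib]
    refine Finset.prod_congr rfl fun v _ => ?_
    rw [ProbabilityTheory.uniformOn_univ, Measure.count_singleton, ENNReal.toReal_div,
      ENNReal.toReal_one, ENNReal.toReal_natCast, one_div, Fintype.card_fun]
  rw [h1, Complex.real_smul]
  push_cast
  rw [div_eq_mul_inv, mul_comm]

open Classical in
theorem int_dep {S : Finset (HeightOneSpectrum (𝓞 K))} {G : Residues K J → ℂ} (hG : Dep S G) :
    ∫ b, G b ∂(residueMeasure K J) = (∑ a, G (ext S a)) /
      Fintype.card (∀ v : S, J → 𝓞 K ⧸ (v : HeightOneSpectrum (𝓞 K)).asIdeal) := by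
  rw [← int_fin S (fun a => G (ext S a))]
  exact integral_congr_ae (Eventually.of_forall fun b => hG.eq b)

/-- **The mean over the boxes of a function of finitely many residues.** -/
theorem box_dep (ω : Basis (Fin (finrank ℚ K)) ℤ (𝓞 K)) {S : Finset (HeightOneSpectrum (𝓞 K))}
    {G : Residues K J → ℂ} (hG : Dep S G) :
    Tendsto (Pool.Agent.Helper89.MM.mean fun z : J × Fin (finrank ℚ K) → ℤ => G (bz ω z)) atTop
      (𝓝 (∫ b, G b ∂(residueMeasure K J))) := by
  classical
  rw [int_dep hG]
  have h1 := mean_tendsto (A := ∀ v : S, J → 𝓞 K ⧸ (v : HeightOneSpectrum (𝓞 K)).asIdeal)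
    (AddMonoidHom.pi fun v : S => (redJ (v : HeightOneSpectrum (𝓞 K))).comp (pt (J := J) ω))
    (red_surj ω S) (fun a => G (ext S a))
  refine h1.congr fun H => ?_
  unfold Pool.Agent.Helper89.MM.mean
  congr 1
  refine Finset.sum_congr rfl fun z _ => ?_
  apply hG
  intro v hv
  unfold ext
  rw [dif_pos hv]
  rfl

/-- the integral of a product -/
theorem int_prod (S : Finset (HeightOneSpectrum (𝓞 K)))
    (g : ∀ v : HeightOneSpectrum (𝓞 K), (J → 𝓞 K ⧸ v.asIdeal) → ℂ) :
    ∫ b, ∏ v ∈ S, g v (b v) ∂(residueMeasure K J) =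
      ∏ v ∈ S, (∑ a, g v a) / Fintype.card (J → 𝓞 K ⧸ v.asIdeal) := by
  classical
  have h1 := int_fin (K := K) (J := J) S (fun a => ∏ v : S, g v (a v))
  have h2 : ∫ b, ∏ v ∈ S, g v (b v) ∂(residueMeasure K J) =
      ∫ b, ∏ v : S, g v (S.restrict b v) ∂(residueMeasure K J) := by
    refine integral_congr_ae (Eventually.of_forall fun b => ?_)
    exact (Finset.prod_coe_sort S (fun v => g v (b v))).symm
  rw [h2, h1, ← Finset.prod_coe_sort S, Finset.prod_div_distrib, Fintype.card_pi, Nat.cast_prod]
  congr 1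
  rw [Finset.prod_univ_sum, Fintype.piFinset_univ]

end

end Pool.Agent.Helper78.RC
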