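import Pool.Agent.Helper78.RC.Sup
import Pool.Agent.Helper78.RC.Defs

/-!
# The partial products of almost all members
-/

set_option autoImplicit false
set_option linter.all false

namespace Pool.Agent.Helper78.RC

open Finset NumberField IsDedekindDomain Module Filter
open Pool.Agent.N430.BP hiding TT
open Pool.Agent.H921R2.TatePole (below deg nm nm_eq fiber_card_le two_le_nm nm_summable below_le_nm
  summable_primes_rpow)
open Pool.Agent.Helper89.MM (fintypeV redJ Fam card_v TT norm_TT)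
open Pool.Agent.Helper89.CP (dm en zp rd rd_per rd_mean LF.ibox mem_ibox card_ibox coe_Tx dm_eq)
open Pool.Agent.Helper89.EllipticFamilies (factor LSeries param mean primesUpTo Models)
open Pool.Agent.Helper78.EllipticLimit

attribute [local instance] fintypeV

section
variable {K : Type} [Field K] [NumberField K] {J : Type} [Fintype J] [DecidableEq J]

/-- the partial product for given residues -/
noncomputable def PP (F : Fam K J) (b : Res K J) (x : ℕ) (s : ℂ) : ℂ :=
  ∏ v ∈ Tx K x, (1 - F.zz v (b v) s)⁻¹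

theorem PP_eq (F : Fam K J) (b : Res K J) (x : ℕ) {s : ℂ} (hs : 1 / 2 < s.re) :
    PP F b x s = Complex.exp (X F b x s) := by
  unfold PP X
  rw [Complex.exp_sum]
  exact Finset.prod_congr rfl fun v _ => (exp_ell F v (b v) hs).symm

theorem partial_eq {c : (J → 𝓞 K) → WeierstrassCurve (𝓞 K)} {F : Fam K J} (hM : Models c F)
    (ω : Basis (Fin (finrank ℚ K)) ℤ (𝓞 K)) (z : J × Fin (finrank ℚ K) → ℤ) (x : ℕ) (s : ℂ) :
    partialProduct (c (param ω z)) x s = PP F (bz ω z) x s := by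
  unfold partialProduct PP
  rw [coe_Tx, finprod_mem_coe_finset]
  refine Finset.prod_congr rfl fun v _ => ?_
  rw [hM.eq]
  rfl

theorem random_eq {c : (J → 𝓞 K) → WeierstrassCurve (𝓞 K)} {F : Fam K J} (hM : Models c F)
    (b : Residues K J) (x : ℕ) (s : ℂ) : randomProduct c b x s = PP F b x s := by
  unfold randomProduct PP
  rw [coe_Tx, finprod_mem_coe_finset]
  refine Finset.prod_congr rfl fun v _ => ?_
  rw [hM.eq]
  unfold Fam.zx
  congr 3
  funext j
  exact Quotient.out_eq (b v j)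

/-- **The exceptional members.** -/
theorem partA {c : (J → 𝓞 K) → WeierstrassCurve (𝓞 K)} {F : Fam K J} (hM : Models c F) {σ δ B : ℝ}
    (hδ : 0 < δ) (hσ : 1 + δ < σ) (hB : 0 < B) : ∃ (k : ℕ) (C : ℝ), 0 < k ∧ 0 ≤ C ∧
    ∀ (ω : Basis (Fin (finrank ℚ K)) ℤ (𝓞 K)) (U : J × Fin (finrank ℚ K) → ℤ) (N : ℕ), 0 < N →
    ∀ A : ℝ, 1 ≤ A → ((outliers c ω U N k σ δ A).ncard : ℝ) ≤
      C * A ^ (-B) * (N : ℝ) ^ (Fintype.card J * finrank ℚ K) := by
  classical
  obtain ⟨C1, hC1, hX⟩ := X_le F hδ hσ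
  obtain ⟨k, C2, hk, hC2, hexc⟩ := exc F (η := σ - 1 - δ) (B := B) (by linarith)
  refine ⟨k, (C2 + 1) * C1 ^ B, hk, by positivity, fun ω U N hN A hA => ?_⟩
  have hA0 : 0 < A := by linarith
  have hN0 : (0 : ℝ) < N := by exact_mod_cast hN
  have hCB : 0 < C1 ^ B := Real.rpow_pos_of_pos hC1 _
  have hAB : 0 < A ^ (-B) := Real.rpow_pos_of_pos hA0 _
  have hdiv : (A / C1) ^ (-B) = A ^ (-B) * C1 ^ B := by
    rw [Real.div_rpow hA0.le hC1.le, Real.rpow_neg hC1.le, div_inv_eq_mul]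
  rw [← dm_eq]
  have hcard0 : ∀ S : Set (J × Fin (finrank ℚ K) → ℤ), S ⊆ ↑(LF.ibox U N) →
      ((S.ncard : ℕ) : ℝ) ≤ (N : ℝ) ^ dm K J := by
    intro S hS
    have h1 := Set.ncard_le_ncard hS (Finset.finite_toSet _)
    rw [Set.ncard_coe_finset, card_ibox] at h1
    exact_mod_cast h1
  by_cases hA1 : 1 ≤ A / C1
  · have h1 := hexc ω U N hN (A / C1) hA1
    have hsub : outliers c ω U N k σ δ A ⊆ ↑((LF.ibox U N).filter fun z =>
        ∃ t : ℕ, t ^ k ≤ N ∧ A / C1 < |SS F (σ - 1 - δ) (bz ω z) t|) := by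
      rintro z ⟨hz1, hz2⟩
      rw [Finset.mem_coe, mem_filter, mem_ibox]
      refine ⟨hz1, ?_⟩
      by_contra hcon
      push Not at hcon
      apply hz2
      intro x y hy hyx hxN s hs
      refine ⟨X F (bz ω z) x s - X F (bz ω z) y s, ?_, ?_⟩
      · have h2 := hX (bz ω z) (A / C1) x hA1 (fun t ht => hcon t ((Nat.pow_le_pow_left ht k).trans hxN))
          y hy hyx s hs
        refine h2.trans (le_of_eq ?_)
        field_simp
      · have hs2 : 1 / 2 < s.re := by linarith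
        rw [partial_eq hM, partial_eq hM, PP_eq F _ _ hs2, PP_eq F _ _ hs2, ← Complex.exp_add]
        congr 1
        ring
    have h2 := Set.ncard_le_ncard hsub (Finset.finite_toSet _)
    rw [Set.ncard_coe_finset] at h2
    have h3 : ((outliers c ω U N k σ δ A).ncard : ℝ) ≤
        (((LF.ibox U N).filter fun z =>
        ∃ t : ℕ, t ^ k ≤ N ∧ A / C1 < |SS F (σ - 1 - δ) (bz ω z) t|).card : ℝ) := by exact_mod_cast h2
    refine h3.trans (h1.trans ?_)
    rw [hdiv]
    have h4 : 0 ≤ A ^ (-B) * C1 ^ B := by positivity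
    have h5 : C2 * (A ^ (-B) * C1 ^ B) ≤ (C2 + 1) * C1 ^ B * A ^ (-B) := by nlinarith
    exact mul_le_mul_of_nonneg_right h5 (by positivity)
  · push Not at hA1
    have h1 := hcard0 (outliers c ω U N k σ δ A) (by
      rintro z ⟨hz1, _⟩
      rw [Finset.mem_coe, mem_ibox]
      exact hz1)
    have h2 : 1 ≤ (A / C1) ^ (-B) :=
      Real.one_le_rpow_of_pos_of_le_one_of_nonpos (by positivity) hA1.le (by linarith)
    rw [hdiv] at h2
    have h3 : 1 ≤ (C2 + 1) * C1 ^ B * A ^ (-B) := by nlinarith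
    calc _ ≤ 1 * (N : ℝ) ^ dm K J := by rw [one_mul]; exact h1
      _ ≤ _ := mul_le_mul_of_nonneg_right h3 (by positivity)

end

end Pool.Agent.Helper78.RC
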