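import Pool.Agent.Helper78.RC.Loc

/-!
# The decomposition of the logarithm of the partial products
-/

set_option autoImplicit false
set_option linter.all false

namespace Pool.Agent.Helper78.RC

open Finset NumberField IsDedekindDomain Module Filter
open Pool.Agent.N430.BP hiding TT
open Pool.Agent.H921R2.TatePole (below deg nm nm_eq fiber_card_le two_le_nm nm_summable below_le_nm
  summable_primes_rpow)
open Pool.Agent.Helper89.MM (fintypeV redJ Fam card_v TT norm_TT)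

attribute [local instance] fintypeV

/-- residues modulo all primes -/
abbrev Res (K : Type) [Field K] [NumberField K] (J : Type) : Type :=
  ∀ v : HeightOneSpectrum (𝓞 K), J → 𝓞 K ⧸ v.asIdeal

section
variable {K : Type} [Field K] [NumberField K]

open Classical in
/-- the weights of the remainder -/
noncomputable def Hw (ε : ℝ) (v : HeightOneSpectrum (𝓞 K)) : ℝ :=
  (nm v : ℝ) ^ (-(1 + ε)) + (if deg v = 1 then 0 else (nm v : ℝ) ^ (-(1 / 2 + ε)))

theorem Hw_nonneg (ε : ℝ) (v : HeightOneSpectrum (𝓞 K)) : 0 ≤ Hw ε v := by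
  unfold Hw
  split_ifs <;> positivity

open Classical in
theorem Hw_summable {ε : ℝ} (hε : 0 < ε) : Summable (Hw (K := K) ε) := by
  unfold Hw
  refine Summable.add (nm_summable (by linarith)) ?_
  set g : HeightOneSpectrum (𝓞 K) → ℝ := fun v =>
    if deg v = 1 then 0 else (nm v : ℝ) ^ (-(1 / 2 + ε)) with hg
  have hg0 : ∀ v, 0 ≤ g v := fun v => by
    rw [hg]; simp only; split_ifs <;> positivity
  rw [← (Equiv.sigmaFiberEquiv (below (K := K))).summable_iff]
  rw [summable_sigma_of_nonneg (f := g ∘ (Equiv.sigmaFiberEquiv (below (K := K)))) (fun c => hg0 _)]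
  refine ⟨fun p => Summable.of_finite, ?_⟩
  refine Summable.of_nonneg_of_le (fun p => tsum_nonneg fun c => hg0 _) (fun p => ?_)
    ((summable_primes_rpow (x := 1 + 2 * ε) (by linarith)).mul_left (finrank ℚ K : ℝ))
  rw [tsum_fintype]
  have h1 : ∀ v : {v : HeightOneSpectrum (𝓞 K) // below v = p},
      (g ∘ (Equiv.sigmaFiberEquiv (below (K := K)))) ⟨p, v⟩ ≤ ((p : ℕ) : ℝ) ^ (-(1 + 2 * ε)) := by
    intro v
    have hp1 : (1 : ℝ) ≤ (p : ℕ) := by exact_mod_cast p.prop.one_lt.le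
    change g v.1 ≤ _
    rw [hg]
    simp only
    split_ifs with hd
    · positivity
    · obtain ⟨h1, h2, _⟩ := nm_eq v.1
      rw [v.2] at h1
      rw [h1]
      push_cast
      rw [← Real.rpow_natCast, ← Real.rpow_mul (by positivity)]
      refine Real.rpow_le_rpow_of_exponent_le hp1 ?_
      have hd2 : (2 : ℝ) ≤ (deg v.1 : ℝ) := by
        have : 2 ≤ deg v.1 := by omega
        exact_mod_cast this
      nlinarith
  refine (Finset.sum_le_sum fun v _ => h1 v).trans ?_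
  rw [Finset.sum_const, card_univ, nsmul_eq_mul]
  exact mul_le_mul_of_nonneg_right (by exact_mod_cast fiber_card_le p) (by positivity)

open Classical in
/-- the sum over the primes above `p` of degree one -/
noncomputable def GG (g : HeightOneSpectrum (𝓞 K) → ℂ) (p : ℕ) : ℂ :=
  if h : p.Prime then ∑ v : {v : HeightOneSpectrum (𝓞 K) // below v = mkP p h},
    (if deg v.1 = 1 then g v.1 else 0) else 0

open Classical in
theorem sum_GG (g : HeightOneSpectrum (𝓞 K) → ℂ) (x : ℕ) :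
    ∑ v ∈ Tx K x, (if deg v = 1 then g v else 0) = ∑ k ∈ Ioc 0 x, GG g k := by
  have hmaps : ∀ v ∈ Tx K x, ((below v : Nat.Primes) : ℕ) ∈ Ioc 0 x := by
    intro v hv
    rw [mem_Tx] at hv
    rw [mem_Ioc]
    exact ⟨(below v).2.pos, (below_le_nm v).trans hv⟩
  rw [← Finset.sum_fiberwise_of_maps_to hmaps]
  refine Finset.sum_congr rfl fun k hk => ?_
  rw [mem_Ioc] at hk
  unfold GG
  split_ifs with h
  · have e1 : ∑ v : {v : HeightOneSpectrum (𝓞 K) // below v = mkP k h},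
        (if deg v.1 = 1 then g v.1 else 0) =
        ∑ v ∈ (univ : Finset {v : HeightOneSpectrum (𝓞 K) // below v = mkP k h}).map
          (Function.Embedding.subtype _), (if deg v = 1 then g v else 0) := by
      rw [Finset.sum_map]
      rfl
    rw [e1]
    refine Finset.sum_subset ?_ ?_
    · intro v hv
      rw [mem_filter] at hv
      rw [Finset.mem_map]
      exact ⟨⟨v, Subtype.ext hv.2⟩, mem_univ _, rfl⟩
    · intro v hv hv'
      rw [Finset.mem_map] at hv
      obtain ⟨u, _, rfl⟩ := hv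
      have hu : (below u.1 : ℕ) = k := by rw [u.2]; rfl
      change (if deg u.1 = 1 then g u.1 else 0) = 0
      rw [if_neg]
      intro hd
      apply hv'
      rw [mem_filter, mem_Tx]
      refine ⟨?_, hu⟩
      change nm u.1 ≤ x
      rw [(nm_eq u.1).1, hd, pow_one, hu]
      exact hk.2
  · refine Finset.sum_eq_zero fun v hv => ?_
    rw [mem_filter] at hv
    exact absurd (hv.2 ▸ (below v).2) h

end

section
variable {K : Type} [Field K] [NumberField K] {J : Type} [Fintype J] [DecidableEq J] (F : Fam K J)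

/-- the sum over the primes above `p` of degree one of the centred traces -/
noncomputable def UU (b : Res K J) (p : ℕ) : ℝ :=
  if h : p.Prime then ∑ v : {v : HeightOneSpectrum (𝓞 K) // below v = mkP p h},
    (if deg v.1 = 1 then tr F v.1 (b v.1) - mt F v.1 else 0) else 0

/-- the logarithm of the partial product -/
noncomputable def X (b : Res K J) (x : ℕ) (s : ℂ) : ℂ := ∑ v ∈ Tx K x, ell F v (b v) s

/-- the remainder -/
noncomputable def rm (b : Res K J) (v : HeightOneSpectrum (𝓞 K)) (s : ℂ) : ℂ :=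
  ell F v (b v) s - (if deg v = 1 then ((tr F v (b v) - mt F v : ℝ) : ℂ) * TT v s else 0)

theorem rm_le : ∃ C : ℝ, 0 ≤ C ∧ ∀ (b : Res K J) (v : HeightOneSpectrum (𝓞 K)) (ε δ : ℝ) (s : ℂ),
    0 < ε → 0 ≤ δ → 1 + ε + δ ≤ s.re → ‖rm F b v s‖ ≤ C * ((nm v : ℝ) ^ (-δ) * Hw ε v) := by
  obtain ⟨Cm, hCm, hm⟩ := mt_bdd F
  refine ⟨4 + Cm, by linarith, fun b v ε δ s hε hδ hs => ?_⟩
  have hn := nm_pos' v
  have hn1 := one_le_nm' v
  have hs1 : 1 ≤ s.re := by linarith
  unfold rm Hw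
  by_cases hd : deg v = 1
  · rw [if_pos hd, if_pos hd, add_zero]
    have h1 := ell_near F v (b v) hs1
    have h2 : ‖(mt F v : ℂ) * TT v s‖ ≤ Cm * (nm v : ℝ) ^ (-s.re) := by
      rw [norm_mul, Complex.norm_real, Real.norm_eq_abs, norm_TT]
      exact mul_le_mul_of_nonneg_right (hm v) (by positivity)
    have h3 : (nm v : ℝ) ^ (1 - 2 * s.re) ≤ (nm v : ℝ) ^ (-s.re) :=
      Real.rpow_le_rpow_of_exponent_le hn1 (by linarith)
    have h4 : (nm v : ℝ) ^ (-s.re) ≤ (nm v : ℝ) ^ (-δ) * (nm v : ℝ) ^ (-(1 + ε)) := by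
      rw [← Real.rpow_add hn]
      exact Real.rpow_le_rpow_of_exponent_le hn1 (by linarith)
    have e : ell F v (b v) s - ((tr F v (b v) - mt F v : ℝ) : ℂ) * TT v s =
        (ell F v (b v) s - tr F v (b v) * TT v s) + (mt F v : ℂ) * TT v s := by
      push_cast
      ring
    rw [e]
    refine (norm_add_le _ _).trans ?_
    have h5 : 0 ≤ (nm v : ℝ) ^ (-δ) * (nm v : ℝ) ^ (-(1 + ε)) := by positivity
    nlinarith
  · rw [if_neg hd, if_neg hd, sub_zero]
    refine (ell_le F v (b v) hs1).trans ?_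
    have h4 : (nm v : ℝ) ^ (1 / 2 - s.re) ≤ (nm v : ℝ) ^ (-δ) * (nm v : ℝ) ^ (-(1 / 2 + ε)) := by
      rw [← Real.rpow_add hn]
      exact Real.rpow_le_rpow_of_exponent_le hn1 (by linarith)
    have h5 : 0 ≤ (nm v : ℝ) ^ (-δ) * (nm v : ℝ) ^ (-(1 + ε)) := by positivity
    have h6 : 0 ≤ (nm v : ℝ) ^ (-δ) * (nm v : ℝ) ^ (-(1 / 2 + ε)) := by positivity
    nlinarith

theorem Tx_mono {y x : ℕ} (h : y ≤ x) : Tx K y ⊆ Tx K x := by
  intro v hv
  rw [mem_Tx] at hv ⊢
  omega

/-- the decomposition -/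
theorem X_sub (b : Res K J) {y x : ℕ} (h : y ≤ x) (s : ℂ) :
    X F b x s - X F b y s = ∑ k ∈ Ioc y x, (UU F b k : ℂ) * (k : ℂ) ^ (-s) +
      ∑ v ∈ (Tx K x).filter (fun v => y < nm v), rm F b v s := by
  classical
  have h0 : ∀ x, X F b x s = ∑ k ∈ Ioc 0 x, (UU F b k : ℂ) * (k : ℂ) ^ (-s) + ∑ v ∈ Tx K x, rm F b v s := by
    intro x
    have h1 := sum_GG (fun v => ((tr F v (b v) - mt F v : ℝ) : ℂ) * TT v s) x
    have h2 : ∀ k, GG (fun v => ((tr F v (b v) - mt F v : ℝ) : ℂ) * TT v s) k =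
        (UU F b k : ℂ) * (k : ℂ) ^ (-s) := by
      intro k
      unfold GG UU
      split_ifs with hk
      · push_cast
        rw [Finset.sum_mul]
        refine Finset.sum_congr rfl fun v _ => ?_
        by_cases hd : deg v.1 = 1
        · rw [if_pos hd, if_pos hd]
          have hv : (below v.1 : ℕ) = k := by rw [v.2]; rfl
          have hn : nm v.1 = k := by rw [(nm_eq v.1).1, hd, pow_one, hv]
          unfold TT
          rw [hn]
          push_cast
          ring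
        · rw [if_neg hd, if_neg hd]
          push_cast
          ring
      · push_cast
        ring
    rw [Finset.sum_congr rfl fun k _ => (h2 k).symm, ← h1, ← Finset.sum_add_distrib]
    unfold X
    refine Finset.sum_congr rfl fun v _ => ?_
    unfold rm
    ring
  rw [h0, h0]
  have h3 : ∑ k ∈ Ioc 0 x, (UU F b k : ℂ) * (k : ℂ) ^ (-s) =
      ∑ k ∈ Ioc 0 y, (UU F b k : ℂ) * (k : ℂ) ^ (-s) + ∑ k ∈ Ioc y x, (UU F b k : ℂ) * (k : ℂ) ^ (-s) := by
    rw [Finset.sum_Ioc_consecutive _ (by omega) h]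
  have h4 : (Tx K x).filter (fun v => ¬ y < nm v) = Tx K y := by
    ext v
    rw [mem_filter, mem_Tx, mem_Tx]
    omega
  have h5 := Finset.sum_filter_add_sum_filter_not (Tx K x) (fun v => y < nm v) (fun v => rm F b v s)
  rw [h4] at h5
  rw [h3, ← h5]
  ring

/-- **The partial products in the half-plane are controlled by one sum of centred traces.** -/
theorem X_le {σ δ : ℝ} (hδ : 0 < δ) (hσ : 1 + δ < σ) : ∃ C : ℝ, 0 < C ∧ ∀ (b : Res K J) (A : ℝ) (x : ℕ),
    1 ≤ A → (∀ t ≤ x, |∑ k ∈ Ioc 0 t, UU F b k * (k : ℝ) ^ (-(1 + (σ - 1 - δ)))| ≤ A) →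
    ∀ y : ℕ, 1 ≤ y → y ≤ x → ∀ s : ℂ, σ ≤ s.re →
    ‖X F b x s - X F b y s‖ ≤ C * A * (1 + ‖s‖) * (y : ℝ) ^ (-δ) := by
  classical
  obtain ⟨C1, hC1, hrm⟩ := rm_le F
  set ε := σ - 1 - δ with hε
  have hε0 : 0 < ε := by rw [hε]; linarith
  set Z := ∑' v : HeightOneSpectrum (𝓞 K), Hw ε v with hZ
  have hZ0 : 0 ≤ Z := tsum_nonneg fun v => Hw_nonneg ε v
  refine ⟨2 + (2 + ε) / δ + C1 * Z, by positivity, fun b A x hA h y hy hyx s hs => ?_⟩
  have hy0 : (0 : ℝ) < y := by exact_mod_cast hy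
  rw [X_sub F b hyx s]
  have hsn := norm_nonneg s
  -- the main part
  set s' : ℂ := s - (1 + ε : ℝ) with hs'
  have hre : s'.re = s.re - (1 + ε) := by rw [hs', Complex.sub_re, Complex.ofReal_re]
  have hre' : δ ≤ s'.re := by rw [hre, hε]; linarith
  have e1 : ∑ k ∈ Ioc y x, (UU F b k : ℂ) * (k : ℂ) ^ (-s) =
      ∑ k ∈ Ioc y x, ((UU F b k * (k : ℝ) ^ (-(1 + ε)) : ℝ) : ℂ) * (k : ℂ) ^ (-s') := by
    refine Finset.sum_congr rfl fun k hk => ?_
    rw [mem_Ioc] at hk
    have hk0 : (k : ℂ) ≠ 0 := by exact_mod_cast (by omega : k ≠ 0)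
    rw [Complex.ofReal_mul, Complex.ofReal_cpow (Nat.cast_nonneg k), mul_assoc, Complex.ofReal_natCast,
      ← Complex.cpow_add _ _ hk0]
    congr 2
    rw [hs']
    push_cast
    ring
  have h1 := abel_le (u := fun k => ((UU F b k * (k : ℝ) ^ (-(1 + ε)) : ℝ) : ℂ)) (A := A) (x := x)
    (by linarith) (fun t ht => by
      rw [← Complex.ofReal_sum, Complex.norm_real, Real.norm_eq_abs]
      exact h t ht) (s := s') (by linarith) hyx
  have h2 : ((y + 1 : ℕ) : ℝ) ^ (-s'.re) ≤ (y : ℝ) ^ (-δ) := by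
    calc ((y + 1 : ℕ) : ℝ) ^ (-s'.re) ≤ ((y + 1 : ℕ) : ℝ) ^ (-δ) :=
          Real.rpow_le_rpow_of_exponent_le (by exact_mod_cast (by omega : 1 ≤ y + 1)) (by linarith)
      _ ≤ (y : ℝ) ^ (-δ) := Real.rpow_le_rpow_of_nonpos hy0 (by push_cast; linarith) (by linarith)
  have h3 : ‖s'‖ / s'.re ≤ (2 + ε) / δ * (1 + ‖s‖) := by
    have h4 : ‖s'‖ ≤ ‖s‖ + (1 + ε) := by
      rw [hs']
      refine (norm_sub_le _ _).trans ?_
      rw [Complex.norm_real, Real.norm_eq_abs, abs_of_pos (by linarith)]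
    calc ‖s'‖ / s'.re ≤ (‖s‖ + (1 + ε)) / δ := by gcongr
      _ ≤ ((2 + ε) * (1 + ‖s‖)) / δ := by gcongr; nlinarith
      _ = _ := by ring
  have h5 : ‖∑ k ∈ Ioc y x, (UU F b k : ℂ) * (k : ℂ) ^ (-s)‖ ≤
      A * ((2 + (2 + ε) / δ) * (1 + ‖s‖)) * (y : ℝ) ^ (-δ) := by
    rw [e1]
    refine h1.trans ?_
    refine mul_le_mul (mul_le_mul_of_nonneg_left ?_ (by linarith)) h2 (by positivity) (by positivity)
    rw [add_mul]
    refine add_le_add ?_ h3
    linarith
  -- the remainder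
  have h6 : ‖∑ v ∈ (Tx K x).filter (fun v => y < nm v), rm F b v s‖ ≤ C1 * Z * (y : ℝ) ^ (-δ) := by
    refine (norm_sum_le _ _).trans ?_
    have h7 : ∀ v ∈ (Tx K x).filter (fun v => y < nm v), ‖rm F b v s‖ ≤ C1 * (y : ℝ) ^ (-δ) * Hw ε v := by
      intro v hv
      rw [mem_filter, mem_Tx] at hv
      refine (hrm b v ε δ s hε0 hδ.le (by rw [hε]; linarith)).trans ?_
      rw [mul_assoc]
      refine mul_le_mul_of_nonneg_left (mul_le_mul_of_nonneg_right ?_ (Hw_nonneg ε v)) hC1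
      refine Real.rpow_le_rpow_of_nonpos hy0 ?_ (by linarith)
      exact_mod_cast (by omega : y ≤ nm v)
    refine (Finset.sum_le_sum h7).trans ?_
    rw [← Finset.mul_sum]
    have h8 : ∑ v ∈ (Tx K x).filter (fun v => y < nm v), Hw ε v ≤ Z :=
      (Hw_summable hε0).sum_le_tsum _ fun v _ => Hw_nonneg ε v
    calc C1 * (y : ℝ) ^ (-δ) * ∑ v ∈ (Tx K x).filter (fun v => y < nm v), Hw ε v ≤ C1 * (y : ℝ) ^ (-δ) * Z := by gcongr
      _ = _ := by ring
  refine (norm_add_le _ _).trans ((add_le_add h5 h6).trans ?_)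
  have h9 : C1 * Z * (y : ℝ) ^ (-δ) ≤ C1 * Z * (A * (1 + ‖s‖)) * (y : ℝ) ^ (-δ) := by
    refine mul_le_mul_of_nonneg_right ?_ (by positivity)
    refine le_mul_of_one_le_right (by positivity) ?_
    nlinarith
  refine (add_le_add le_rfl h9).trans (le_of_eq ?_)
  ring

end

end Pool.Agent.Helper78.RC
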