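import Pool.Agent.Helper78.RC.Rem

/-!
# Almost all members have small sums of centred traces
-/

set_option autoImplicit false
set_option linter.all false

namespace Pool.Agent.Helper78.RC

open Finset NumberField IsDedekindDomain Module Filter
open Pool.Agent.N430.BP hiding TT
open Pool.Agent.H921R2.TatePole (below deg nm nm_eq fiber_card_le two_le_nm nm_summable below_le_nm
  summable_primes_rpow)
open Pool.Agent.Helper89.MM (fintypeV redJ Fam card_v TT norm_TT)
open Pool.Agent.Helper89.CP (dm en zp rd rd_per rd_mean LF.ibox mem_ibox card_ibox)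

attribute [local instance] fintypeV

section
variable {K : Type} [Field K] [NumberField K] {J : Type} [Fintype J] [DecidableEq J] (F : Fam K J)

/-- the residues of a member -/
noncomputable def bz (ω : Basis (Fin (finrank ℚ K)) ℤ (𝓞 K)) (z : J × Fin (finrank ℚ K) → ℤ) : Res K J :=
  fun v => rd ω v z

theorem UU_le (b : Res K J) {p : ℕ} (hp : p.Prime) : |UU F b p| ≤ finrank ℚ K * (4 * Real.sqrt p) := by
  unfold UU
  rw [dif_pos hp]
  refine (Finset.abs_sum_le_sum_abs _ _).trans ?_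
  have h1 : ∀ v : {v : HeightOneSpectrum (𝓞 K) // below v = mkP p hp},
      |if deg v.1 = 1 then tr F v.1 (b v.1) - mt F v.1 else 0| ≤ 4 * Real.sqrt p := by
    intro v
    split_ifs with hd
    · have hv : (below v.1 : ℕ) = p := by rw [v.2]; rfl
      have hn : nm v.1 = p := by rw [(nm_eq v.1).1, hd, pow_one, hv]
      have k1 := tr_le F v.1 (b v.1)
      have k2 := mt_le_sqrt F v.1
      rw [hn] at k1 k2
      refine (abs_sub _ _).trans ?_
      linarith
    · rw [abs_zero]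
      positivity
  refine (Finset.sum_le_sum fun v _ => h1 v).trans ?_
  rw [Finset.sum_const, card_univ, nsmul_eq_mul]
  exact mul_le_mul_of_nonneg_right (by exact_mod_cast fiber_card_le _) (by positivity)

theorem UU_not {b : Res K J} {p : ℕ} (hp : ¬ p.Prime) : UU F b p = 0 := by
  unfold UU
  rw [dif_neg hp]

theorem UU_per (ω : Basis (Fin (finrank ℚ K)) ℤ (𝓞 K)) (U : J × Fin (finrank ℚ K) → ℤ) {p : ℕ}
    (hp : p.Prime) : PerM p (fun w : Pt (dm K J) => UU F (bz ω (zp U w)) p) := by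
  intro j w
  constructor
  · show UU F _ p = UU F _ p
    unfold UU
    rw [dif_pos hp, dif_pos hp]
    refine Finset.sum_congr rfl fun v _ => ?_
    have hv : (below v.1 : ℕ) = p := by rw [v.2]; rfl
    have := (rd_per ω v.1 hv U (fun a => tr F v.1 a) j w).1
    simp only at this
    unfold bz
    rw [this]
  · show UU F _ p = UU F _ p
    unfold UU
    rw [dif_pos hp, dif_pos hp]
    refine Finset.sum_congr rfl fun v _ => ?_
    have hv : (below v.1 : ℕ) = p := by rw [v.2]; rfl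
    have := (rd_per ω v.1 hv U (fun a => tr F v.1 a) j w).2
    simp only at this
    unfold bz
    rw [this]

theorem UU_mean (ω : Basis (Fin (finrank ℚ K)) ℤ (𝓞 K)) (U : J × Fin (finrank ℚ K) → ℤ) {p : ℕ}
    (hp : p.Prime) : avgPM p (dm K J) (fun w : Pt (dm K J) => UU F (bz ω (zp U w)) p) = 0 := by
  unfold UU
  simp only [dif_pos hp]
  rw [avgPM_sum]
  refine Finset.sum_eq_zero fun v _ => ?_
  by_cases hd0 : deg v.1 = 1
  · simp only [if_pos hd0]
    have e : (fun w : Pt (dm K J) => tr F v.1 (bz ω (zp U w) v.1) - mt F v.1) =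
        fun w : Pt (dm K J) => tr F v.1 (rd ω v.1 (zp U w)) + (-mt F v.1) := by
      funext w
      unfold bz
      ring
    rw [e, avgPM_add, avgPM_const hp.pos,
      rd_mean ω hp.pos v.1 (by rw [v.2]; rfl) U (fun a => tr F v.1 a)]
    unfold mt
    ring
  · simp only [if_neg hd0]
    exact avgPM_const hp.pos 0 _

/-- the bounds of the terms -/
noncomputable def bb (K : Type) [Field K] [NumberField K] (η : ℝ) (p : ℕ) : ℝ :=
  finrank ℚ K * (4 * Real.sqrt p) * (p : ℝ) ^ (-(1 + η))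

theorem bb_sq {η : ℝ} {a p : ℕ} (ha : 1 ≤ a) (hap : a < p) (hη : 0 < η) :
    bb K η p ^ 2 ≤ 16 * (finrank ℚ K : ℝ) ^ 2 * (a : ℝ) ^ (-(1 + 2 * η)) := by
  have hp0 : (0 : ℝ) < p := by exact_mod_cast (by omega : 0 < p)
  have ha0 : (0 : ℝ) < a := by exact_mod_cast (by omega : 0 < a)
  have e : bb K η p ^ 2 = 16 * (finrank ℚ K : ℝ) ^ 2 * (p : ℝ) ^ (-(1 + 2 * η)) := by
    unfold bb
    have h1 : Real.sqrt p ^ 2 = p := Real.sq_sqrt hp0.le
    have h2 : ((p : ℝ) ^ (-(1 + η))) ^ 2 * p = (p : ℝ) ^ (-(1 + 2 * η)) := by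
      rw [← Real.rpow_natCast, ← Real.rpow_mul hp0.le]
      nth_rewrite 2 [← Real.rpow_one (p : ℝ)]
      rw [← Real.rpow_add hp0]
      congr 1
      push_cast
      ring
    rw [← h2, mul_pow, mul_pow, mul_pow, h1]
    ring
  rw [e]
  refine mul_le_mul_of_nonneg_left ?_ (by positivity)
  exact Real.rpow_le_rpow_of_nonpos ha0 (by exact_mod_cast hap.le) (by linarith)

theorem Wt_bb {η : ℝ} {a t : ℕ} (ha : 1 ≤ a) (ht : t ≤ 2 * a) (hη : 0 < η) :
    Wt (bb K η) ((Ioc a t).filter Nat.Prime) ≤ 16 * (finrank ℚ K : ℝ) ^ 2 * (a : ℝ) ^ (-(2 * η)) := by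
  have ha0 : (0 : ℝ) < a := by exact_mod_cast (by omega : 0 < a)
  unfold Wt
  have h1 : ∀ p ∈ (Ioc a t).filter Nat.Prime, bb K η p ^ 2 ≤
      16 * (finrank ℚ K : ℝ) ^ 2 * (a : ℝ) ^ (-(1 + 2 * η)) := by
    intro p hp
    rw [mem_filter, mem_Ioc] at hp
    exact bb_sq ha hp.1.1 hη
  refine (Finset.sum_le_sum h1).trans ?_
  rw [Finset.sum_const, nsmul_eq_mul]
  have h2 : ((((Ioc a t).filter Nat.Prime).card : ℕ) : ℝ) ≤ a := by
    have h3 := Finset.card_filter_le (Ioc a t) Nat.Prime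
    rw [Nat.card_Ioc] at h3
    exact_mod_cast (by omega : ((Ioc a t).filter Nat.Prime).card ≤ a)
  have h3 : (a : ℝ) * (a : ℝ) ^ (-(1 + 2 * η)) = (a : ℝ) ^ (-(2 * η)) := by
    nth_rewrite 1 [← Real.rpow_one (a : ℝ)]
    rw [← Real.rpow_add ha0]
    congr 1
    ring
  calc _ ≤ (a : ℝ) * (16 * (finrank ℚ K : ℝ) ^ 2 * (a : ℝ) ^ (-(1 + 2 * η))) := by gcongr
    _ = 16 * (finrank ℚ K : ℝ) ^ 2 * ((a : ℝ) * (a : ℝ) ^ (-(1 + 2 * η))) := by ring
    _ = _ := by rw [h3]

/-- the partial sums of the centred traces -/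
noncomputable def SS (η : ℝ) (b : Res K J) (t : ℕ) : ℝ := ∑ k ∈ Ioc 0 t, UU F b k * (k : ℝ) ^ (-(1 + η))

open Classical in
/-- one block -/
theorem block {η : ℝ} (hη : 0 < η) {m : ℕ} (hm : 1 ≤ m) : ∃ C : ℝ, 0 ≤ C ∧
    ∀ (ω : Basis (Fin (finrank ℚ K)) ℤ (𝓞 K)) (U : J × Fin (finrank ℚ K) → ℤ) (N : ℕ), 0 < N →
    ∀ a t : ℕ, 1 ≤ a → t ≤ 2 * a → t ^ (3 * m) ≤ N → ∀ lam : ℝ, 0 < lam →
    (((BX (dm K J) N).filter fun w : Pt (dm K J) =>
      lam < |∑ k ∈ Ioc a t, UU F (bz ω (zp U w)) k * (k : ℝ) ^ (-(1 + η))|).card : ℝ) ≤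
      C * ((a : ℝ) ^ (-(2 * η))) ^ m / lam ^ (2 * m) * (N : ℝ) ^ (2 * dm K J) := by
  refine ⟨(4 * (2 * m).factorial + 4 * dm K J) * (16 * (finrank ℚ K : ℝ) ^ 2) ^ m, by positivity,
    fun ω U N hN a t ha ht htN lam hlam => ?_⟩
  have hN0 : (0 : ℝ) < N := by exact_mod_cast hN
  set I := (Ioc a t).filter Nat.Prime with hI
  have hsum : ∀ w : Pt (dm K J), ∑ k ∈ Ioc a t, UU F (bz ω (zp U w)) k * (k : ℝ) ^ (-(1 + η)) =
      ∑ p ∈ I, UU F (bz ω (zp U w)) p * (p : ℝ) ^ (-(1 + η)) := by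
    intro w
    rw [hI, Finset.sum_filter]
    refine Finset.sum_congr rfl fun k _ => ?_
    split_ifs with hk
    · rfl
    · rw [UU_not F hk, zero_mul]
  have hIp : ∀ p ∈ I, p.Prime := fun p hp => (mem_filter.1 hp).2
  have h1 := moment_boxM (k := dm K J) I hIp
    (X := fun p w => UU F (bz ω (zp U w)) p * (p : ℝ) ^ (-(1 + η))) (b := bb K η)
    (fun p => by unfold bb; positivity)
    (fun p hp j w => by
      have := UU_per F ω U (hIp p hp) j w
      exact ⟨congrArg (fun z => z * (p : ℝ) ^ (-(1 + η))) this.1,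
        congrArg (fun z => z * (p : ℝ) ^ (-(1 + η))) this.2⟩)
    (fun p hp w => by
      rw [abs_mul, abs_of_nonneg (a := (p : ℝ) ^ (-(1 + η))) (by positivity)]
      unfold bb
      exact mul_le_mul_of_nonneg_right (UU_le F _ (hIp p hp)) (by positivity))
    (fun p hp => by
      have e : (fun w : Pt (dm K J) => UU F (bz ω (zp U w)) p * (p : ℝ) ^ (-(1 + η))) =
          fun w => (p : ℝ) ^ (-(1 + η)) * UU F (bz ω (zp U w)) p := by
        funext w
        ring
      rw [e, avgPM_mul_left, UU_mean F ω U (hIp p hp), mul_zero])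
    m hm (x := t) (N := N) (fun p hp => (mem_Ioc.1 (mem_filter.1 hp).1).2) hN htN
  have hW := Wt_bb (K := K) ha ht hη
  have hW0 := Wt_nonneg (bb K η) I
  have h2 : avgM N (dm K J) (fun w => (∑ p ∈ I, UU F (bz ω (zp U w)) p * (p : ℝ) ^ (-(1 + η))) ^ (2 * m)) ≤
      (4 * (2 * m).factorial + 4 * dm K J) * (16 * (finrank ℚ K : ℝ) ^ 2 * (a : ℝ) ^ (-(2 * η))) ^ m := by
    refine h1.trans (mul_le_mul_of_nonneg_left ?_ (by positivity))
    exact pow_le_pow_left₀ hW0 hW m
  rw [avgM_eq, div_le_iff₀ (by positivity)] at h2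
  set E := (BX (dm K J) N).filter fun w : Pt (dm K J) =>
      lam < |∑ k ∈ Ioc a t, UU F (bz ω (zp U w)) k * (k : ℝ) ^ (-(1 + η))| with hE
  have h3 : (E.card : ℝ) * lam ^ (2 * m) ≤
      ∑ w ∈ BX (dm K J) N, (∑ p ∈ I, UU F (bz ω (zp U w)) p * (p : ℝ) ^ (-(1 + η))) ^ (2 * m) := by
    calc (E.card : ℝ) * lam ^ (2 * m) = ∑ w ∈ E, lam ^ (2 * m) := by rw [Finset.sum_const, nsmul_eq_mul]
      _ ≤ ∑ w ∈ E, (∑ p ∈ I, UU F (bz ω (zp U w)) p * (p : ℝ) ^ (-(1 + η))) ^ (2 * m) := by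
          refine Finset.sum_le_sum fun w hw => ?_
          rw [hE, mem_filter, hsum] at hw
          rw [pow_mul, pow_mul, ← sq_abs (∑ p ∈ I, _)]
          exact pow_le_pow_left₀ (by positivity) (pow_le_pow_left₀ hlam.le hw.2.le 2) m
      _ ≤ _ := Finset.sum_le_sum_of_subset_of_nonneg (Finset.filter_subset _ _) fun w _ _ => by
          rw [pow_mul]
          positivity
  have hl : 0 < lam ^ (2 * m) := by positivity
  rw [← le_div_iff₀ hl] at h3
  refine h3.trans ?_
  rw [div_le_iff₀ hl]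
  refine h2.trans (le_of_eq ?_)
  rw [mul_pow]
  field_simp

open Classical in
/-- **The exceptional set.** -/
theorem exc_Pt {η B : ℝ} (hη : 0 < η) : ∃ (k : ℕ) (C : ℝ), 0 < k ∧ 0 ≤ C ∧
    ∀ (ω : Basis (Fin (finrank ℚ K)) ℤ (𝓞 K)) (U : J × Fin (finrank ℚ K) → ℤ) (N : ℕ), 0 < N →
    ∀ A : ℝ, 1 ≤ A →
    (((BX (dm K J) N).filter fun w : Pt (dm K J) =>
      ∃ t : ℕ, t ^ k ≤ N ∧ A < |SS F η (bz ω (zp U w)) t|).card : ℝ) ≤
      C * A ^ (-B) * (N : ℝ) ^ (2 * dm K J) := by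
  set r : ℝ := (2 : ℝ) ^ (-(η / 2)) with hr
  have hr0 : 0 < r := by positivity
  have hr1 : r < 1 := Real.rpow_lt_one_of_one_lt_of_neg (by norm_num) (by linarith)
  obtain ⟨m0, hm0⟩ := exists_pow_lt_of_lt_one (show (0 : ℝ) < 1 / 4 by norm_num) hr1
  set m := m0 + ⌈B⌉₊ + 1 with hm
  have hm1 : 1 ≤ m := by omega
  have hmB : B ≤ 2 * m := by
    have h1 := Nat.le_ceil B
    have h2 : ((⌈B⌉₊ : ℕ) : ℝ) ≤ 2 * (m : ℕ) := by exact_mod_cast (by omega : ⌈B⌉₊ ≤ 2 * m)
    linarith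
  have hrm : r ^ (2 * m) ≤ 1 / 4 :=
    (pow_le_pow_of_le_one hr0.le hr1.le (by omega : m0 ≤ 2 * m)).trans hm0.le
  obtain ⟨C, hC, hblock⟩ := block F hη hm1
  set c : ℝ := 1 - r with hc
  have hc0 : 0 < c := by rw [hc]; linarith
  refine ⟨3 * m, 2 * (C / c ^ (2 * m)), by omega, by positivity, fun ω U N hN A hA => ?_⟩
  have hN0 : (0 : ℝ) < N := by exact_mod_cast hN
  have hA0 : 0 < A := by linarith
  set lam : ℕ → ℝ := fun j => A * c * r ^ j with hlam
  have hlam0 : ∀ j, 0 < lam j := fun j => by rw [hlam]; positivity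
  -- the bad sets
  set E : ℕ → ℕ → Finset (Pt (dm K J)) := fun j t => (BX (dm K J) N).filter fun w : Pt (dm K J) =>
      lam j < |∑ k ∈ Ioc (2 ^ j) t, UU F (bz ω (zp U w)) k * (k : ℝ) ^ (-(1 + η))| with hE
  set T : ℕ → Finset ℕ := fun j => (Ioc (2 ^ j) (2 ^ (j + 1))).filter fun t => t ^ (3 * m) ≤ N with hT
  have hsub : ((BX (dm K J) N).filter fun w : Pt (dm K J) =>
      ∃ t : ℕ, t ^ (3 * m) ≤ N ∧ A < |SS F η (bz ω (zp U w)) t|) ⊆
      (range N).biUnion fun j => (T j).biUnion fun t => E j t := by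
    intro w hw
    rw [mem_filter] at hw
    obtain ⟨hwB, t, htN, htA⟩ := hw
    by_contra hcon
    have hgood : ∀ j t : ℕ, 2 ^ j < t → t ≤ 2 ^ (j + 1) → t ^ (3 * m) ≤ N →
        |∑ k ∈ Ioc (2 ^ j) t, UU F (bz ω (zp U w)) k * (k : ℝ) ^ (-(1 + η))| ≤ lam j := by
      intro j t h1 h2 h3
      by_contra h4
      push Not at h4
      apply hcon
      rw [mem_biUnion]
      have h5 : j < N := by
        have h6 : j < 2 ^ j := Nat.lt_two_pow_self
        have h7 : t ≤ t ^ (3 * m) := Nat.le_self_pow (by omega) t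
        omega
      refine ⟨j, mem_range.2 h5, ?_⟩
      rw [mem_biUnion]
      refine ⟨t, ?_, ?_⟩
      · rw [hT]
        simp only
        rw [mem_filter, mem_Ioc]
        exact ⟨⟨h1, h2⟩, h3⟩
      · rw [hE]
        simp only
        rw [mem_filter]
        exact ⟨hwB, h4⟩
    have hind : ∀ L t : ℕ, t ≤ 2 ^ L → t ^ (3 * m) ≤ N →
        |SS F η (bz ω (zp U w)) t| ≤ ∑ j ∈ range L, lam j := by
      intro L
      induction L with
      | zero =>
        intro t h1 _
        rw [range_zero, sum_empty]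
        have h2 : SS F η (bz ω (zp U w)) t = 0 := by
          unfold SS
          refine Finset.sum_eq_zero fun k hk => ?_
          rw [mem_Ioc] at hk
          have : k = 1 := by
            rw [pow_zero] at h1
            omega
          rw [this, UU_not F Nat.not_prime_one, zero_mul]
        rw [h2, abs_zero]
      | succ L ih =>
        intro t h1 h2
        rw [sum_range_succ]
        by_cases h3 : t ≤ 2 ^ L
        · have h4 := ih t h3 h2
          have h5 := (hlam0 L).le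
          linarith
        · push Not at h3
          have h4 := ih (2 ^ L) le_rfl ((Nat.pow_le_pow_left h3.le _).trans h2)
          have h5 := hgood L t h3 h1 h2
          have h6 : SS F η (bz ω (zp U w)) t = SS F η (bz ω (zp U w)) (2 ^ L) +
              ∑ k ∈ Ioc (2 ^ L) t, UU F (bz ω (zp U w)) k * (k : ℝ) ^ (-(1 + η)) := by
            unfold SS
            rw [Finset.sum_Ioc_consecutive _ (by omega) h3.le]
          rw [h6]
          refine (abs_add_le _ _).trans ?_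
          linarith
    have h1 := hind t t Nat.lt_two_pow_self.le htN
    have h2 : ∑ j ∈ range t, lam j ≤ A := by
      rw [hlam]
      simp only
      rw [← Finset.mul_sum, mul_assoc, hc, mul_neg_geom_sum]
      have : 0 ≤ r ^ t := by positivity
      nlinarith
    linarith
  have hcard : ∀ j, ∀ t ∈ T j, ((E j t).card : ℝ) ≤
      C / c ^ (2 * m) * (r ^ (2 * m)) ^ j * (A ^ (2 * m))⁻¹ * (N : ℝ) ^ (2 * dm K J) := by
    intro j t ht
    rw [hT] at ht
    simp only at ht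
    rw [mem_filter, mem_Ioc] at ht
    have h1 := hblock ω U N hN (2 ^ j) t Nat.one_le_two_pow (by rw [← pow_succ']; exact ht.1.2) ht.2
      (lam j) (hlam0 j)
    have h2 : (((2 ^ j : ℕ) : ℝ) ^ (-(2 * η))) = r ^ (4 * j) := by
      rw [hr]
      push_cast
      rw [← Real.rpow_natCast, ← Real.rpow_natCast, ← Real.rpow_mul (by norm_num),
        ← Real.rpow_mul (by norm_num)]
      congr 1
      push_cast
      ring
    rw [h2] at h1
    refine h1.trans (le_of_eq ?_)
    rw [hlam]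
    simp only
    have h3 : (r ^ (4 * j)) ^ m = (r ^ (2 * m)) ^ j * (r ^ j) ^ (2 * m) := by
      rw [← pow_mul, ← pow_mul, ← pow_mul, ← pow_add]
      congr 1
      ring
    rw [h3, mul_pow, mul_pow]
    field_simp
  have h1 : (((range N).biUnion fun j => (T j).biUnion fun t => E j t).card : ℝ) ≤
      ∑ j ∈ range N, ∑ t ∈ T j, ((E j t).card : ℝ) := by
    have h2 := Finset.card_biUnion_le (s := range N) (t := fun j => (T j).biUnion fun t => E j t)
    have h3 : ∀ j ∈ range N, ((T j).biUnion fun t => E j t).card ≤ ∑ t ∈ T j, (E j t).card :=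
      fun j _ => Finset.card_biUnion_le
    exact_mod_cast h2.trans (Finset.sum_le_sum h3)
  have h2 : ∑ j ∈ range N, ∑ t ∈ T j, ((E j t).card : ℝ) ≤
      ∑ j ∈ range N, (1 / 2 : ℝ) ^ j * (C / c ^ (2 * m) * (A ^ (2 * m))⁻¹ * (N : ℝ) ^ (2 * dm K J)) := by
    refine Finset.sum_le_sum fun j _ => ?_
    refine (Finset.sum_le_sum (hcard j)).trans ?_
    rw [Finset.sum_const, nsmul_eq_mul]
    have h3 : ((T j).card : ℝ) ≤ 2 ^ j := by
      have h4 : (T j).card ≤ 2 ^ (j + 1) - 2 ^ j :=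
        (Finset.card_filter_le _ _).trans (le_of_eq (Nat.card_Ioc _ _))
      have h5 : (2 : ℕ) ^ (j + 1) = 2 ^ j * 2 := pow_succ 2 j
      have h6 : (T j).card ≤ 2 ^ j := by omega
      exact_mod_cast h6
    have h4 : (2 : ℝ) ^ j * (r ^ (2 * m)) ^ j ≤ (1 / 2) ^ j := by
      rw [← mul_pow]
      exact pow_le_pow_left₀ (by positivity) (by linarith) j
    have h5 : 0 ≤ C / c ^ (2 * m) * (A ^ (2 * m))⁻¹ * (N : ℝ) ^ (2 * dm K J) := by positivity
    calc _ ≤ 2 ^ j * (C / c ^ (2 * m) * (r ^ (2 * m)) ^ j * (A ^ (2 * m))⁻¹ * (N : ℝ) ^ (2 * dm K J)) := by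
          gcongr
      _ = (2 ^ j * (r ^ (2 * m)) ^ j) * (C / c ^ (2 * m) * (A ^ (2 * m))⁻¹ * (N : ℝ) ^ (2 * dm K J)) := by
          ring
      _ ≤ _ := mul_le_mul_of_nonneg_right h4 h5
  rw [← Finset.sum_mul] at h2
  have h3 : ∑ j ∈ range N, (1 / 2 : ℝ) ^ j ≤ 2 := by
    have := sum_geometric_two_le N
    exact this
  have h4 : (A ^ (2 * m))⁻¹ ≤ A ^ (-B) := by
    rw [← Real.rpow_natCast, ← Real.rpow_neg hA0.le]
    refine Real.rpow_le_rpow_of_exponent_le hA ?_
    push_cast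
    linarith
  have h5 : (((BX (dm K J) N).filter fun w : Pt (dm K J) =>
      ∃ t : ℕ, t ^ (3 * m) ≤ N ∧ A < |SS F η (bz ω (zp U w)) t|).card : ℝ) ≤
      (((range N).biUnion fun j => (T j).biUnion fun t => E j t).card : ℝ) := by
    exact_mod_cast Finset.card_le_card hsub
  refine h5.trans (h1.trans (h2.trans ?_))
  calc _ ≤ 2 * (C / c ^ (2 * m) * (A ^ (2 * m))⁻¹ * (N : ℝ) ^ (2 * dm K J)) := by gcongr
    _ ≤ 2 * (C / c ^ (2 * m) * A ^ (-B) * (N : ℝ) ^ (2 * dm K J)) := by gcongr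
    _ = _ := by ring

open Classical in
/-- from pairs of coordinates to coordinates -/
theorem ibox_le (U : J × Fin (finrank ℚ K) → ℤ) (N : ℕ) (Q : (J × Fin (finrank ℚ K) → ℤ) → Prop) :
    (((LF.ibox U N).filter Q).card : ℝ) * (N : ℝ) ^ dm K J ≤
      (((BX (dm K J) N).filter fun w : Pt (dm K J) => Q (zp U w)).card : ℝ) := by
  set S := (LF.ibox U N).filter Q with hS
  set B := Fintype.piFinset fun _ : Fin (dm K J) => Finset.Icc 1 N with hB
  let f : (J × Fin (finrank ℚ K) → ℤ) × (Fin (dm K J) → ℕ) → Pt (dm K J) := fun y i =>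
    ((y.1 ((en K J).symm i) - U ((en K J).symm i)).toNat, y.2 i)
  have hle : (S ×ˢ B).card ≤ ((BX (dm K J) N).filter fun w : Pt (dm K J) => Q (zp U w)).card := by
    have hz : ∀ y : (J × Fin (finrank ℚ K) → ℤ) × (Fin (dm K J) → ℕ), y.1 ∈ S → zp U (f y) = y.1 := by
      intro y hy
      rw [hS, mem_filter, mem_ibox] at hy
      have h2 := hy.1
      funext i
      have h3 := h2 i
      unfold zp
      simp only [f, Equiv.symm_apply_apply]
      rw [Int.toNat_of_nonneg (by linarith)]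
      ring
    refine Finset.card_le_card_of_injOn f ?_ ?_
    · intro y hy
      rw [Finset.mem_coe, mem_product] at hy
      have hzy := hz y hy.1
      have h2 := hy.1
      rw [hS, mem_filter, mem_ibox] at h2
      rw [Finset.mem_coe, mem_filter]
      constructor
      · rw [mem_BX]
        intro i
        have h4 := h2.1 ((en K J).symm i)
        have h5 := hy.2
        rw [hB, Fintype.mem_piFinset] at h5
        have h6 := h5 i
        rw [mem_Icc] at h6
        refine ⟨?_, h6⟩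
        simp only [f]
        omega
      · rw [hzy]
        exact h2.2
    · intro y hy y' hy' hyy
      rw [Finset.mem_coe, mem_product] at hy hy'
      have h2 := hz y hy.1
      have h3 := hz y' hy'.1
      refine Prod.ext ?_ ?_
      · rw [← h2, ← h3, hyy]
      · funext i
        exact congrArg Prod.snd (congrFun hyy i)
  have hBc : B.card = N ^ dm K J := by
    rw [hB, Fintype.card_piFinset]
    simp
  rw [card_product, hBc] at hle
  exact_mod_cast hle

open Classical in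
/-- **The exceptional set.** -/
theorem exc {η B : ℝ} (hη : 0 < η) : ∃ (k : ℕ) (C : ℝ), 0 < k ∧ 0 ≤ C ∧
    ∀ (ω : Basis (Fin (finrank ℚ K)) ℤ (𝓞 K)) (U : J × Fin (finrank ℚ K) → ℤ) (N : ℕ), 0 < N →
    ∀ A : ℝ, 1 ≤ A →
    (((LF.ibox U N).filter fun z => ∃ t : ℕ, t ^ k ≤ N ∧ A < |SS F η (bz ω z) t|).card : ℝ) ≤
      C * A ^ (-B) * (N : ℝ) ^ dm K J := by
  obtain ⟨k, C, hk, hC, h⟩ := exc_Pt F (B := B) hη
  refine ⟨k, C, hk, hC, fun ω U N hN A hA => ?_⟩
  have h1 := ibox_le U N (fun z => ∃ t : ℕ, t ^ k ≤ N ∧ A < |SS F η (bz ω z) t|)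
  have h2 := h1.trans (h ω U N hN A hA)
  have hN0 : (0 : ℝ) < N := by exact_mod_cast hN
  have hNp : (0 : ℝ) < (N : ℝ) ^ dm K J := by positivity
  rw [two_mul, pow_add, ← mul_assoc] at h2
  exact le_of_mul_le_mul_right h2 hNp

end

end Pool.Agent.Helper78.RC
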