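import Pool.Agent.Helper78.RC.Loc

/-!
# A divergent series over the prime ideals
-/

set_option autoImplicit false
set_option linter.all false

namespace Pool.Agent.Helper78.RC

open Finset NumberField IsDedekindDomain Module Filter Topology
open Pool.Agent.H921R2.TatePole (nm two_le_nm nm_summable)
open Pool.Agent.Helper89.MM (zeta_hasProd zeta_cont)

section
variable (K : Type) [Field K] [NumberField K]

theorem nm_cpow (v : HeightOneSpectrum (𝓞 K)) (s : ℂ) :
    ‖((nm v : ℕ) : ℂ) ^ (-s)‖ = (nm v : ℝ) ^ (-s.re) := by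
  rw [Complex.norm_natCast_cpow_of_pos (by have := two_le_nm v; omega), Complex.neg_re]

/-- the logarithm of the zeta function -/
theorem log_zeta : ∃ C : ℝ, ∀ s : ℂ, 1 < s.re →
    |Real.log ‖dedekindZeta K s‖ - (∑' v : HeightOneSpectrum (𝓞 K), ((nm v : ℕ) : ℂ) ^ (-s)).re| ≤ C := by
  refine ⟨∑' v : HeightOneSpectrum (𝓞 K), (nm v : ℝ) ^ (-(2 : ℝ)), fun s hs => ?_⟩
  set w : HeightOneSpectrum (𝓞 K) → ℂ := fun v => ((nm v : ℕ) : ℂ) ^ (-s) with hw
  have hn : ∀ v, ‖w v‖ = (nm v : ℝ) ^ (-s.re) := fun v => nm_cpow K v s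
  have h2 : ∀ v, ‖w v‖ ≤ 1 / 2 := by
    intro v
    rw [hn]
    have hq : (2 : ℝ) ≤ nm v := by exact_mod_cast two_le_nm v
    calc (nm v : ℝ) ^ (-s.re) ≤ (nm v : ℝ) ^ (-1 : ℝ) :=
          Real.rpow_le_rpow_of_exponent_le (by linarith) (by linarith)
      _ = 1 / (nm v : ℝ) := by rw [Real.rpow_neg_one, one_div]
      _ ≤ 1 / 2 := by gcongr
  have hsw : Summable w := Summable.of_norm (by
    refine (nm_summable (K := K) hs).congr fun v => (hn v).symm)
  have hnear : ∀ v, ‖-Complex.log (1 - w v) - w v‖ ≤ (nm v : ℝ) ^ (-(2 : ℝ)) := by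
    intro v
    refine (log_near (h2 v)).trans ?_
    rw [hn, ← Real.rpow_natCast, ← Real.rpow_mul (Nat.cast_nonneg _)]
    refine Real.rpow_le_rpow_of_exponent_le (one_le_nm' v) ?_
    push_cast
    linarith
  have hs2 : Summable fun v : HeightOneSpectrum (𝓞 K) => (nm v : ℝ) ^ (-(2 : ℝ)) :=
    nm_summable (by norm_num)
  have hsd : Summable fun v => -Complex.log (1 - w v) - w v := Summable.of_norm_bounded hs2 hnear
  have hsl : Summable fun v => -Complex.log (1 - w v) := by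
    refine (hsd.add hsw).congr fun v => ?_
    ring
  have h3 := hsl.hasSum.cexp
  have h4 : (Complex.exp ∘ fun v => -Complex.log (1 - w v)) = fun v => (1 - w v)⁻¹ := by
    funext v
    have h5 : 1 - w v ≠ 0 := by
      intro h
      have h6 := h2 v
      rw [← sub_eq_zero.mp h, norm_one] at h6
      norm_num at h6
    rw [Function.comp_apply, Complex.exp_neg, Complex.exp_log h5]
  rw [h4] at h3
  have h5 := (zeta_hasProd K hs).unique h3
  rw [h5, Complex.norm_exp, Real.log_exp, ← Complex.sub_re]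
  have h6 : ∑' v, -Complex.log (1 - w v) - ∑' v, w v = ∑' v, (-Complex.log (1 - w v) - w v) :=
    (hsl.tsum_sub hsw).symm
  rw [h6]
  refine (Complex.abs_re_le_norm _).trans ?_
  exact tsum_of_norm_bounded hs2.hasSum hnear

theorem re_sum {s : ℂ} (hs : 1 < s.re) : (∑' v : HeightOneSpectrum (𝓞 K), ((nm v : ℕ) : ℂ) ^ (-s)).re =
    ∑' v : HeightOneSpectrum (𝓞 K), (nm v : ℝ) ^ (-s.re) * Real.cos (s.im * Real.log (nm v)) := by
  have hsw : Summable fun v : HeightOneSpectrum (𝓞 K) => ((nm v : ℕ) : ℂ) ^ (-s) := Summable.of_norm (by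
    refine (nm_summable (K := K) hs).congr fun v => (nm_cpow K v s).symm)
  rw [Complex.re_tsum hsw]
  refine tsum_congr fun v => ?_
  have hq : (0 : ℝ) < nm v := nm_pos' v
  have h1 : ((nm v : ℕ) : ℂ) ^ (-s) = (((nm v : ℝ) ^ (-s.re) : ℝ) : ℂ) *
      Complex.exp (((-(s.im * Real.log (nm v)) : ℝ) : ℂ) * Complex.I) := by
    have h2 : ((nm v : ℕ) : ℂ) = ((nm v : ℝ) : ℂ) := by push_cast; rfl
    rw [h2, Complex.cpow_def_of_ne_zero (by exact_mod_cast hq.ne'), Real.rpow_def_of_pos hq,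
      Complex.ofReal_exp, ← Complex.exp_add, ← Complex.ofReal_log hq.le]
    congr 1
    conv_lhs => rw [← Complex.re_add_im s]
    push_cast
    ring
  rw [h1, Complex.re_ofReal_mul, Complex.exp_ofReal_mul_I_re, Real.cos_neg]

theorem cos_four (x : ℝ) : 1 - Real.cos (4 * x) ≤ 8 * Real.cos x ^ 2 := by
  have h1 : Real.cos (4 * x) = 1 - 2 * Real.sin (2 * x) ^ 2 := by
    have := Real.cos_two_mul (2 * x)
    rw [show 2 * (2 * x) = 4 * x by ring] at this
    rw [this, Real.cos_sq']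
    ring
  have h2 := Real.sin_sq_add_cos_sq x
  rw [h1, Real.sin_two_mul]
  nlinarith [sq_nonneg (Real.sin x), sq_nonneg (Real.cos x), sq_nonneg (Real.cos x ^ 2)]

/-- **Divergence.** -/
theorem not_summable_cos {t : ℝ} (ht : t ≠ 0) :
    ¬ Summable fun v : HeightOneSpectrum (𝓞 K) => Real.cos (t * Real.log (nm v)) ^ 2 / (nm v : ℝ) := by
  intro hsum
  obtain ⟨C, hC⟩ := log_zeta K
  obtain ⟨H, hH, hH1, hz⟩ := zeta_cont K
  set g : HeightOneSpectrum (𝓞 K) → ℝ := fun v => 8 * (Real.cos (t * Real.log (nm v)) ^ 2 / (nm v : ℝ)) with hg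
  have hg0 : Summable g := hsum.mul_left 8
  set S := ∑' v, g v with hS
  -- comparison
  have key : ∀ σ : ℝ, 1 < σ → Real.log ‖dedekindZeta K (σ : ℂ)‖ ≤
      Real.log ‖dedekindZeta K ((σ : ℂ) + ((4 * t : ℝ) : ℂ) * Complex.I)‖ + (S + 2 * C) := by
    intro σ hσ
    set s : ℂ := (σ : ℂ) + ((4 * t : ℝ) : ℂ) * Complex.I with hs
    have hre : s.re = σ := by simp [hs]
    have him : s.im = 4 * t := by simp [hs]
    have hre0 : (σ : ℂ).re = σ := Complex.ofReal_re σ
    have him0 : (σ : ℂ).im = 0 := Complex.ofReal_im σ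
    have h1 := abs_le.mp (hC (σ : ℂ) (by rw [hre0]; exact hσ))
    have h2 := abs_le.mp (hC s (by rw [hre]; exact hσ))
    rw [re_sum K (by rw [hre0]; exact hσ), hre0, him0] at h1
    rw [re_sum K (by rw [hre]; exact hσ), hre, him] at h2
    have hb : Summable fun v : HeightOneSpectrum (𝓞 K) => (nm v : ℝ) ^ (-σ) := nm_summable hσ
    have hb1 : Summable fun v : HeightOneSpectrum (𝓞 K) =>
        (nm v : ℝ) ^ (-σ) * Real.cos (0 * Real.log (nm v)) := by
      refine hb.congr fun v => ?_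
      rw [zero_mul, Real.cos_zero, mul_one]
    have hb2 : Summable fun v : HeightOneSpectrum (𝓞 K) =>
        (nm v : ℝ) ^ (-σ) * Real.cos (4 * t * Real.log (nm v)) := by
      refine Summable.of_norm_bounded hb fun v => ?_
      rw [norm_mul, Real.norm_eq_abs, Real.norm_eq_abs, abs_of_nonneg (a := (nm v : ℝ) ^ (-σ)) (by positivity)]
      exact mul_le_of_le_one_right (by positivity) (Real.abs_cos_le_one _)
    have h3 : ∑' v : HeightOneSpectrum (𝓞 K), (nm v : ℝ) ^ (-σ) * Real.cos (0 * Real.log (nm v)) -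
        ∑' v : HeightOneSpectrum (𝓞 K), (nm v : ℝ) ^ (-σ) * Real.cos (4 * t * Real.log (nm v)) ≤ S := by
      rw [← hb1.tsum_sub hb2]
      refine (hb1.sub hb2).tsum_le_tsum (fun v => ?_) hg0
      rw [hg]
      simp only
      rw [zero_mul, Real.cos_zero, mul_one]
      have hq1 : (1 : ℝ) ≤ nm v := one_le_nm' v
      have h4 := cos_four (t * Real.log (nm v))
      have h5 : (nm v : ℝ) ^ (-σ) ≤ (nm v : ℝ)⁻¹ := by
        rw [← Real.rpow_neg_one]
        exact Real.rpow_le_rpow_of_exponent_le hq1 (by linarith)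
      have h6 : 0 ≤ (nm v : ℝ) ^ (-σ) := by positivity
      rw [show 4 * (t * Real.log (nm v)) = 4 * t * Real.log (nm v) by ring] at h4
      have h7 : (nm v : ℝ) ^ (-σ) - (nm v : ℝ) ^ (-σ) * Real.cos (4 * t * Real.log (nm v)) =
          (nm v : ℝ) ^ (-σ) * (1 - Real.cos (4 * t * Real.log (nm v))) := by ring
      rw [h7]
      calc (nm v : ℝ) ^ (-σ) * (1 - Real.cos (4 * t * Real.log (nm v)))
          ≤ (nm v : ℝ)⁻¹ * (8 * Real.cos (t * Real.log (nm v)) ^ 2) := by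
            refine mul_le_mul h5 h4 ?_ (by positivity)
            linarith [Real.cos_le_one (4 * t * Real.log (nm v))]
        _ = _ := by rw [div_eq_mul_inv]; ring
    linarith [h1.1, h1.2, h2.1, h2.2]
  -- the behaviour for `σ → 1`
  have hto : Tendsto (fun σ : ℝ => (σ : ℂ)) (𝓝[>] 1) (𝓝 (1 : ℂ)) := by
    have h0 := Complex.continuous_ofReal.tendsto (1 : ℝ)
    rw [Complex.ofReal_one] at h0
    exact h0.mono_left nhdsWithin_le_nhds
  have hHc : ∀ z : ℂ, 0 < z.re → ContinuousAt H z := fun z hz =>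
    (hH.differentiableAt ((isOpen_lt continuous_const Complex.continuous_re).mem_nhds hz)).continuousAt
  have hA : Tendsto (fun σ : ℝ => Real.log ‖dedekindZeta K (σ : ℂ)‖) (𝓝[>] 1) atTop := by
    have h1 : Tendsto (fun σ : ℝ => Real.log ‖H (σ : ℂ)‖) (𝓝[>] 1) (𝓝 (Real.log ‖H 1‖)) := by
      refine Tendsto.log ?_ (norm_ne_zero_iff.mpr hH1)
      exact ((hHc 1 (by simp)).tendsto.comp hto).norm
    have h2 : Tendsto (fun σ : ℝ => -Real.log (σ - 1)) (𝓝[>] 1) atTop := by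
      refine tendsto_neg_atBot_atTop.comp ?_
      refine Real.tendsto_log_nhdsGT_zero.comp ?_
      rw [tendsto_nhdsWithin_iff]
      constructor
      · have : Tendsto (fun σ : ℝ => σ - 1) (𝓝 1) (𝓝 (1 - 1)) := (continuous_id.sub continuous_const).tendsto 1
        rw [sub_self] at this
        exact this.mono_left nhdsWithin_le_nhds
      · filter_upwards [self_mem_nhdsWithin] with σ hσ
        have hσ1 : (1 : ℝ) < σ := hσ
        exact sub_pos.mpr hσ1
    have h3 := h1.add_atTop h2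
    refine h3.congr' ?_
    filter_upwards [self_mem_nhdsWithin, ((hHc 1 (by simp)).tendsto.comp hto).eventually_ne hH1] with σ hσ hne
    have hσ1 : (1 : ℝ) < σ := hσ
    have hne' : H (σ : ℂ) ≠ 0 := hne
    rw [hz (σ : ℂ) (by simpa using hσ1), norm_div, Real.log_div (norm_ne_zero_iff.mpr hne')]
    · have : ‖(σ : ℂ) - 1‖ = σ - 1 := by
        rw [← Complex.ofReal_one, ← Complex.ofReal_sub, Complex.norm_real, Real.norm_eq_abs,
          abs_of_pos (by linarith)]
      rw [this]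
      ring
    · rw [norm_ne_zero_iff, sub_ne_zero]
      exact_mod_cast hσ1.ne'
  set z1 : ℂ := 1 + ((4 * t : ℝ) : ℂ) * Complex.I with hz1
  have hB : ∃ D : ℝ, ∀ᶠ σ : ℝ in 𝓝[>] 1,
      Real.log ‖dedekindZeta K ((σ : ℂ) + ((4 * t : ℝ) : ℂ) * Complex.I)‖ ≤ D := by
    have h0 : z1 - 1 ≠ 0 := by
      rw [hz1, add_sub_cancel_left]
      refine mul_ne_zero ?_ Complex.I_ne_zero
      exact_mod_cast mul_ne_zero (by norm_num) ht
    have h1 : Tendsto (fun σ : ℝ => (σ : ℂ) + ((4 * t : ℝ) : ℂ) * Complex.I) (𝓝[>] 1) (𝓝 z1) := by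
      rw [hz1]
      exact hto.add_const _
    have h2 : Tendsto (fun σ : ℝ => ‖H ((σ : ℂ) + ((4 * t : ℝ) : ℂ) * Complex.I) /
        ((σ : ℂ) + ((4 * t : ℝ) : ℂ) * Complex.I - 1)‖) (𝓝[>] 1) (𝓝 ‖H z1 / (z1 - 1)‖) := by
      refine Tendsto.norm ?_
      exact ((hHc z1 (by simp [hz1])).tendsto.comp h1).div (h1.sub_const 1) h0
    refine ⟨Real.log (‖H z1 / (z1 - 1)‖ + 1), ?_⟩
    filter_upwards [h2.eventually (gt_mem_nhds (lt_add_one _)), self_mem_nhdsWithin] with σ hσ hσ1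
    have hσ1' : (1 : ℝ) < σ := hσ1
    rw [hz _ (by simpa using hσ1')]
    by_cases h0' : ‖H ((σ : ℂ) + ((4 * t : ℝ) : ℂ) * Complex.I) /
        ((σ : ℂ) + ((4 * t : ℝ) : ℂ) * Complex.I - 1)‖ = 0
    · rw [h0', Real.log_zero]
      exact Real.log_nonneg (by linarith [norm_nonneg (H z1 / (z1 - 1))])
    · exact Real.log_le_log (lt_of_le_of_ne (norm_nonneg _) (Ne.symm h0')) hσ.le
  obtain ⟨D, hD⟩ := hB
  have hself : ∀ᶠ σ : ℝ in 𝓝[>] 1, σ ∈ Set.Ioi (1 : ℝ) := self_mem_nhdsWithin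
  obtain ⟨σ, ⟨hσ1, hσ2⟩, hσ3⟩ := (((hA.eventually_gt_atTop (D + (S + 2 * C))).and hD).and hself).exists
  have := key σ hσ3
  linarith

end

end Pool.Agent.Helper78.RC
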